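import Pool.Agent.H93HD.Forest

/-!
# Class `A` after the letters and the chords

Apply `forest` with `X = rows σ`, `α = V × W`, `I = V × ℕ`, `comp (v, w) = (rep v, position of w)`,
`rank (c, i) = n - 1 - i`, `par (c, i) = (c, b c i)`, `J` = representatives × `range (n-1)`, squares
`a = (e, h i)`, `b = (σ e, h i)`, `c = (e, h (b c i))`, `d = (σ e, h (b c i))` with `e = e c i`.
-/

namespace H93HD

open Finset
open scoped Classical

variable {V W : Type*} [Fintype V] [Fintype W]

theorem enumInjA {n : ℕ} {h : ℕ → W} (henum : Enum n h) {i j : ℕ} (hi : i < n) (hj : j < n)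
    (hij : h i = h j) : i = j := by
  have h1 := (henum.1 i j).1 hij
  rwa [Nat.ModEq, Nat.mod_eq_of_lt hi, Nat.mod_eq_of_lt hj] at h1

theorem ne_selfA {σ : Equiv.Perm V} (hσ : ∀ v, σ (σ v) ≠ v) (v : V) : σ v ≠ v := by
  intro h
  apply hσ v
  rw [h, h]

/-- horizontal edges determine their starting point -/
theorem edge_injA {σ : Equiv.Perm V} (hσ : ∀ v, σ (σ v) ≠ v) {v v' : V} {w w' : W}
    (h : s((v, w), (σ v, w)) = s((v', w'), (σ v', w'))) : v = v' ∧ w = w' := by
  rw [Sym2.eq_iff] at h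
  rcases h with ⟨h1, -⟩ | ⟨h1, h2⟩
  · exact ⟨congrArg Prod.fst h1, congrArg Prod.snd h1⟩
  · exfalso
    have h3 : v = σ v' := congrArg Prod.fst h1
    have h4 : σ v = v' := congrArg Prod.fst h2
    exact hσ v' (by rw [← h3, h4])

theorem rows_eq_one (σ : Equiv.Perm V) (hσ : ∀ v, σ (σ v) ≠ v) (e : Sym2 (V × W)) :
    rows σ e = 1 ↔ ∃ v w, e = s((v, w), (σ v, w)) := by
  have key : rows σ e = ∑ p : V × W, ind (p.1, p.2) (σ p.1, p.2) e := by
    rw [rows, Fintype.sum_prod_type]
  constructor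
  · intro h
    by_contra hne
    push Not at hne
    rw [key, sum_eq_zero] at h
    · exact absurd h (by decide)
    · rintro ⟨v, w⟩ -
      exact ind_eq_zero.2 (hne v w)
  · rintro ⟨v, w, rfl⟩
    rw [key, sum_eq_single (v, w)]
    · exact ind_eq_one.2 rfl
    · rintro ⟨v', w'⟩ - hne
      refine ind_eq_zero.2 fun h => hne ?_
      obtain ⟨h1, h2⟩ := edge_injA hσ h
      rw [h1, h2]
    · intro h
      exact absurd (mem_univ _) h

theorem rows_twoRegA (σ : Equiv.Perm V) (hσ : ∀ v, σ (σ v) ≠ v) :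
    TwoReg (rows (W := W) σ) := by
  rintro ⟨v, w⟩
  refine ⟨(σ v, w), (σ.symm v, w), ?_, ?_, ?_, ?_⟩
  · intro h
    have h1 : σ v = σ.symm v := congrArg Prod.fst h
    exact hσ v (by rw [h1, Equiv.apply_symm_apply])
  · intro h
    exact ne_selfA hσ v (congrArg Prod.fst h)
  · intro h
    have h1 : σ.symm v = v := congrArg Prod.fst h
    exact ne_selfA hσ v (by conv_lhs => rw [← h1, Equiv.apply_symm_apply])
  · rintro ⟨v', w'⟩
    rw [rows_eq_one σ hσ]
    constructor
    · rintro ⟨u, x, h⟩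
      rw [Sym2.eq_iff] at h
      rcases h with ⟨h1, h2⟩ | ⟨h1, h2⟩
      · left
        rw [h2]
        have h3 : v = u := congrArg Prod.fst h1
        have h4 : w = x := congrArg Prod.snd h1
        rw [h3, h4]
      · right
        rw [h2]
        have h3 : v = σ u := congrArg Prod.fst h1
        have h4 : w = x := congrArg Prod.snd h1
        rw [h3, h4, Equiv.symm_apply_apply]
    · rintro (h | h)
      · exact ⟨v, w, by rw [h]⟩
      · exact ⟨σ.symm v, w, by rw [h, Sym2.eq_swap, Equiv.apply_symm_apply]⟩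

theorem rep_applyA {σ : Equiv.Perm V} {rep : V → V} (hrep : IsRep σ rep) (v : V) :
    rep (σ v) = rep v := by
  rw [hrep.1]
  exact ⟨-1, by simp⟩

theorem rows_connA (σ : Equiv.Perm V) (hσ : ∀ v, σ (σ v) ≠ v) {v v' : V} (w : W)
    (h : σ.SameCycle v v') : Conn (rows (W := W) σ) (v, w) (v', w) := by
  obtain ⟨k, -, hk⟩ := h.exists_pow_eq'
  rw [← hk]
  clear hk
  induction k with
  | zero => exact Conn.refl _
  | succ k ih =>
    refine ih.trans (Conn.single ?_)
    rw [rows_eq_one σ hσ]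
    exact ⟨(σ ^ k) v, w, by rw [pow_succ']; rfl⟩

theorem ablock (σ : Equiv.Perm V) (hσ : ∀ v, σ (σ v) ≠ v) (rep : V → V) (hrep : IsRep σ rep)
    (n : ℕ) (hn : 3 ≤ n) (h : ℕ → W) (henum : Enum n h)
    (e : V → ℕ → V) (b : V → ℕ → ℕ)
    (he : ∀ c, rep c = c → ∀ i < n - 1, rep (e c i) = c)
    (hb : ∀ c, rep c = c → ∀ i < n - 1, i < b c i ∧ b c i < n)
    (hD1 : ∀ c, rep c = c → ∀ i < n - 1, b c i < n - 1 → e c i ≠ e c (b c i))
    (hD2 : ∀ c, rep c = c → ∀ i < n - 1, ∀ j < n - 1, i ≠ j → b c i = b c j → e c i ≠ e c j) :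
    TwoReg (Afun (W := W) σ rep n h e b) ∧
      ∀ x y : V × W, rep x.1 = rep y.1 → Conn (Afun σ rep n h e b) x y := by
  choose pos hpos1 hpos2 using henum.2
  have hpos : ∀ i < n, pos (h i) = i := fun i hi =>
    enumInjA henum (hpos1 _) hi (hpos2 _)
  set J : Finset (V × ℕ) := reps rep ×ˢ range (n - 1) with hJ
  have hmem : ∀ p : V × ℕ, p ∈ J ↔ rep p.1 = p.1 ∧ p.2 < n - 1 := by
    intro p
    rw [hJ, mem_product, mem_range]
    simp [reps]
  have hf := forest (α := V × W) (I := V × ℕ) (rows σ) (rows_twoRegA σ hσ)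
    (fun x => (rep x.1, pos x.2)) ?_ ?_ (fun p => n - 1 - p.2) (fun p => (p.1, b p.1 p.2)) J ?_
    (fun p => (e p.1 p.2, h p.2)) (fun p => (σ (e p.1 p.2), h p.2))
    (fun p => (e p.1 p.2, h (b p.1 p.2))) (fun p => (σ (e p.1 p.2), h (b p.1 p.2)))
    ?_ ?_ ?_ ?_ ?_ ?_
  · have hA : (fun ed => rows σ ed + ∑ p ∈ J, sq (e p.1 p.2, h p.2) (σ (e p.1 p.2), h p.2)
        (e p.1 p.2, h (b p.1 p.2)) (σ (e p.1 p.2), h (b p.1 p.2)) ed) =
        Afun σ rep n h e b := by
      funext ed
      rw [Afun, hJ, sum_product]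
      rfl
    rw [hA] at hf
    obtain ⟨h1, h2, h3⟩ := hf
    refine ⟨h1, ?_⟩
    have key : ∀ (c : V), rep c = c → ∀ k i : ℕ, i + k = n - 1 → ∀ v, rep v = c →
        Conn (Afun σ rep n h e b) (v, h i) (c, h (n - 1)) := by
      intro c hc k
      induction k using Nat.strong_induction_on with
      | _ k ih =>
        intro i hik v hv
        rcases Nat.eq_zero_or_pos k with rfl | hk
        · have hi : i = n - 1 := by omega
          subst hi
          apply h2
          simp only [hv, hc]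
        · have hi : i < n - 1 := by omega
          have h4 : Conn (Afun σ rep n h e b) (v, h i) (e c i, h i) := by
            apply h2
            simp only [hv, he c hc i hi]
          have h5 := h3 (c, i) ((hmem _).2 ⟨hc, hi⟩)
          obtain ⟨h6, h7⟩ := hb c hc i hi
          have h8 := ih (n - 1 - b c i) (by omega) (b c i) (by omega) (e c i) (he c hc i hi)
          exact (h4.trans h5).trans h8
    rintro ⟨v, w⟩ ⟨v', w'⟩ hvv
    have hvv' : rep v = rep v' := hvv
    have h4 := key (rep v) (hrep.2 v) (n - 1 - pos w) (pos w)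
      (by have := hpos1 w; omega) v rfl
    have h5 := key (rep v) (hrep.2 v) (n - 1 - pos w') (pos w')
      (by have := hpos1 w'; omega) v' hvv'.symm
    rw [hpos2] at h4 h5
    exact h4.trans h5.symm
  · rintro x y hxy
    obtain ⟨v, w, hvw⟩ := (rows_eq_one σ hσ _).1 hxy
    rw [Sym2.eq_iff] at hvw
    rcases hvw with ⟨h1, h2⟩ | ⟨h1, h2⟩
    · simp only [h1, h2, rep_applyA hrep]
    · simp only [h1, h2, rep_applyA hrep]
  · rintro ⟨v, w⟩ ⟨v', w'⟩ hxy
    rw [Prod.mk.injEq] at hxy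
    have h1 : w = w' := by
      rw [← hpos2 w, ← hpos2 w', hxy.2]
    subst h1
    exact rows_connA σ hσ w ((hrep.1 _ _).1 hxy.1)
  · rintro ⟨c, i⟩ hp
    obtain ⟨hc, hi⟩ := (hmem _).1 hp
    obtain ⟨h1, h2⟩ := hb c hc i hi
    have hi' : i < n - 1 := hi
    show n - 1 - b c i < n - 1 - i
    omega
  · rintro ⟨c, i⟩ hp
    obtain ⟨hc, hi⟩ := (hmem _).1 hp
    have hi' : i < n - 1 := hi
    show (rep (e c i), pos (h i)) = (c, i)
    rw [he c hc i hi, hpos i (by omega)]
  · rintro ⟨c, i⟩ hp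
    obtain ⟨hc, hi⟩ := (hmem _).1 hp
    show (rep (e c i), pos (h (b c i))) = (c, b c i)
    rw [he c hc i hi, hpos (b c i) (hb c hc i hi).2]
  · rintro ⟨c, i⟩ hp
    exact (rows_eq_one σ hσ _).2 ⟨e c i, h i, rfl⟩
  · rintro ⟨c, i⟩ hp
    exact (rows_eq_one σ hσ _).2 ⟨e c i, h (b c i), rfl⟩
  · rintro ⟨c, i⟩ hp ⟨c', j⟩ hq heq
    obtain ⟨hc, hi⟩ := (hmem _).1 hp
    obtain ⟨hc', hj⟩ := (hmem _).1 hq
    simp only at hc hi hc' hj
    obtain ⟨h1, h2⟩ := edge_injA hσ heq
    simp only at h1 h2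
    have h3 : c = c' := by
      rw [← he c hc i hi, ← he c' hc' j hj, h1]
    subst h3
    have h4 : b c i = j := enumInjA henum (hb c hc i hi).2 (by omega) h2
    subst h4
    exact hD1 c hc i hi hj h1
  · rintro ⟨c, i⟩ hp ⟨c', j⟩ hq hne heq
    obtain ⟨hc, hi⟩ := (hmem _).1 hp
    obtain ⟨hc', hj⟩ := (hmem _).1 hq
    simp only at hc hi hc' hj
    obtain ⟨h1, h2⟩ := edge_injA hσ heq
    simp only at h1 h2
    have h3 : c = c' := by
      rw [← he c hc i hi, ← he c' hc' j hj, h1]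
    subst h3
    have h4 : b c i = b c j := enumInjA henum (hb c hc i hi).2 (hb c hc j hj).2 h2
    exact hD2 c hc i hi j hj (fun h => hne (by rw [h])) h4 h1

theorem sq_ne_zeroA {α : Type*} {a b c d : α} {e : Sym2 α} (h : sq a b c d e ≠ 0) :
    e = s(a, b) ∨ e = s(c, d) ∨ e = s(a, c) ∨ e = s(b, d) := by
  by_contra hne
  push Not at hne
  obtain ⟨h1, h2, h3, h4⟩ := hne
  apply h
  rw [sq, ind_eq_zero.2 h1, ind_eq_zero.2 h2, ind_eq_zero.2 h3, ind_eq_zero.2 h4]
  simp

/-- the edges of class `A` stay in the orbits -/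
theorem ablock_closed (σ : Equiv.Perm V) (rep : V → V) (hrep : IsRep σ rep)
    (n : ℕ) (h : ℕ → W) (e : V → ℕ → V) (b : V → ℕ → ℕ)
    (x y : V × W) (hxy : Afun σ rep n h e b s(x, y) = 1) : rep x.1 = rep y.1 := by
  have key : ∀ (p q : V × W), s(x, y) = s(p, q) → rep p.1 = rep q.1 → rep x.1 = rep y.1 := by
    intro p q h1 h2
    rw [Sym2.eq_iff] at h1
    rcases h1 with ⟨h3, h4⟩ | ⟨h3, h4⟩
    · rw [h3, h4, h2]
    · rw [h3, h4, h2]
  by_contra hne
  rw [Afun, rows, sum_eq_zero, sum_eq_zero] at hxy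
  · exact absurd hxy (by decide)
  · intro c _
    refine sum_eq_zero fun i _ => ?_
    by_contra h0
    rcases sq_ne_zeroA h0 with h1 | h1 | h1 | h1
    · exact hne (key _ _ h1 (rep_applyA hrep _).symm)
    · exact hne (key _ _ h1 (rep_applyA hrep _).symm)
    · exact hne (key _ _ h1 rfl)
    · exact hne (key _ _ h1 rfl)
  · intro v _
    refine sum_eq_zero fun w _ => ?_
    refine ind_eq_zero.2 fun h1 => hne (key _ _ h1 (rep_applyA hrep _).symm)

/-- the vertical edges at a letter belong to class `A` -/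
theorem ablock_vertical (σ : Equiv.Perm V) (hσ : ∀ v, σ (σ v) ≠ v) (rep : V → V)
    (hrep : IsRep σ rep)
    (n : ℕ) (hn : 3 ≤ n) (h : ℕ → W) (henum : Enum n h)
    (e : V → ℕ → V) (b : V → ℕ → ℕ)
    (he : ∀ c, rep c = c → ∀ i < n - 1, rep (e c i) = c)
    (hb : ∀ c, rep c = c → ∀ i < n - 1, i < b c i ∧ b c i < n)
    (v : V) (t : ℕ) (ht : t < n - 1) (hbt : b (rep v) t = t + 1)
    (hv : v = e (rep v) t ∨ v = σ (e (rep v) t)) :
    Afun σ rep n h e b s((v, h t), (v, h (t + 1))) = 1 := by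
  have htt : h t ≠ h (t + 1) := by
    intro h1
    have := enumInjA henum (i := t) (j := t + 1) (by omega) (by omega) h1
    omega
  have hr0 : rows σ s((v, h t), (v, h (t + 1))) = 0 := by
    rw [rows]
    refine sum_eq_zero fun u _ => sum_eq_zero fun w _ => ?_
    refine ind_eq_zero.2 fun h1 => htt ?_
    rw [Sym2.eq_iff] at h1
    rcases h1 with ⟨h2, h3⟩ | ⟨h2, h3⟩
    · exact (congrArg Prod.snd h2).trans (congrArg Prod.snd h3).symm
    · exact (congrArg Prod.snd h2).trans (congrArg Prod.snd h3).symm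
  -- the terms
  have hterm : ∀ c i, rep c = c → i < n - 1 →
      psq (e c i) (σ (e c i)) (h i) (h (b c i)) s((v, h t), (v, h (t + 1))) ≠ 0 →
      c = rep v ∧ i = t := by
    intro c i hc hi h0
    have hpos : ∀ (u : V), rep u = c → s((v, h t), (v, h (t + 1))) = s((u, h i), (u, h (b c i))) →
        c = rep v ∧ i = t := by
      intro u hu h1
      obtain ⟨hb1, hb2⟩ := hb c hc i hi
      rw [Sym2.eq_iff] at h1
      rcases h1 with ⟨h2, h3⟩ | ⟨h2, h3⟩
      · have h4 : v = u := congrArg Prod.fst h2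
        have h5 := enumInjA henum (by omega) (by omega) (congrArg Prod.snd h2 : h t = h i)
        exact ⟨by rw [h4, hu], h5.symm⟩
      · have h5 := enumInjA henum (by omega) (by omega) (congrArg Prod.snd h2 : h t = h (b c i))
        have h6 := enumInjA henum (by omega) (by omega) (congrArg Prod.snd h3 : h (t + 1) = h i)
        omega
    have hhor : ∀ (u u' : V) (x : W), s((v, h t), (v, h (t + 1))) ≠ s((u, x), (u', x)) := by
      intro u u' x h1
      rw [Sym2.eq_iff] at h1
      rcases h1 with ⟨h2, h3⟩ | ⟨h2, h3⟩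
      · exact htt ((congrArg Prod.snd h2).trans (congrArg Prod.snd h3).symm)
      · exact htt ((congrArg Prod.snd h2).trans (congrArg Prod.snd h3).symm)
    rcases sq_ne_zeroA h0 with h1 | h1 | h1 | h1
    · exact absurd h1 (hhor _ _ _)
    · exact absurd h1 (hhor _ _ _)
    · exact hpos _ (he c hc i hi) h1
    · exact hpos _ ((rep_applyA hrep _).trans (he c hc i hi)) h1
  have hrv : rep (rep v) = rep v := hrep.2 v
  rw [Afun, hr0, zero_add, sum_eq_single (rep v), sum_eq_single t]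
  · rw [hbt]
    have hne := ne_selfA hσ (e (rep v) t)
    have hhor : ∀ (u u' : V) (x : W), ind (u, x) (u', x) s((v, h t), (v, h (t + 1))) = 0 := by
      intro u u' x
      refine ind_eq_zero.2 fun h1 => ?_
      rw [Sym2.eq_iff] at h1
      rcases h1 with ⟨h2, h3⟩ | ⟨h2, h3⟩
      · exact htt ((congrArg Prod.snd h2).trans (congrArg Prod.snd h3).symm)
      · exact htt ((congrArg Prod.snd h2).trans (congrArg Prod.snd h3).symm)
    have hver : ∀ (u : V), v ≠ u → ∀ x y : W,
        ind (u, x) (u, y) s((v, h t), (v, h (t + 1))) = 0 := by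
      intro u hu x y
      refine ind_eq_zero.2 fun h1 => ?_
      rw [Sym2.eq_iff] at h1
      rcases h1 with ⟨h2, h3⟩ | ⟨h2, h3⟩
      · exact hu (congrArg Prod.fst h2)
      · exact hu (congrArg Prod.fst h2)
    rw [psq, sq, hhor, hhor]
    rcases hv with hv | hv
    · rw [hver (σ (e (rep v) t)) (fun h1 => hne (by rw [← h1, ← hv]))]
      rw [← hv, ind_eq_one.2 rfl]
      simp
    · rw [hver (e (rep v) t) (fun h1 => hne (by rw [← hv]; exact h1))]
      rw [← hv, ind_eq_one.2 rfl]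
      simp
  · intro i hi hit
    by_contra h0
    exact hit (hterm (rep v) i hrv (mem_range.1 hi) h0).2
  · intro h1
    exact absurd (mem_range.2 ht) h1
  · intro c hc hcv
    refine sum_eq_zero fun i hi => ?_
    by_contra h0
    have hc' : rep c = c := by simpa [reps] using hc
    exact hcv (hterm c i hc' (mem_range.1 hi) h0).1
  · intro h1
    exact absurd (by simp [reps, hrv]) h1

end H93HD
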