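import Pool.Agent.H93HD.ABlock

/-!
# Class `A`: merging the orbits by the crosses of type `A`

Apply `forest` to `Afun` with `comp (v, w) = rep v`, `J` = the representatives `≠ root`,
`a = (u c, h t)`, `b = (u c, h (t+1))`, `c = (u' c, h t)`, `d = (u' c, h (t+1))`, `t = t c`.
-/

namespace H93HD

open Finset
open scoped Classical

variable {V W : Type*} [Fintype V] [Fintype W]

omit [Fintype V] [Fintype W] in
/-- two pairs of consecutive rows coincide only if the times coincide -/
private theorem time_of_edge_eq {n : ℕ} {h : ℕ → W} (henum : Enum n h) {s t : ℕ} (hs : s < n - 1)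
    (ht : t < n - 1) {u v : V}
    (heq : s((u, h s), (u, h (s + 1))) = s((v, h t), (v, h (t + 1)))) : u = v ∧ s = t := by
  have hinj : ∀ i j, i < n → j < n → h i = h j → i = j := by
    intro i j hi hj hij
    have := (henum.1 i j).1 hij
    rwa [Nat.ModEq, Nat.mod_eq_of_lt hi, Nat.mod_eq_of_lt hj] at this
  rw [Sym2.eq_iff] at heq
  rcases heq with ⟨h1, h2⟩ | ⟨h1, h2⟩
  · rw [Prod.mk.injEq] at h1
    exact ⟨h1.1, hinj s t (by omega) (by omega) h1.2⟩
  · rw [Prod.mk.injEq] at h1 h2
    have h3 := hinj s (t + 1) (by omega) (by omega) h1.2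
    have h4 := hinj (s + 1) t (by omega) (by omega) h2.2
    omega

theorem aclass (σ : Equiv.Perm V) (hσ : ∀ v, σ (σ v) ≠ v) (rep : V → V) (hrep : IsRep σ rep)
    (n : ℕ) (hn : 3 ≤ n) (h : ℕ → W) (henum : Enum n h)
    (e : V → ℕ → V) (b : V → ℕ → ℕ)
    (he : ∀ c, rep c = c → ∀ i < n - 1, rep (e c i) = c)
    (hb : ∀ c, rep c = c → ∀ i < n - 1, i < b c i ∧ b c i < n)
    (hD1 : ∀ c, rep c = c → ∀ i < n - 1, b c i < n - 1 → e c i ≠ e c (b c i))
    (hD2 : ∀ c, rep c = c → ∀ i < n - 1, ∀ j < n - 1, i ≠ j → b c i = b c j → e c i ≠ e c j)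
    (root : V) (rank : V → ℕ) (u u' : V → V) (t : V → ℕ) (hroot : rep root = root)
    (htree : ∀ c, rep c = c → c ≠ root → rep (u c) = c ∧ rank (rep (u' c)) < rank c)
    (ht : ∀ c, rep c = c → c ≠ root → t c < n - 1)
    (htinj : ∀ c c', rep c = c → c ≠ root → rep c' = c' → c' ≠ root → t c = t c' → c = c')
    (hu : ∀ c, rep c = c → c ≠ root →
      b c (t c) = t c + 1 ∧ (u c = e c (t c) ∨ u c = σ (e c (t c))))
    (hu' : ∀ c, rep c = c → c ≠ root → b (rep (u' c)) (t c) = t c + 1 ∧
      (u' c = e (rep (u' c)) (t c) ∨ u' c = σ (e (rep (u' c)) (t c)))) :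
    TwoReg (fun ed => Afun (W := W) σ rep n h e b ed +
        ∑ c ∈ (reps rep).erase root, psq (u c) (u' c) (h (t c)) (h (t c + 1)) ed) ∧
      ∀ x y : V × W, Conn (fun ed => Afun (W := W) σ rep n h e b ed +
        ∑ c ∈ (reps rep).erase root, psq (u c) (u' c) (h (t c)) (h (t c + 1)) ed) x y := by
  have hmem : ∀ c, c ∈ (reps rep).erase root ↔ (rep c = c ∧ c ≠ root) := by
    intro c
    rw [mem_erase, reps, mem_filter]
    exact ⟨fun h => ⟨h.2.2, h.1⟩, fun h => ⟨h.2, mem_univ _, h.1⟩⟩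
  have hA := ablock σ hσ rep hrep n hn h henum e b he hb hD1 hD2
  have hF := forest (Afun (W := W) σ rep n h e b) hA.1 (fun x : V × W => rep x.1)
    (fun x y hxy => ablock_closed σ rep hrep n h e b x y hxy)
    (fun x y hxy => hA.2 x y hxy) rank (fun c => rep (u' c)) ((reps rep).erase root)
    (fun c hc => (htree c ((hmem c).1 hc).1 ((hmem c).1 hc).2).2)
    (fun c => (u c, h (t c))) (fun c => (u c, h (t c + 1))) (fun c => (u' c, h (t c)))
    (fun c => (u' c, h (t c + 1)))
    (fun c hc => (htree c ((hmem c).1 hc).1 ((hmem c).1 hc).2).1)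
    (fun c _ => rfl)
    (fun c hc => by
      obtain ⟨h1, h2⟩ := (hmem c).1 hc
      obtain ⟨h3, h4⟩ := hu c h1 h2
      have h5 := (htree c h1 h2).1
      exact ablock_vertical σ hσ rep hrep n hn h henum e b he hb (u c) (t c) (ht c h1 h2)
        (by rw [h5]; exact h3) (by rw [h5]; exact h4))
    (fun c hc => by
      obtain ⟨h1, h2⟩ := (hmem c).1 hc
      obtain ⟨h3, h4⟩ := hu' c h1 h2
      exact ablock_vertical σ hσ rep hrep n hn h henum e b he hb (u' c) (t c) (ht c h1 h2) h3 h4)
    (fun i hi j hj heq => by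
      obtain ⟨i1, i2⟩ := (hmem i).1 hi
      obtain ⟨j1, j2⟩ := (hmem j).1 hj
      obtain ⟨h1, h2⟩ := time_of_edge_eq henum (ht i i1 i2) (ht j j1 j2) heq
      have h3 := htinj i j i1 i2 j1 j2 h2
      subst h3
      have h4 := htree i i1 i2
      rw [h1, h4.1] at h4
      exact absurd h4.2 (lt_irrefl _))
    (fun i hi j hj hne heq => by
      obtain ⟨i1, i2⟩ := (hmem i).1 hi
      obtain ⟨j1, j2⟩ := (hmem j).1 hj
      obtain ⟨_, h2⟩ := time_of_edge_eq henum (ht i i1 i2) (ht j j1 j2) heq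
      exact hne (htinj i j i1 i2 j1 j2 h2))
  have hfun : (fun ed => Afun (W := W) σ rep n h e b ed +
        ∑ c ∈ (reps rep).erase root, psq (u c) (u' c) (h (t c)) (h (t c + 1)) ed) =
      (fun ed => Afun (W := W) σ rep n h e b ed +
        ∑ c ∈ (reps rep).erase root, sq (u c, h (t c)) (u c, h (t c + 1)) (u' c, h (t c))
          (u' c, h (t c + 1)) ed) := by
    funext ed
    congr 1
    refine sum_congr rfl fun c _ => ?_
    unfold psq
    exact sq_comm _ _ _ _ _
  rw [hfun]
  obtain ⟨hF1, hF2, hF3⟩ := hF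
  refine ⟨hF1, ?_⟩
  have key : ∀ m, ∀ c, rep c = c → rank c = m → ∀ x : V × W, rep x.1 = c →
      Conn (fun ed => Afun (W := W) σ rep n h e b ed +
        ∑ c ∈ (reps rep).erase root, sq (u c, h (t c)) (u c, h (t c + 1)) (u' c, h (t c))
          (u' c, h (t c + 1)) ed) x (root, h 0) := by
    intro m
    induction m using Nat.strong_induction_on with
    | _ m ih =>
      intro c hc hm x hx
      by_cases hcr : c = root
      · apply hF2
        show rep x.1 = rep root
        rw [hx, hcr, hroot]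
      · have h1 := hF3 c ((hmem c).2 ⟨hc, hcr⟩)
        have h2 := htree c hc hcr
        have h3 := hF2 x (u c, h (t c)) (by show rep x.1 = rep (u c); rw [hx, h2.1])
        have h4 := ih (rank (rep (u' c))) (by rw [← hm]; exact h2.2) (rep (u' c)) (hrep.2 _) rfl
          (u' c, h (t c)) rfl
        exact (h3.trans h1).trans h4
  intro x y
  exact (key _ (rep x.1) (hrep.2 _) rfl x rfl).trans (key _ (rep y.1) (hrep.2 _) rfl y rfl).symm

end H93HD
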