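import Pool.Agent.H93HD.Defs

/-!
# Class `B` after the letters

The letter of the orbit of `c` at the time `i < n - 1`, `i ∉ Γ c`, is the arc with tail
`(σ ^ lam c (i+1)) c`.  Consecutive letters differ by `±1`.
-/

namespace H93HD

open Finset
open scoped Classical

namespace BB61

/-- delta function -/
noncomputable def bdel {α : Type*} (a d : α) : ZMod 2 := if d = a then 1 else 0

theorem bdel_self {α : Type*} (a : α) : bdel a a = 1 := by simp [bdel]

theorem bdel_ne {α : Type*} {a d : α} (h : d ≠ a) : bdel a d = 0 := by simp [bdel, h]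

theorem ind_star {α : Type*} {a b : α} (hab : a ≠ b) (x d : α) :
    ind a b s(x, d) = (if x = a then bdel b d else 0) + (if x = b then bdel a d else 0) := by
  unfold ind bdel
  by_cases h1 : x = a
  · subst h1
    have h2 : x ≠ b := hab
    by_cases h3 : d = b
    · simp [h3, h2]
    · have h4 : ¬ s(x, d) = s(x, b) := by
        rw [Sym2.eq_iff]
        rintro (⟨_, h⟩ | ⟨h, _⟩)
        · exact h3 h
        · exact h2 h
      simp [h4, h3, h2]
  · by_cases h2 : x = b
    · subst h2
      by_cases h3 : d = a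
      · simp [h3, h1]
      · have h4 : ¬ s(x, d) = s(a, x) := by
          rw [Sym2.eq_iff]
          rintro (⟨h, _⟩ | ⟨_, h⟩)
          · exact h1 h
          · exact h3 h
        simp [h4, h3, h1]
    · have h4 : ¬ s(x, d) = s(a, b) := by
        rw [Sym2.eq_iff]
        rintro (⟨h, _⟩ | ⟨h, _⟩)
        · exact h1 h
        · exact h2 h
      simp [h4, h1, h2]

theorem psq_star {V W : Type*} {u u' : V} {a b : W} (hu : u ≠ u') (hab : a ≠ b)
    (v : V) (w : W) (d : V × W) :
    psq u u' a b s((v, w), d) =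
      (if w = a then (if v = u then bdel (u', a) d + bdel (u, b) d else 0) +
        (if v = u' then bdel (u, a) d + bdel (u', b) d else 0) else 0) +
      (if w = b then (if v = u then bdel (u', b) d + bdel (u, a) d else 0) +
        (if v = u' then bdel (u, b) d + bdel (u', a) d else 0) else 0) := by
  have h1 : ((u, a) : V × W) ≠ (u', a) := fun h => hu (Prod.mk.inj h).1
  have h2 : ((u, b) : V × W) ≠ (u', b) := fun h => hu (Prod.mk.inj h).1
  have h3 : ((u, a) : V × W) ≠ (u, b) := fun h => hab (Prod.mk.inj h).2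
  have h4 : ((u', a) : V × W) ≠ (u', b) := fun h => hab (Prod.mk.inj h).2
  unfold psq sq
  rw [ind_star h1, ind_star h2, ind_star h3, ind_star h4]
  simp only [Prod.mk.injEq]
  by_cases hw : w = a
  · subst hw
    by_cases hv : v = u
    · subst hv
      simp [hab, hu]
    · by_cases hv' : v = u'
      · subst hv'
        simp [hab, hv]
      · simp [hv, hv']
  · by_cases hw' : w = b
    · subst hw'
      by_cases hv : v = u
      · subst hv
        simp [hw, hu]
      · by_cases hv' : v = u'
        · subst hv'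
          simp [hw, hv]
        · simp [hv, hv']
    · simp [hw, hw']

theorem enum_inj {W : Type*} {n : ℕ} {h : ℕ → W} (henum : Enum n h) {i j : ℕ} (hi : i < n)
    (hj : j < n) : h i = h j ↔ i = j := by
  rw [henum.1]
  constructor
  · intro hh
    have := hh
    unfold Nat.ModEq at this
    rwa [Nat.mod_eq_of_lt hi, Nat.mod_eq_of_lt hj] at this
  · rintro rfl
    rfl

theorem enum_succ_ne {W : Type*} {n : ℕ} (hn : 3 ≤ n) {h : ℕ → W} (henum : Enum n h) (i : ℕ) :
    h i ≠ h (i + 1) := by
  intro hh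
  rw [henum.1] at hh
  have h1 : (n : ℕ) ∣ (i + 1) - i := (Nat.modEq_iff_dvd' (by omega)).1 hh
  have h2 : (i + 1) - i = 1 := by omega
  rw [h2] at h1
  have := Nat.le_of_dvd (by norm_num) h1
  omega

variable {V W : Type*} [Fintype V] [Fintype W]

theorem cols_star (n : ℕ) (hn : 3 ≤ n) (h : ℕ → W) (henum : Enum n h) (v : V) (j : ℕ)
    (hj : j < n) (d : V × W) :
    cols (V := V) n h s((v, h j), d) = bdel (v, h (j + 1)) d + bdel (v, h (j + n - 1)) d := by
  unfold cols
  have hterm : ∀ v' : V, ∀ i : ℕ, ind (v', h i) (v', h (i + 1)) s((v, h j), d) =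
      (if (v, h j) = (v', h i) then bdel (v', h (i + 1)) d else 0) +
      (if (v, h j) = (v', h (i + 1)) then bdel (v', h i) d else 0) := by
    intro v' i
    have hh := ind_star (a := (v', h i)) (b := (v', h (i + 1)))
      (fun hh => enum_succ_ne hn henum i (Prod.mk.inj hh).2) (v, h j) d
    convert hh using 2 <;> congr
  rw [Finset.sum_eq_single v]
  · simp only [hterm]
    rw [Finset.sum_add_distrib]
    congr 1
    · rw [Finset.sum_eq_single j]
      · simp
      · intro i hi hij
        rw [if_neg]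
        intro hh
        exact hij ((enum_inj henum (Finset.mem_range.1 hi) hj).1 (Prod.mk.inj hh).2.symm)
      · intro hh
        exact absurd (Finset.mem_range.2 hj) hh
    · have hlt : (j + n - 1) % n < n := Nat.mod_lt _ (by omega)
      have heq : h ((j + n - 1) % n) = h (j + n - 1) := by
        rw [henum.1]
        exact Nat.mod_modEq _ _
      have heq2 : h j = h ((j + n - 1) % n + 1) := by
        rw [henum.1]
        have h1 : (j + n - 1) % n + 1 ≡ (j + n - 1) + 1 [MOD n] :=
          (Nat.mod_modEq _ _).add_right 1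
        have h2 : (j + n - 1) + 1 = j + n := by omega
        rw [h2] at h1
        exact (h1.trans (by simp [Nat.ModEq])).symm
      rw [Finset.sum_eq_single ((j + n - 1) % n)]
      · rw [if_pos (by rw [heq2]), heq]
      · intro i hi hij
        rw [if_neg]
        intro hh
        apply hij
        have h1 : h (i + 1) = h ((j + n - 1) % n + 1) := by
          rw [← heq2]; exact (Prod.mk.inj hh).2.symm
        rw [henum.1] at h1
        have h2 : i ≡ (j + n - 1) % n [MOD n] := Nat.ModEq.add_right_cancel' 1 h1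
        unfold Nat.ModEq at h2
        rwa [Nat.mod_eq_of_lt (Finset.mem_range.1 hi), Nat.mod_eq_of_lt hlt] at h2
      · intro hh
        exact absurd (Finset.mem_range.2 hlt) hh
  · intro v' _ hv'
    apply Finset.sum_eq_zero
    intro i _
    rw [hterm, if_neg, if_neg]
    · simp
    · intro hh; exact hv' (Prod.mk.inj hh).1.symm
    · intro hh; exact hv' (Prod.mk.inj hh).1.symm
  · intro hh
    exact absurd (Finset.mem_univ v) hh

/-- the letter of time `i` touches `v` -/
def BT (σ : Equiv.Perm V) (rep : V → V) (n : ℕ) (Γ : V → Finset ℕ) (e : V → ℕ → V)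
    (v : V) (i : ℕ) : Prop :=
  i < n - 1 ∧ i ∉ Γ (rep v) ∧ (v = e (rep v) i ∨ v = σ (e (rep v) i))

/-- the other end of the letter -/
noncomputable def bp (σ : Equiv.Perm V) (rep : V → V) (e : V → ℕ → V) (v : V) (i : ℕ) : V :=
  if v = e (rep v) i then σ (e (rep v) i) else e (rep v) i

theorem rep_sigma (σ : Equiv.Perm V) (rep : V → V) (hrep : IsRep σ rep) (u : V) :
    rep (σ u) = rep u := by
  rw [hrep.1]
  exact ⟨-1, by simp⟩

theorem letters_star (σ : Equiv.Perm V) (hσ : ∀ v, σ (σ v) ≠ v) (rep : V → V)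
    (hrep : IsRep σ rep) (n : ℕ) (hn : 3 ≤ n) (h : ℕ → W) (henum : Enum n h)
    (Γ : V → Finset ℕ) (e : V → ℕ → V)
    (he : ∀ c, rep c = c → ∀ i < n - 1, rep (e c i) = c)
    (v : V) (j : ℕ) (hj : j < n) (d : V × W) :
    (∑ c ∈ reps rep, ∑ i ∈ (range (n - 1)).filter (fun i => i ∉ Γ c),
      psq (e c i) (σ (e c i)) (h i) (h (i + 1)) s((v, h j), d)) =
    (if BT σ rep n Γ e v j then bdel (bp σ rep e v j, h j) d + bdel (v, h (j + 1)) d else 0) +
    (if 1 ≤ j ∧ BT σ rep n Γ e v (j - 1) then
      bdel (bp σ rep e v (j - 1), h j) d + bdel (v, h (j - 1)) d else 0) := by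
  have hσ1 : ∀ u, u ≠ σ u := by
    intro u hh
    apply hσ u
    rw [← hh, ← hh]
  have hv0 : rep v ∈ reps rep := by
    unfold reps
    rw [Finset.mem_filter]
    exact ⟨Finset.mem_univ _, hrep.2 v⟩
  rw [Finset.sum_eq_single (rep v)]
  · have hterm : ∀ i ∈ (range (n - 1)).filter (fun i => i ∉ Γ (rep v)),
        psq (e (rep v) i) (σ (e (rep v) i)) (h i) (h (i + 1)) s((v, h j), d) =
        (if i = j then (if v = e (rep v) i ∨ v = σ (e (rep v) i) then
          bdel (bp σ rep e v i, h i) d + bdel (v, h (i + 1)) d else 0) else 0) +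
        (if i + 1 = j then (if v = e (rep v) i ∨ v = σ (e (rep v) i) then
          bdel (bp σ rep e v i, h (i + 1)) d + bdel (v, h i) d else 0) else 0) := by
      intro i hi
      rw [Finset.mem_filter, Finset.mem_range] at hi
      rw [psq_star (hσ1 _) (enum_succ_ne hn henum i)]
      have e1 : h j = h i ↔ i = j := by
        rw [enum_inj henum hj (by omega)]; exact eq_comm
      have e2 : h j = h (i + 1) ↔ i + 1 = j := by
        rw [enum_inj henum hj (by omega)]; exact eq_comm
      simp only [e1, e2]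
      have key : ∀ a b : W, ((if v = e (rep v) i then
            bdel (σ (e (rep v) i), a) d + bdel (e (rep v) i, b) d else 0) +
          (if v = σ (e (rep v) i) then
            bdel (e (rep v) i, a) d + bdel (σ (e (rep v) i), b) d else 0)) =
          (if v = e (rep v) i ∨ v = σ (e (rep v) i) then
            bdel (bp σ rep e v i, a) d + bdel (v, b) d else 0) := by
        intro a b
        unfold bp
        by_cases h1 : v = e (rep v) i
        · have h2 : ¬ v = σ (e (rep v) i) := by
            intro h2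
            exact hσ1 _ (h1.symm.trans h2)
          rw [if_pos h1, if_neg h2, if_pos (Or.inl h1), if_pos h1, ← h1]
          simp
        · by_cases h2 : v = σ (e (rep v) i)
          · rw [if_neg h1, if_pos h2, if_pos (Or.inr h2), if_neg h1, ← h2]
            simp
          · rw [if_neg h1, if_neg h2, if_neg (by tauto)]
            simp
      rw [key, key]
    rw [Finset.sum_congr rfl hterm, Finset.sum_add_distrib]
    congr 1
    · rw [Finset.sum_ite_eq']
      unfold BT
      by_cases hm : j ∈ (range (n - 1)).filter (fun i => i ∉ Γ (rep v))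
      · rw [if_pos hm]
        rw [Finset.mem_filter, Finset.mem_range] at hm
        by_cases h1 : v = e (rep v) j ∨ v = σ (e (rep v) j)
        · rw [if_pos h1, if_pos ⟨hm.1, hm.2, h1⟩]
        · rw [if_neg h1, if_neg (by tauto)]
      · rw [if_neg hm, if_neg]
        rw [Finset.mem_filter, Finset.mem_range] at hm
        tauto
    · rcases Nat.eq_zero_or_pos j with hj0 | hj0
      · subst hj0
        rw [if_neg (by omega)]
        apply Finset.sum_eq_zero
        intro i _
        rw [if_neg (by omega)]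
      · obtain ⟨k, rfl⟩ : ∃ k, j = k + 1 := ⟨j - 1, by omega⟩
        have hk : k + 1 - 1 = k := by omega
        rw [hk]
        have : ∀ i ∈ (range (n - 1)).filter (fun i => i ∉ Γ (rep v)),
            (if i + 1 = k + 1 then (if v = e (rep v) i ∨ v = σ (e (rep v) i) then
              bdel (bp σ rep e v i, h (i + 1)) d + bdel (v, h i) d else 0) else 0) =
            (if i = k then (if v = e (rep v) i ∨ v = σ (e (rep v) i) then
              bdel (bp σ rep e v i, h (i + 1)) d + bdel (v, h i) d else 0) else 0) := by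
          intro i _
          by_cases hik : i = k
          · rw [if_pos (by omega), if_pos hik]
          · rw [if_neg (by omega), if_neg hik]
        rw [Finset.sum_congr rfl this, Finset.sum_ite_eq']
        unfold BT
        by_cases hm : k ∈ (range (n - 1)).filter (fun i => i ∉ Γ (rep v))
        · rw [if_pos hm]
          rw [Finset.mem_filter, Finset.mem_range] at hm
          by_cases h1 : v = e (rep v) k ∨ v = σ (e (rep v) k)
          · rw [if_pos h1, if_pos ⟨by omega, hm.1, hm.2, h1⟩]
          · rw [if_neg h1, if_neg (by tauto)]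
        · rw [if_neg hm, if_neg]
          rw [Finset.mem_filter, Finset.mem_range] at hm
          tauto
  · intro c hc hcv
    apply Finset.sum_eq_zero
    intro i hi
    rw [Finset.mem_filter, Finset.mem_range] at hi
    have hcc : rep c = c := by
      unfold reps at hc
      exact (Finset.mem_filter.1 hc).2
    have h1 : ¬ v = e c i := by
      intro hh
      apply hcv
      rw [hh, he c hcc i hi.1]
    have h2 : ¬ v = σ (e c i) := by
      intro hh
      apply hcv
      rw [hh, rep_sigma σ rep hrep, he c hcc i hi.1]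
    rw [psq_star (hσ1 _) (enum_succ_ne hn henum i)]
    simp [h1, h2]
  · intro hh
    exact absurd hv0 hh

/-- the two neighbours in the class `B` -/
theorem bfun_star (σ : Equiv.Perm V) (hσ : ∀ v, σ (σ v) ≠ v) (rep : V → V)
    (hrep : IsRep σ rep) (n : ℕ) (hn : 3 ≤ n) (h : ℕ → W) (henum : Enum n h)
    (Γ : V → Finset ℕ) (e : V → ℕ → V)
    (he : ∀ c, rep c = c → ∀ i < n - 1, rep (e c i) = c)
    (v : V) (j : ℕ) (hj : j < n) (d : V × W) :
    Bfun (W := W) σ rep n h Γ e s((v, h j), d) =
    bdel (if BT σ rep n Γ e v j then (bp σ rep e v j, h j) else (v, h (j + 1))) d +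
    bdel (if 1 ≤ j ∧ BT σ rep n Γ e v (j - 1) then (bp σ rep e v (j - 1), h j) else
      (v, h (j + n - 1))) d := by
  unfold Bfun
  rw [cols_star n hn h henum v j hj, letters_star σ hσ rep hrep n hn h henum Γ e he v j hj]
  have two : ∀ a : ZMod 2, a + a = 0 := by decide
  have e1 : (if BT σ rep n Γ e v j then
        bdel (bp σ rep e v j, h j) d + bdel (v, h (j + 1)) d else 0) =
      bdel (if BT σ rep n Γ e v j then (bp σ rep e v j, h j) else (v, h (j + 1))) d +
        bdel (v, h (j + 1)) d := by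
    split_ifs
    · rfl
    · rw [two]
  have e2 : (if 1 ≤ j ∧ BT σ rep n Γ e v (j - 1) then
      bdel (bp σ rep e v (j - 1), h j) d + bdel (v, h (j - 1)) d else 0) =
      bdel (if 1 ≤ j ∧ BT σ rep n Γ e v (j - 1) then (bp σ rep e v (j - 1), h j) else
      (v, h (j + n - 1))) d + bdel (v, h (j + n - 1)) d := by
    split_ifs with hc
    · have : h (j + n - 1) = h (j - 1) := by
        rw [henum.1]
        have : j + n - 1 = (j - 1) + n := by omega
        rw [this]
        simp [Nat.ModEq]
      rw [this]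
    · rw [two]
  rw [e1, e2]
  generalize bdel (v, h (j + 1)) d = a
  generalize bdel (v, h (j + n - 1)) d = b
  generalize bdel (if BT σ rep n Γ e v j then (bp σ rep e v j, h j) else (v, h (j + 1))) d = c'
  generalize bdel (if 1 ≤ j ∧ BT σ rep n Γ e v (j - 1) then (bp σ rep e v (j - 1), h j) else
      (v, h (j + n - 1))) d = d'
  have : a + b + (c' + a + (d' + b)) = (a + a) + (b + b) + (c' + d') := by ring
  rw [this, two, two, zero_add, zero_add]

theorem bp_ne (σ : Equiv.Perm V) (hσ : ∀ v, σ (σ v) ≠ v) (rep : V → V) (n : ℕ)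
    (Γ : V → Finset ℕ) (e : V → ℕ → V) (v : V) (i : ℕ) (_hT : BT σ rep n Γ e v i) :
    bp σ rep e v i ≠ v := by
  have hσ1 : ∀ u, u ≠ σ u := by
    intro u hh
    apply hσ u
    rw [← hh, ← hh]
  unfold bp
  split_ifs with h1
  · intro h2
    exact hσ1 _ (h1.symm.trans h2.symm)
  · intro h2
    exact h1 h2.symm

/-- neighbours by the letter before and by the letter after are different -/
theorem bp_bp_ne (σ : Equiv.Perm V) (hσ : ∀ v, σ (σ v) ≠ v) (rep : V → V)
    (n : ℕ) (Γ : V → Finset ℕ) (e : V → ℕ → V) (v : V) (i i' : ℕ)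
    (hT : BT σ rep n Γ e v i) (hT' : BT σ rep n Γ e v i')
    (hne : e (rep v) i ≠ e (rep v) i') :
    bp σ rep e v i ≠ bp σ rep e v i' := by
  unfold bp
  obtain ⟨_, _, h1⟩ := hT
  obtain ⟨_, _, h2⟩ := hT'
  generalize rep v = c at *
  generalize e c i = a at *
  generalize e c i' = b at *
  split_ifs with h3 h4 h4
  · exact absurd (h3.symm.trans h4) hne
  · have h5 : v = σ b := by tauto
    intro h6
    apply hσ b
    rw [← h5, h3, h6]
  · have h5 : v = σ a := by tauto
    intro h6
    apply hσ a
    rw [← h5, h4, ← h6]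
  · have h5 : v = σ a := by tauto
    have h6 : v = σ b := by tauto
    exact absurd (σ.injective (h5.symm.trans h6)) hne

theorem updown_ne (σ : Equiv.Perm V) (hσ : ∀ v, σ (σ v) ≠ v) (rep : V → V)
    (hrep : IsRep σ rep) (n : ℕ) (hn : 3 ≤ n) (h : ℕ → W) (henum : Enum n h)
    (Γ : V → Finset ℕ) (e : V → ℕ → V)
    (v : V) (j : ℕ) (hj : j < n)
    (hne : 1 ≤ j → BT σ rep n Γ e v j → BT σ rep n Γ e v (j - 1) →
      e (rep v) (j - 1) ≠ e (rep v) j) :
    (if BT σ rep n Γ e v j then (bp σ rep e v j, h j) else (v, h (j + 1))) ≠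
    (if 1 ≤ j ∧ BT σ rep n Γ e v (j - 1) then (bp σ rep e v (j - 1), h j) else
      (v, h (j + n - 1))) := by
  split_ifs with h1 h2 h2
  · intro hh
    exact bp_bp_ne σ hσ rep n Γ e v j (j - 1) h1 h2.2 (hne h2.1 h1 h2.2).symm (Prod.mk.inj hh).1
  · intro hh
    exact bp_ne σ hσ rep n Γ e v j h1 (Prod.mk.inj hh).1
  · intro hh
    exact bp_ne σ hσ rep n Γ e v (j - 1) h2.2 (Prod.mk.inj hh).1.symm
  · intro hh
    have h3 := (Prod.mk.inj hh).2
    rw [henum.1] at h3
    have h4 : (n : ℕ) ∣ (j + n - 1) - (j + 1) := (Nat.modEq_iff_dvd' (by omega)).1 h3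
    have h5 : (j + n - 1) - (j + 1) = n - 2 := by omega
    rw [h5] at h4
    have := Nat.le_of_dvd (by omega) h4
    omega

end BB61

open BB61

variable {V W : Type*} [Fintype V] [Fintype W]

/-- 2-regularity -/
theorem bblock_twoReg (σ : Equiv.Perm V) (hσ : ∀ v, σ (σ v) ≠ v) (rep : V → V)
    (hrep : IsRep σ rep) (n : ℕ) (hn : 3 ≤ n) (h : ℕ → W) (henum : Enum n h)
    (Γ : V → Finset ℕ) (e : V → ℕ → V)
    (he : ∀ c, rep c = c → ∀ i < n - 1, rep (e c i) = c)
    (hne : ∀ c, rep c = c → ∀ i, i + 1 < n - 1 → i ∉ Γ c → i + 1 ∉ Γ c → e c i ≠ e c (i + 1)) :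
    TwoReg (Bfun (W := W) σ rep n h Γ e) := by
  rintro ⟨v, w⟩
  obtain ⟨j, hj, rfl⟩ := henum.2 w
  have hud := updown_ne σ hσ rep hrep n hn h henum Γ e v j hj (by
    intro h1 h2 h3
    obtain ⟨k, rfl⟩ : ∃ k, j = k + 1 := ⟨j - 1, by omega⟩
    have hk : k + 1 - 1 = k := by omega
    rw [hk] at h3 ⊢
    exact hne (rep v) (hrep.2 v) k h2.1 h3.2.1 h2.2.1)
  refine ⟨_, _, hud, ?_, ?_, ?_⟩
  · split_ifs with h1
    · intro hh
      exact bp_ne σ hσ rep n Γ e v j h1 (Prod.mk.inj hh).1
    · intro hh
      exact enum_succ_ne hn henum j (Prod.mk.inj hh).2.symm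
  · split_ifs with h1
    · intro hh
      exact bp_ne σ hσ rep n Γ e v (j - 1) h1.2 (Prod.mk.inj hh).1
    · intro hh
      have h2 : h (j + n - 1) ≠ h (j + n - 1 + 1) := enum_succ_ne hn henum _
      apply h2
      rw [(Prod.mk.inj hh).2, henum.1]
      have : j + n - 1 + 1 = j + n := by omega
      rw [this]
      simp [Nat.ModEq]
  · intro d
    rw [bfun_star σ hσ rep hrep n hn h henum Γ e he v j hj d]
    generalize (if BT σ rep n Γ e v j then (bp σ rep e v j, h j) else (v, h (j + 1))) = A at *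
    generalize (if 1 ≤ j ∧ BT σ rep n Γ e v (j - 1) then (bp σ rep e v (j - 1), h j) else
      (v, h (j + n - 1))) = B at *
    by_cases h1 : d = A
    · subst h1
      rw [bdel_self, bdel_ne hud]
      simp
    · by_cases h2 : d = B
      · subst h2
        rw [bdel_self, bdel_ne h1]
        simp
      · rw [bdel_ne h1, bdel_ne h2]
        simp [h1, h2]

/-- the edges of class `B` stay in the orbits -/
theorem bblock_closed (σ : Equiv.Perm V) (rep : V → V) (hrep : IsRep σ rep)
    (n : ℕ) (h : ℕ → W) (Γ : V → Finset ℕ) (e : V → ℕ → V)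
    (x y : V × W) (hxy : Bfun σ rep n h Γ e s(x, y) = 1) : rep x.1 = rep y.1 := by
  by_contra hcon
  have hind : ∀ (a b : V × W), rep a.1 = rep b.1 → ind a b s(x, y) = 0 := by
    intro a b hab
    rw [ind_eq_zero]
    intro hh
    rw [Sym2.eq_iff] at hh
    rcases hh with ⟨h1, h2⟩ | ⟨h1, h2⟩
    · apply hcon
      rw [h1, h2, hab]
    · apply hcon
      rw [h1, h2, hab]
  have : Bfun σ rep n h Γ e s(x, y) = 0 := by
    unfold Bfun cols
    rw [Finset.sum_eq_zero, Finset.sum_eq_zero, add_zero]
    · intro c _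
      apply Finset.sum_eq_zero
      intro i _
      unfold psq sq
      rw [hind (e c i, h i) (σ (e c i), h i) (rep_sigma σ rep hrep _).symm,
        hind (e c i, h (i + 1)) (σ (e c i), h (i + 1)) (rep_sigma σ rep hrep _).symm,
        hind (e c i, h i) (e c i, h (i + 1)) rfl,
        hind (σ (e c i), h i) (σ (e c i), h (i + 1)) rfl]
      simp
    · intro c _
      apply Finset.sum_eq_zero
      intro i _
      exact hind _ _ rfl
  rw [this] at hxy
  exact zero_ne_one hxy

/-- vertical edges not touched by a letter stay in class `B` -/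
theorem bblock_vertical (σ : Equiv.Perm V) (hσ : ∀ v, σ (σ v) ≠ v) (rep : V → V)
    (hrep : IsRep σ rep) (n : ℕ) (hn : 3 ≤ n) (h : ℕ → W) (henum : Enum n h)
    (Γ : V → Finset ℕ) (e : V → ℕ → V)
    (he : ∀ c, rep c = c → ∀ i < n - 1, rep (e c i) = c)
    (v : V) (t : ℕ) (ht : t < n)
    (hv : t < n - 1 → t ∉ Γ (rep v) → (v ≠ e (rep v) t ∧ v ≠ σ (e (rep v) t))) :
    Bfun σ rep n h Γ e s((v, h t), (v, h (t + 1))) = 1 := by
  have hnT : ¬ BT σ rep n Γ e v t := by
    rintro ⟨h1, h2, h3⟩
    have := hv h1 h2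
    tauto
  have hud := updown_ne σ hσ rep hrep n hn h henum Γ e v t ht (fun _ h1 => absurd h1 hnT)
  rw [bfun_star σ hσ rep hrep n hn h henum Γ e he v t ht]
  rw [if_neg hnT] at hud ⊢
  rw [bdel_self, bdel_ne hud, add_zero]

/-- the two horizontal edges of a letter belong to class `B` -/
theorem bblock_horizontal (σ : Equiv.Perm V) (hσ : ∀ v, σ (σ v) ≠ v) (rep : V → V)
    (hrep : IsRep σ rep) (n : ℕ) (hn : 3 ≤ n) (h : ℕ → W) (henum : Enum n h)
    (Γ : V → Finset ℕ) (e : V → ℕ → V)
    (he : ∀ c, rep c = c → ∀ i < n - 1, rep (e c i) = c)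
    (hne : ∀ c, rep c = c → ∀ i, i + 1 < n - 1 → i ∉ Γ c → i + 1 ∉ Γ c → e c i ≠ e c (i + 1))
    (c : V) (hc : rep c = c) (t : ℕ) (ht : t < n - 1) (htΓ : t ∉ Γ c) :
    Bfun σ rep n h Γ e s((e c t, h t), (σ (e c t), h t)) = 1 ∧
    Bfun σ rep n h Γ e s((e c t, h (t + 1)), (σ (e c t), h (t + 1))) = 1 := by
  have hre : rep (e c t) = c := he c hc t ht
  have hT : BT σ rep n Γ e (e c t) t := by
    refine ⟨ht, ?_, ?_⟩
    · rw [hre]; exact htΓ
    · left; rw [hre]
  have hbp : bp σ rep e (e c t) t = σ (e c t) := by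
    unfold bp
    rw [hre, if_pos rfl]
  have hud : ∀ j, j < n → _ := fun j hj =>
    updown_ne σ hσ rep hrep n hn h henum Γ e (e c t) j hj (by
      intro h1 h2 h3
      obtain ⟨k, rfl⟩ : ∃ k, j = k + 1 := ⟨j - 1, by omega⟩
      have hk : k + 1 - 1 = k := by omega
      rw [hk] at h3 ⊢
      exact hne _ (hrep.2 _) k h2.1 h3.2.1 h2.2.1)
  constructor
  · have h1 := hud t (by omega)
    rw [bfun_star σ hσ rep hrep n hn h henum Γ e he _ t (by omega)]
    rw [if_pos hT, hbp] at h1 ⊢
    rw [bdel_self, bdel_ne h1, add_zero]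
  · have h1 := hud (t + 1) (by omega)
    rw [bfun_star σ hσ rep hrep n hn h henum Γ e he _ (t + 1) (by omega)]
    have hk : t + 1 - 1 = t := by omega
    rw [hk, if_pos (c := 1 ≤ t + 1 ∧ BT σ rep n Γ e (e c t) t) ⟨by omega, hT⟩, hbp] at h1 ⊢
    rw [bdel_self, bdel_ne h1.symm, zero_add]

end H93HD
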