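import Pool.Agent.H93HD.Defs

/-!
# Connectivity of class `B` after the letters (pure reachability, one orbit)

`g : ℤ → V` has period `p` (the orbit), `X` is any class on `V × W` containing the edges listed in
`hvert`, `hhor`.  `lam (i+1)` is the letter at time `i ∉ Γ`.

Proof: put `R z = (g (2 + z % (p-2)), h 0)`.  By induction on `i` (`0 ≤ i < n-1`):
(1) for `0 ≤ x ≤ p-3` the vertex `(g (lam (i+1) + 2 + x), h (i+1))` is connected with `R (x + lam (i+1))`;
(2) `(g (lam (i+1)), h (i+1))` and `(g (lam (i+1) + 1), h (i+1))` are connected.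
Then every vertex `(g z, h i)` is connected with row `0` (descending induction on `i`), and at the end
the closing verticals (time `n-1`) give: column `x` ~ column `x+2` (`0 ≤ x ≤ p-3`) if `p` is even, resp.
`x ~ x+2` for `1 ≤ x ≤ p-3` and `p-2 ~ 2` if `p` is odd, and `0 ~ 1` by the letter at time `0`.
-/

namespace H93HD

open Finset

variable {V W : Type*}

theorem bconn (X : Sym2 (V × W) → ZMod 2) (n p : ℕ) (hn : 3 ≤ n) (hp : 3 ≤ p)
    (g : ℤ → V) (hg : ∀ z, g (z + p) = g z)
    (h : ℕ → W) (hh : h n = h 0) (Γ : Finset ℕ) (hΓ : 0 ∉ Γ) (lam : ℕ → ℤ)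
    (h1 : lam 1 = 0)
    (hstep : ∀ i, 1 ≤ i → i < n - 1 → i ∉ Γ → (lam (i + 1) = lam i + 1 ∨ lam (i + 1) = lam i - 1))
    (hgap : ∀ i, 1 ≤ i → i < n - 1 → i ∈ Γ → lam (i + 1) = lam i)
    (hend : lam (n - 1) = (if Even p then (p : ℤ) - 2 else (p : ℤ) - 1))
    (hclose : ∀ z, X s((g z, h (n - 1)), (g z, h n)) = 1)
    (hvertΓ : ∀ i, i < n - 1 → i ∈ Γ → ∀ z, X s((g z, h i), (g z, h (i + 1))) = 1)
    (hvert : ∀ i, i < n - 1 → i ∉ Γ → ∀ x : ℤ, 0 ≤ x → x ≤ p - 3 →
      X s((g (lam (i + 1) + 2 + x), h i), (g (lam (i + 1) + 2 + x), h (i + 1))) = 1)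
    (hhor : ∀ i, i < n - 1 → i ∉ Γ →
      X s((g (lam (i + 1)), h i), (g (lam (i + 1) + 1), h i)) = 1 ∧
      X s((g (lam (i + 1)), h (i + 1)), (g (lam (i + 1) + 1), h (i + 1))) = 1) :
    ∀ z z' : ℤ, ∀ i < n, ∀ j < n, Conn X (g z, h i) (g z', h j) := by
  have hpz : (3 : ℤ) ≤ p := by exact_mod_cast hp
  have hgmod : ∀ z : ℤ, g (z % p) = g z := by
    have hnat : ∀ (k : ℕ) (z : ℤ), g (z + k * p) = g z := by
      intro k
      induction k with
      | zero => intro z; simp
      | succ k ih =>
        intro z
        have : z + ((k + 1 : ℕ) : ℤ) * p = (z + k * p) + p := by push_cast; ring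
        rw [this, hg, ih]
    have hint : ∀ (k : ℤ) (z : ℤ), g (z + k * p) = g z := by
      intro k z
      rcases Int.eq_nat_or_neg k with ⟨m, rfl | rfl⟩
      · exact hnat m z
      · have := hnat m (z + -(m : ℤ) * p)
        rw [← this]; congr 1; ring
    intro z
    conv_rhs => rw [← Int.emod_add_mul_ediv z p]
    rw [mul_comm]
    exact (hint _ _).symm
  have hgeq : ∀ a b : ℤ, a % p = b % p → g a = g b := by
    intro a b hab
    rw [← hgmod a, ← hgmod b, hab]
  set q : ℤ := (p : ℤ) - 2 with hq
  have hq1 : 1 ≤ q := by omega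
  set R : ℤ → V × W := fun z => (g (2 + z % q), h 0) with hR
  have hRadd : ∀ z, R (z + q) = R z := by
    intro z
    simp only [hR, Int.add_emod_right]
  have hRsmall : ∀ x : ℤ, 0 ≤ x → x ≤ p - 3 → R x = (g (2 + x), h 0) := by
    intro x hx hx'
    simp only [hR]
    rw [Int.emod_eq_of_lt hx (by omega)]
  -- the main invariant
  have key : ∀ i, i < n - 1 →
      (∀ x : ℤ, 0 ≤ x → x ≤ p - 3 →
        Conn X (g (lam (i + 1) + 2 + x), h (i + 1)) (R (x + lam (i + 1)))) ∧
      Conn X (g (lam (i + 1)), h (i + 1)) (g (lam (i + 1) + 1), h (i + 1)) := by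
    intro i
    induction i with
    | zero =>
      intro hi
      refine ⟨fun x hx hx' => ?_, Conn.single (hhor 0 hi hΓ).2⟩
      have := hvert 0 hi hΓ x hx hx'
      simp only [zero_add, h1, add_zero] at this ⊢
      rw [hRsmall x hx hx']
      exact (Conn.single this).symm
    | succ i ih =>
      intro hi
      obtain ⟨ih1, ih2⟩ := ih (by omega)
      by_cases hiΓ : i + 1 ∈ Γ
      · have hl := hgap (i + 1) (by omega) hi hiΓ
        rw [hl]
        refine ⟨fun x hx hx' => ?_, ?_⟩
        · exact (Conn.single (hvertΓ (i + 1) hi hiΓ _)).symm.trans (ih1 x hx hx')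
        · exact ((Conn.single (hvertΓ (i + 1) hi hiΓ _)).symm.trans ih2).trans
            (Conn.single (hvertΓ (i + 1) hi hiΓ _))
      · obtain ⟨hh1, hh2⟩ := hhor (i + 1) hi hiΓ
        refine ⟨fun x hx hx' => ?_, Conn.single hh2⟩
        have hv := (Conn.single (hvert (i + 1) hi hiΓ x hx hx')).symm
        refine hv.trans ?_
        rcases hstep (i + 1) (by omega) hi hiΓ with hl | hl
        · rw [hl] at hh1 ⊢
          by_cases hx3 : x = p - 3
          · -- wrap around
            have e1 : g (lam (i + 1) + 1 + 2 + x) = g (lam (i + 1)) := by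
              rw [hx3]
              have : lam (i + 1) + 1 + 2 + ((p : ℤ) - 3) = lam (i + 1) + p := by ring
              rw [this, hg]
            have e2 : R (x + (lam (i + 1) + 1)) = R (0 + lam (i + 1)) := by
              rw [hx3]
              have : (p : ℤ) - 3 + (lam (i + 1) + 1) = (0 + lam (i + 1)) + q := by rw [hq]; ring
              rw [this, hRadd]
            rw [e1, e2]
            have e3 := ih1 0 le_rfl (by omega)
            refine ih2.trans (Conn.trans (Conn.single hh1) ?_)
            have e4 : lam (i + 1) + 1 + 1 = lam (i + 1) + 2 + 0 := by ring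
            rw [e4]
            exact e3
          · have e3 := ih1 (x + 1) (by omega) (by omega)
            have e4 : lam (i + 1) + 1 + 2 + x = lam (i + 1) + 2 + (x + 1) := by ring
            have e5 : x + (lam (i + 1) + 1) = x + 1 + lam (i + 1) := by ring
            rw [e4, e5]
            exact e3
        · rw [hl] at hh1 ⊢
          by_cases hx3 : x = 0
          · have e3 := ih1 (p - 3) (by omega) le_rfl
            have e1 : g (lam (i + 1) + 2 + ((p : ℤ) - 3)) = g (lam (i + 1) - 1) := by
              have : lam (i + 1) + 2 + ((p : ℤ) - 3) = lam (i + 1) - 1 + p := by ring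
              rw [this, hg]
            have e2 : R ((p : ℤ) - 3 + lam (i + 1)) = R (x + (lam (i + 1) - 1)) := by
              rw [hx3]
              have : (p : ℤ) - 3 + lam (i + 1) = (0 + (lam (i + 1) - 1)) + q := by rw [hq]; ring
              rw [this, hRadd]
            rw [e1, e2] at e3
            have e4 : lam (i + 1) - 1 + 2 + x = lam (i + 1) + 1 := by rw [hx3]; ring
            have e5 : lam (i + 1) - 1 + 1 = lam (i + 1) := by ring
            rw [e5] at hh1
            rw [e4]
            exact ih2.symm.trans ((Conn.single hh1).symm.trans e3)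
          · have e3 := ih1 (x - 1) (by omega) (by omega)
            have e4 : lam (i + 1) - 1 + 2 + x = lam (i + 1) + 2 + (x - 1) := by ring
            have e5 : x + (lam (i + 1) - 1) = x - 1 + lam (i + 1) := by ring
            rw [e4, e5]
            exact e3
  -- the last row
  have hlast : ∀ x : ℤ, 0 ≤ x → x ≤ p - 3 →
      Conn X (g (lam (n - 1) + 2 + x), h 0) (R (x + lam (n - 1))) := by
    intro x hx hx'
    obtain ⟨k1, -⟩ := key (n - 2) (by omega)
    have hn2 : n - 2 + 1 = n - 1 := by omega
    rw [hn2] at k1
    have := (Conn.single (hclose (lam (n - 1) + 2 + x))).symm.trans (k1 x hx hx')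
    rwa [hh] at this
  have h01 : Conn X (g 0, h 0) (g 1, h 0) := by
    have := (hhor 0 (by omega) hΓ).1
    simp only [zero_add, h1] at this
    exact Conn.single this
  -- all columns of row zero are connected
  have hrow0 : ∀ x : ℕ, x < p → Conn X (g x, h 0) (g 0, h 0) := by
    by_cases hev : Even p
    · rw [if_pos hev] at hend
      have hstep2 : ∀ x : ℕ, x + 3 ≤ p → Conn X (g ((x + 2 : ℕ) : ℤ), h 0) (g (x : ℤ), h 0) := by
        intro x hx
        have := hlast x (by positivity) (by omega)
        rw [hend] at this
        have e1 : g ((p : ℤ) - 2 + 2 + x) = g x := by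
          have : (p : ℤ) - 2 + 2 + x = x + p := by ring
          rw [this, hg]
        have e2 : R ((x : ℤ) + (p - 2)) = (g ((x + 2 : ℕ) : ℤ), h 0) := by
          have h3 := hRadd x
          rw [hq] at h3
          rw [h3, hRsmall x (by positivity) (by omega)]
          congr 2
          push_cast; ring
        rw [e1, e2] at this
        exact this.symm
      intro x
      induction x using Nat.strong_induction_on with
      | _ x ih =>
        intro hx
        rcases Nat.lt_or_ge x 2 with h2 | h2
        · interval_cases x
          · exact Conn.refl _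
          · exact h01.symm
        · obtain ⟨y, rfl⟩ := Nat.exists_eq_add_of_le' h2
          exact (hstep2 y (by omega)).trans (ih y (by omega) (by omega))
    · rw [if_neg hev] at hend
      have hstep2 : ∀ x : ℕ, 1 ≤ x → x + 3 ≤ p →
          Conn X (g ((x + 2 : ℕ) : ℤ), h 0) (g (x : ℤ), h 0) := by
        intro x hx1 hx
        have := hlast ((x : ℤ) - 1) (by omega) (by omega)
        rw [hend] at this
        have e1 : g ((p : ℤ) - 1 + 2 + (x - 1)) = g x := by
          have : (p : ℤ) - 1 + 2 + (x - 1) = x + p := by ring
          rw [this, hg]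
        have e2 : R ((x : ℤ) - 1 + (p - 1)) = (g ((x + 2 : ℕ) : ℤ), h 0) := by
          have h3 := hRadd x
          rw [hq] at h3
          have h4 : (x : ℤ) - 1 + (p - 1) = x + (p - 2) := by ring
          rw [h4, h3, hRsmall x (by positivity) (by omega)]
          congr 2
          push_cast; ring
        rw [e1, e2] at this
        exact this.symm
      have hwrap : Conn X (g ((p - 2 : ℕ) : ℤ), h 0) (g 2, h 0) := by
        have := hlast ((p : ℤ) - 3) (by omega) le_rfl
        rw [hend] at this
        have e1 : g ((p : ℤ) - 1 + 2 + (p - 3)) = g ((p - 2 : ℕ) : ℤ) := by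
          have : (p : ℤ) - 1 + 2 + (p - 3) = ((p - 2 : ℕ) : ℤ) + p := by
            have : ((p - 2 : ℕ) : ℤ) = p - 2 := by omega
            rw [this]; ring
          rw [this, hg]
        have e2 : R ((p : ℤ) - 3 + (p - 1)) = (g 2, h 0) := by
          have h3 := hRadd ((p : ℤ) - 2)
          have h5 := hRadd 0
          rw [hq] at h3 h5
          have h4 : (p : ℤ) - 3 + (p - 1) = (p - 2) + (p - 2) := by ring
          rw [zero_add] at h5
          rw [h4, h3, h5, hRsmall 0 le_rfl (by omega)]
          rfl
        rw [e1, e2] at this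
        exact this
      have hodd : Odd p := Nat.not_even_iff_odd.mp hev
      -- odd columns
      have hO : ∀ x : ℕ, 2 * x + 1 < p → Conn X (g ((2 * x + 1 : ℕ) : ℤ), h 0) (g 0, h 0) := by
        intro x
        induction x with
        | zero => intro _; simpa using h01.symm
        | succ x ih =>
          intro hx
          exact (hstep2 (2 * x + 1) (by omega) (by omega)).trans (ih (by omega))
      have h20 : Conn X (g 2, h 0) (g 0, h 0) := by
        obtain ⟨m, hm⟩ := hodd
        have h6 := hO (m - 1) (by omega)
        have h7 : 2 * (m - 1) + 1 = p - 2 := by omega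
        rw [h7] at h6
        exact hwrap.symm.trans h6
      have hE : ∀ x : ℕ, 2 * x < p → Conn X (g ((2 * x : ℕ) : ℤ), h 0) (g 0, h 0) := by
        intro x
        induction x with
        | zero => intro _; simpa using Conn.refl _
        | succ x ih =>
          intro hx
          rcases Nat.eq_zero_or_pos x with rfl | hx0
          · simpa using h20
          · exact (hstep2 (2 * x) (by omega) (by omega)).trans (ih (by omega))
      intro x hx
      rcases Nat.even_or_odd' x with ⟨y, rfl | rfl⟩
      · exact hE y hx
      · exact hO y hx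
  have hrow0' : ∀ z : ℤ, Conn X (g z, h 0) (g 0, h 0) := by
    intro z
    have hz0 : 0 ≤ z % p := Int.emod_nonneg _ (by omega)
    have hz1 : z % p < p := Int.emod_lt_of_pos _ (by omega)
    have := hrow0 (z % p).toNat (by omega)
    rwa [Int.toNat_of_nonneg hz0, hgmod] at this
  -- all vertices
  have hall : ∀ k, k < n → ∀ z, Conn X (g z, h (n - 1 - k)) (g 0, h 0) := by
    intro k
    induction k with
    | zero =>
      intro _ z
      have := Conn.single (hclose z)
      rw [hh] at this
      exact this.trans (hrow0' z)
    | succ k ih =>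
      intro hk z
      obtain ⟨i, hi⟩ : ∃ i, i = n - 1 - (k + 1) := ⟨_, rfl⟩
      have hi1 : i + 1 = n - 1 - k := by omega
      rw [← hi]
      have ih' := ih (by omega)
      rw [← hi1] at ih'
      rcases Nat.eq_zero_or_pos i with rfl | hi0
      · exact hrow0' z
      by_cases hiΓ : i ∈ Γ
      · exact (Conn.single (hvertΓ i (by omega) hiΓ z)).trans (ih' z)
      · -- the column is reached through the horizontal edges
        obtain ⟨j, rfl⟩ : ∃ j, i = j + 1 := ⟨i - 1, by omega⟩
        obtain ⟨hh1, -⟩ := hhor (j + 1) (by omega) hiΓ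
        obtain ⟨k1, k2⟩ := key j (by omega)
        have hR0 : ∀ z, Conn X (R z) (g 0, h 0) := fun z => hrow0' _
        have k1' : ∀ x : ℤ, 0 ≤ x → x ≤ p - 3 →
            Conn X (g (lam (j + 1) + 2 + x), h (j + 1)) (g 0, h 0) :=
          fun x hx hx' => (k1 x hx hx').trans (hR0 _)
        -- the two special columns
        have k3 : Conn X (g (lam (j + 1)), h (j + 1)) (g 0, h 0) := by
          rcases hstep (j + 1) (by omega) (by omega) hiΓ with hl | hl
          · rw [hl] at hh1
            have := k1' 0 le_rfl (by omega)
            have e4 : lam (j + 1) + 1 + 1 = lam (j + 1) + 2 + 0 := by ring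
            rw [e4] at hh1
            exact k2.trans ((Conn.single hh1).trans this)
          · rw [hl] at hh1
            have e3 := k1' (p - 3) (by omega) le_rfl
            have e1 : g (lam (j + 1) + 2 + ((p : ℤ) - 3)) = g (lam (j + 1) - 1) := by
              have : lam (j + 1) + 2 + ((p : ℤ) - 3) = lam (j + 1) - 1 + p := by ring
              rw [this, hg]
            rw [e1] at e3
            have e5 : lam (j + 1) - 1 + 1 = lam (j + 1) := by ring
            rw [e5] at hh1
            exact (Conn.single hh1).symm.trans e3
        -- position of the column relative to `lam`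
        set r := (z - lam (j + 1)) % p with hr
        have hr0 : 0 ≤ r := Int.emod_nonneg _ (by omega)
        have hr1 : r < p := Int.emod_lt_of_pos _ (by omega)
        have hzr : g z = g (lam (j + 1) + r) := by
          apply hgeq
          rw [hr, Int.add_emod_emod]
          congr 1; ring
        rw [hzr]
        rcases lt_or_ge r 2 with hr2 | hr2
        · have : r = 0 ∨ r = 1 := by omega
          rcases this with h0 | h0
          · rw [h0, add_zero]; exact k3
          · rw [h0]; exact k2.symm.trans k3
        · have := k1' (r - 2) (by omega) (by omega)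
          have e : lam (j + 1) + 2 + (r - 2) = lam (j + 1) + r := by ring
          rwa [e] at this
  intro z z' i hi j hj
  have a1 := hall (n - 1 - i) (by omega) z
  have a2 := hall (n - 1 - j) (by omega) z'
  have b1 : n - 1 - (n - 1 - i) = i := by omega
  have b2 : n - 1 - (n - 1 - j) = j := by omega
  rw [b1] at a1
  rw [b2] at a2
  exact a1.trans a2.symm

end H93HD
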