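import Pool.Agent.H93HD.Defs

/-!
# Merging the components of a 2-regular class along a forest

`X` is 2-regular with components = fibres of `comp : α → I`.  For `i ∈ J` the square with removed
edges `a i b i` (in the fibre of `i`) and `c i d i` (in the fibre of `par i`) and added edges
`a i c i`, `b i d i` is toggled.  All removed edges are distinct.  The result is 2-regular, the
fibres stay connected and each `i ∈ J` is joined with `par i`.

Proof idea: induction on `J`, remove the element `i0` of `J` of maximal rank (so no `i ∈ J` has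
`par i = i0`, and the fibre of `i0` is closed for `X' = X + ∑_{J \ i0}`).  In `X'` the edge `a b` can be
deleted and `a, b` stay connected (`SimpleGraph.IsCycles.reachable_deleteEdges`), using a path inside the
component of `a`, which does not contain `c, d`; similarly for `c d`.
-/

namespace H93HD

open Finset
open scoped Classical

section ForestAux

variable {α : Type*}

private theorem zmod2_cases (x : ZMod 2) : x = 0 ∨ x = 1 := by
  fin_cases x
  · exact Or.inl rfl
  · exact Or.inr rfl

private theorem one_iff_of {x y : ZMod 2} (h : x = 1 ↔ y = 1) : x = y := by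
  rcases zmod2_cases x with hx | hx <;> rcases zmod2_cases y with hy | hy <;> rw [hx, hy] at h ⊢ <;>
    simp at h

/-- in a 2-regular class an edge can be deleted without disconnecting its ends -/
private theorem delete_edge [Finite α] {Y : Sym2 α → ZMod 2} (hY : TwoReg Y) {a b : α}
    (hab : Y s(a, b) = 1) :
    Relation.ReflTransGen (fun x y => Y s(x, y) = 1 ∧ s(x, y) ≠ s(a, b)) a b := by
  let G : SimpleGraph α :=
    { Adj := fun x y => Y s(x, y) = 1
      symm := ⟨fun x y h => by rwa [Sym2.eq_swap] at h⟩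
      loopless := ⟨fun x h => by
        obtain ⟨p, q, _, hp, hq, hx⟩ := hY x
        rcases (hx x).1 h with h | h
        · exact hp h.symm
        · exact hq h.symm⟩ }
  have hc : G.IsCycles := by
    intro v _
    obtain ⟨p, q, hpq, _, _, hv⟩ := hY v
    have : G.neighborSet v = {p, q} := by
      ext d
      rw [SimpleGraph.mem_neighborSet]
      exact (hv d).trans (by simp)
    rw [this, Set.ncard_pair hpq]
  have hr := hc.reachable_deleteEdges (v := a) (w := b) hab
  rw [SimpleGraph.reachable_iff_reflTransGen] at hr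
  have hm : ∀ x y, (G.deleteEdges {s(a, b)}).Adj x y → Y s(x, y) = 1 ∧ s(x, y) ≠ s(a, b) := by
    intro x y h
    rw [SimpleGraph.deleteEdges_adj] at h
    exact ⟨h.1, fun e => h.2 (by simp [e])⟩
  exact Relation.ReflTransGen.mono hm _ _ hr

/-- a step that stays on one side of `S` and avoids the deleted edges -/
private theorem conn_side {Y Z : Sym2 α → ZMod 2} (S : α → Prop) {a b : α} {e0 : Sym2 α}
    (hcl : ∀ x y, Y s(x, y) = 1 → S x → S y)
    (hZ : ∀ x y, Y s(x, y) = 1 → S x → s(x, y) ≠ e0 → Z s(x, y) = 1)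
    (ha : S a) (h : Relation.ReflTransGen (fun x y => Y s(x, y) = 1 ∧ s(x, y) ≠ e0) a b) :
    Conn Z a b := by
  have key : S b ∧ Conn Z a b := by
    induction h with
    | refl => exact ⟨ha, Conn.refl a⟩
    | tail _ hstep ih =>
      exact ⟨hcl _ _ hstep.1 ih.1, ih.2.trans (Conn.single (hZ _ _ hstep.1 ih.1 hstep.2))⟩
  exact key.2

/-- the neighbours of `a` after the switch -/
private theorem switch_at {Y : Sym2 α → ZMod 2} (hY : TwoReg Y) {a b c d : α}
    (hab : Y s(a, b) = 1) (hac : Y s(a, c) = 0)
    (hac' : a ≠ c) (had : a ≠ d) (hbc : b ≠ c) :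
    ∃ p q, p ≠ q ∧ p ≠ a ∧ q ≠ a ∧
      ∀ y, (fun e => Y e + sq a b c d e) s(a, y) = 1 ↔ (y = p ∨ y = q) := by
  obtain ⟨p, q, hpq, hpa, hqa, hN⟩ := hY a
  have hb : b = p ∨ b = q := (hN b).1 hab
  have hba : b ≠ a := by rcases hb with rfl | rfl <;> assumption
  have hcN : ¬ (c = p ∨ c = q) := by
    intro h
    have := (hN c).2 h
    rw [hac] at this
    exact absurd this (by decide)
  -- the other neighbour
  obtain ⟨r, hrb, hra, hrc, hN'⟩ : ∃ r, r ≠ b ∧ r ≠ a ∧ r ≠ c ∧
      ∀ y, Y s(a, y) = 1 ↔ (y = b ∨ y = r) := by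
    rcases hb with rfl | rfl
    · exact ⟨q, hpq.symm, hqa, fun h => hcN (Or.inr h.symm), hN⟩
    · exact ⟨p, hpq, hpa, fun h => hcN (Or.inl h.symm), fun y => (hN y).trans or_comm⟩
  refine ⟨c, r, hrc.symm, hac'.symm, hra, fun y => ?_⟩
  have hsq : sq a b c d s(a, y) = (if y = b then 1 else 0) + (if y = c then 1 else 0) := by
    unfold sq ind
    have e1 : (s(a, y) = s(a, b)) ↔ y = b := by
      rw [Sym2.eq_iff]
      constructor
      · rintro (⟨_, h⟩ | ⟨h, _⟩)
        · exact h
        · exact absurd h.symm hba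
      · intro h; exact Or.inl ⟨rfl, h⟩
    have e2 : ¬ (s(a, y) = s(c, d)) := by
      rw [Sym2.eq_iff]
      rintro (⟨h, _⟩ | ⟨h, _⟩)
      · exact hac' h
      · exact had h
    have e3 : (s(a, y) = s(a, c)) ↔ y = c := by
      rw [Sym2.eq_iff]
      constructor
      · rintro (⟨_, h⟩ | ⟨h, _⟩)
        · exact h
        · exact absurd h hac'
      · intro h; exact Or.inl ⟨rfl, h⟩
    have e4 : ¬ (s(a, y) = s(b, d)) := by
      rw [Sym2.eq_iff]
      rintro (⟨h, _⟩ | ⟨h, _⟩)
      · exact hba h.symm
      · exact had h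
    simp only [e1, e2, e3, e4, if_false]
    ring
  have hYy : Y s(a, y) = (if y = b then 1 else 0) + (if y = r then 1 else 0) := by
    by_cases h1 : y = b
    · rw [(hN' y).2 (Or.inl h1), if_pos h1, if_neg (by rw [h1]; exact hrb.symm), add_zero]
    · by_cases h2 : y = r
      · rw [(hN' y).2 (Or.inr h2), if_neg h1, if_pos h2, zero_add]
      · rw [if_neg h1, if_neg h2, add_zero]
        rcases zmod2_cases (Y s(a, y)) with h | h
        · exact h
        · exact absurd ((hN' y).1 h) (by tauto)
  show Y s(a, y) + sq a b c d s(a, y) = 1 ↔ _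
  rw [hsq, hYy]
  have h2 : (1 : ZMod 2) + 1 = 0 := by decide
  by_cases h1 : y = b
  · subst h1
    rw [if_pos rfl, if_neg hrb.symm, if_neg hbc]
    simp only [add_zero, h2]
    constructor
    · intro h; exact absurd h (by decide)
    · rintro (h | h)
      · exact absurd h hbc
      · exact absurd h.symm hrb
  · rw [if_neg h1]
    by_cases h3 : y = r
    · subst h3
      rw [if_pos rfl, if_neg hrc]
      simp
    · rw [if_neg h3]
      by_cases h4 : y = c
      · rw [if_pos h4]; simp [h4]
      · rw [if_neg h4]; simp [h3, h4]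

/-- a 2-switch preserves 2-regularity -/
private theorem twoReg_switch {Y : Sym2 α → ZMod 2} (hY : TwoReg Y) {a b c d : α}
    (hab : Y s(a, b) = 1) (hcd : Y s(c, d) = 1) (hac : Y s(a, c) = 0) (hbd : Y s(b, d) = 0)
    (nac : a ≠ c) (nad : a ≠ d) (nbc : b ≠ c) (nbd : b ≠ d) :
    TwoReg (fun e => Y e + sq a b c d e) := by
  intro x
  by_cases hxa : x = a
  · subst hxa
    exact switch_at hY hab hac nac nad nbc
  by_cases hxb : x = b
  · subst hxb
    have := switch_at (a := x) (b := a) (c := d) (d := c) hY (by rwa [Sym2.eq_swap]) hbd nbd nbc nad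
    simpa only [sq_swap_cols a x c d] using this
  by_cases hxc : x = c
  · subst hxc
    have := switch_at (a := x) (b := d) (c := a) (d := b) hY hcd (by rwa [Sym2.eq_swap]) nac.symm
      nbc.symm nad.symm
    simpa only [sq_swap_rows a b x d] using this
  by_cases hxd : x = d
  · subst hxd
    have := switch_at (a := x) (b := c) (c := b) (d := a) hY (by rwa [Sym2.eq_swap])
      (by rwa [Sym2.eq_swap]) nbd.symm nad.symm nbc.symm
    simpa only [sq_swap_rows a b c x, sq_swap_cols c x a b] using this
  obtain ⟨p, q, hpq, hpa, hqa, hN⟩ := hY x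
  refine ⟨p, q, hpq, hpa, hqa, fun y => ?_⟩
  rw [← hN y]
  have : sq a b c d s(x, y) = 0 := by
    unfold sq ind
    have e : ∀ u v : α, x ≠ u → x ≠ v → ¬ (s(x, y) = s(u, v)) := by
      intro u v hu hv h
      rw [Sym2.eq_iff] at h
      rcases h with ⟨h, _⟩ | ⟨h, _⟩
      · exact hu h
      · exact hv h
    simp [e a b hxa hxb, e c d hxc hxd, e a c hxa hxc, e b d hxb hxd]
  show Y s(x, y) + sq a b c d s(x, y) = 1 ↔ _
  rw [this, add_zero]

/-- a square none of whose vertices is in the fibre `i0` does not change an edge that meets the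
fibre -/
private theorem sq_zero_of {S : α → Prop} {a b c d x y : α} (ha : ¬ S a) (hb : ¬ S b) (hc : ¬ S c)
    (hd : ¬ S d) (h : S x ∨ S y) : sq a b c d s(x, y) = 0 := by
  have e : ∀ u v : α, ¬ S u → ¬ S v → ¬ (s(x, y) = s(u, v)) := by
    intro u v hu hv he
    rw [Sym2.eq_iff] at he
    rcases he with ⟨h1, h2⟩ | ⟨h1, h2⟩
    · subst h1; subst h2
      rcases h with h | h
      · exact hu h
      · exact hv h
    · subst h1; subst h2
      rcases h with h | h
      · exact hv h
      · exact hu h
  unfold sq ind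
  simp [e a b ha hb, e c d hc hd, e a c ha hc, e b d hb hd]

end ForestAux

theorem forest {α I : Type*} [Finite α]
    (X : Sym2 α → ZMod 2) (hX : TwoReg X)
    (comp : α → I) (hcl : ∀ a b, X s(a, b) = 1 → comp a = comp b)
    (hconn : ∀ a b, comp a = comp b → Conn X a b)
    (rank : I → ℕ) (par : I → I) (J : Finset I) (hrank : ∀ i ∈ J, rank (par i) < rank i)
    (a b c d : I → α)
    (ha : ∀ i ∈ J, comp (a i) = i) (hc : ∀ i ∈ J, comp (c i) = par i)
    (hab : ∀ i ∈ J, X s(a i, b i) = 1) (hcd : ∀ i ∈ J, X s(c i, d i) = 1)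
    (h1 : ∀ i ∈ J, ∀ j ∈ J, s(c i, d i) ≠ s(a j, b j))
    (h2 : ∀ i ∈ J, ∀ j ∈ J, i ≠ j → s(c i, d i) ≠ s(c j, d j)) :
    TwoReg (fun e => X e + ∑ i ∈ J, sq (a i) (b i) (c i) (d i) e) ∧
    (∀ x y, comp x = comp y → Conn (fun e => X e + ∑ i ∈ J, sq (a i) (b i) (c i) (d i) e) x y) ∧
    (∀ i ∈ J, Conn (fun e => X e + ∑ i ∈ J, sq (a i) (b i) (c i) (d i) e) (a i) (c i)) := by
  induction hn : J.card generalizing J with
  | zero =>
    rw [Finset.card_eq_zero] at hn
    subst hn
    simp only [Finset.sum_empty, add_zero, Finset.notMem_empty, false_imp_iff, implies_true,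
      and_true]
    exact ⟨hX, hconn⟩
  | succ n ih =>
    have hne : J.Nonempty := Finset.card_pos.1 (by omega)
    obtain ⟨i0, hi0, hmax⟩ := Finset.exists_max_image J rank hne
    set J' := J.erase i0 with hJ'
    have hsub : ∀ i ∈ J', i ∈ J := fun i hi => Finset.mem_of_mem_erase hi
    have hne0 : ∀ i ∈ J', i ≠ i0 := fun i hi => Finset.ne_of_mem_erase hi
    obtain ⟨k1, k2, k3⟩ := ih J' (fun i hi => hrank i (hsub i hi)) (fun i hi => ha i (hsub i hi))
      (fun i hi => hc i (hsub i hi)) (fun i hi => hab i (hsub i hi)) (fun i hi => hcd i (hsub i hi))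
      (fun i hi j hj => h1 i (hsub i hi) j (hsub j hj))
      (fun i hi j hj hij => h2 i (hsub i hi) j (hsub j hj) hij)
      (by rw [hJ', Finset.card_erase_of_mem hi0]; omega)
    set X' : Sym2 α → ZMod 2 := fun e => X e + ∑ i ∈ J', sq (a i) (b i) (c i) (d i) e with hX'
    have hb : ∀ i ∈ J, comp (b i) = i := fun i hi => by rw [← hcl _ _ (hab i hi), ha i hi]
    have hd : ∀ i ∈ J, comp (d i) = par i := fun i hi => by rw [← hcl _ _ (hcd i hi), hc i hi]
    have hpar : ∀ i ∈ J, par i ≠ i0 := by
      intro i hi h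
      have h3 := hrank i hi
      have h4 := hmax i hi
      rw [h] at h3
      omega
    have hsame : ∀ x y, (comp x = i0 ∨ comp y = i0) → X' s(x, y) = X s(x, y) := by
      intro x y h
      rw [hX']
      show X s(x, y) + ∑ i ∈ J', sq (a i) (b i) (c i) (d i) s(x, y) = X s(x, y)
      rw [Finset.sum_eq_zero, add_zero]
      intro i hi
      have hiJ := hsub i hi
      refine sq_zero_of (S := fun z => comp z = i0) ?_ ?_ ?_ ?_ h
      · show ¬ comp (a i) = i0
        rw [ha i hiJ]; exact hne0 i hi
      · show ¬ comp (b i) = i0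
        rw [hb i hiJ]; exact hne0 i hi
      · show ¬ comp (c i) = i0
        rw [hc i hiJ]; exact hpar i hiJ
      · show ¬ comp (d i) = i0
        rw [hd i hiJ]; exact hpar i hiJ
    have hclosed : ∀ x y, X' s(x, y) = 1 → comp x = i0 → comp y = i0 := by
      intro x y h hx
      rw [hsame x y (Or.inl hx)] at h
      rw [← hcl x y h, hx]
    have hclosed' : ∀ x y, X' s(x, y) = 1 → comp x ≠ i0 → comp y ≠ i0 := by
      intro x y h hx hy
      exact hx (hclosed y x (by rwa [Sym2.eq_swap]) hy)
    -- the four edges of the last square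
    have ha0 := ha i0 hi0
    have hb0 := hb i0 hi0
    have hc0 : comp (c i0) ≠ i0 := by rw [hc i0 hi0]; exact hpar i0 hi0
    have hd0 : comp (d i0) ≠ i0 := by rw [hd i0 hi0]; exact hpar i0 hi0
    have eab : X' s(a i0, b i0) = 1 := by rw [hsame _ _ (Or.inl ha0)]; exact hab i0 hi0
    have ecd : X' s(c i0, d i0) = 1 := by
      rw [hX']
      show X s(c i0, d i0) + ∑ i ∈ J', sq (a i) (b i) (c i) (d i) s(c i0, d i0) = 1
      rw [Finset.sum_eq_zero, add_zero]
      · exact hcd i0 hi0
      · intro i hi
        have hiJ := hsub i hi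
        have e1 := h1 i0 hi0 i hiJ
        have e2 := h2 i0 hi0 i hiJ (hne0 i hi).symm
        have hpi : par i ≠ i := fun h => by have := hrank i hiJ; rw [h] at this; omega
        have hcd0 : comp (c i0) = comp (d i0) := by rw [hc i0 hi0, hd i0 hi0]
        have e3 : s(c i0, d i0) ≠ s(a i, c i) := by
          intro h
          rw [Sym2.eq_iff] at h
          rcases h with ⟨h, h'⟩ | ⟨h, h'⟩
          · rw [h, h', ha i hiJ, hc i hiJ] at hcd0; exact hpi hcd0.symm
          · rw [h, h', ha i hiJ, hc i hiJ] at hcd0; exact hpi hcd0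
        have e4 : s(c i0, d i0) ≠ s(b i, d i) := by
          intro h
          rw [Sym2.eq_iff] at h
          rcases h with ⟨h, h'⟩ | ⟨h, h'⟩
          · rw [h, h', hb i hiJ, hd i hiJ] at hcd0; exact hpi hcd0.symm
          · rw [h, h', hb i hiJ, hd i hiJ] at hcd0; exact hpi hcd0
        unfold sq ind
        simp [e1, e2, e3, e4]
    have zero_of : ∀ x y, comp x = i0 → comp y ≠ i0 → X' s(x, y) = 0 := by
      intro x y hx hy
      rcases zmod2_cases (X' s(x, y)) with h | h
      · exact h
      · exact absurd (hclosed x y h hx) hy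
    have eac : X' s(a i0, c i0) = 0 := zero_of _ _ ha0 hc0
    have ebd : X' s(b i0, d i0) = 0 := zero_of _ _ hb0 hd0
    have nac : a i0 ≠ c i0 := fun h => hc0 (by rw [← h]; exact ha0)
    have nad : a i0 ≠ d i0 := fun h => hd0 (by rw [← h]; exact ha0)
    have nbc : b i0 ≠ c i0 := fun h => hc0 (by rw [← h]; exact hb0)
    have nbd : b i0 ≠ d i0 := fun h => hd0 (by rw [← h]; exact hb0)
    have hsum : (fun e => X e + ∑ i ∈ J, sq (a i) (b i) (c i) (d i) e) =
        fun e => X' e + sq (a i0) (b i0) (c i0) (d i0) e := by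
      funext e
      rw [hX']
      show X e + ∑ i ∈ J, sq (a i) (b i) (c i) (d i) e =
        X e + ∑ i ∈ J', sq (a i) (b i) (c i) (d i) e + sq (a i0) (b i0) (c i0) (d i0) e
      rw [hJ', add_assoc, Finset.sum_erase_add J _ hi0]
    rw [hsum]
    set X2 : Sym2 α → ZMod 2 := fun e => X' e + sq (a i0) (b i0) (c i0) (d i0) e with hX2
    -- edges of `X'` that survive
    have surv : ∀ x y, X' s(x, y) = 1 → s(x, y) ≠ s(a i0, b i0) → s(x, y) ≠ s(c i0, d i0) →
        X2 s(x, y) = 1 := by
      intro x y h n1 n2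
      have n3 : s(x, y) ≠ s(a i0, c i0) := by
        intro e; rw [e, eac] at h; exact absurd h (by decide)
      have n4 : s(x, y) ≠ s(b i0, d i0) := by
        intro e; rw [e, ebd] at h; exact absurd h (by decide)
      rw [hX2]
      show X' s(x, y) + sq (a i0) (b i0) (c i0) (d i0) s(x, y) = 1
      rw [h]
      unfold sq ind
      simp [n1, n2, n3, n4]
    have cab : Conn X2 (a i0) (b i0) := by
      refine conn_side (Y := X') (fun z => comp z = i0) hclosed ?_ ha0 (delete_edge k1 eab)
      intro x y h hx hne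
      refine surv x y h hne fun e => ?_
      rw [Sym2.eq_iff] at e
      rcases e with ⟨e, _⟩ | ⟨e, _⟩
      · exact hc0 (by rw [← e]; exact hx)
      · exact hd0 (by rw [← e]; exact hx)
    have ccd : Conn X2 (c i0) (d i0) := by
      refine conn_side (Y := X') (fun z => comp z ≠ i0) hclosed' ?_ hc0 (delete_edge k1 ecd)
      intro x y h hx hne
      refine surv x y h (fun e => ?_) hne
      rw [Sym2.eq_iff] at e
      rcases e with ⟨e, _⟩ | ⟨e, _⟩
      · exact hx (by rw [e]; exact ha0)
      · exact hx (by rw [e]; exact hb0)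
    have cac : Conn X2 (a i0) (c i0) := by
      apply Conn.single
      rw [hX2]
      show X' s(a i0, c i0) + sq (a i0) (b i0) (c i0) (d i0) s(a i0, c i0) = 1
      rw [eac]
      have hba : a i0 ≠ b i0 := by
        intro h
        obtain ⟨p, q, _, hp, hq, hx⟩ := hX (a i0)
        have := hab i0 hi0
        rw [← h] at this
        rcases (hx _).1 this with h | h
        · exact hp h.symm
        · exact hq h.symm
      have n1 : s(a i0, c i0) ≠ s(a i0, b i0) := by
        intro e
        rw [Sym2.eq_iff] at e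
        rcases e with ⟨_, e⟩ | ⟨_, e⟩
        · exact nbc e.symm
        · exact nac e.symm
      have n2 : s(a i0, c i0) ≠ s(c i0, d i0) := by
        intro e
        rw [Sym2.eq_iff] at e
        rcases e with ⟨e, _⟩ | ⟨e, _⟩
        · exact nac e
        · exact nad e
      have n3 : s(a i0, c i0) ≠ s(b i0, d i0) := by
        intro e
        rw [Sym2.eq_iff] at e
        rcases e with ⟨e, _⟩ | ⟨e, _⟩
        · exact hba e
        · exact nad e
      unfold sq ind
      simp [n1, n2, n3]
    have lift : ∀ x y, Conn X' x y → Conn X2 x y := by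
      intro x y h
      induction h with
      | refl => exact Conn.refl x
      | @tail u v _ hstep ih =>
        refine ih.trans ?_
        by_cases n1 : s(u, v) = s(a i0, b i0)
        · rw [Sym2.eq_iff] at n1
          rcases n1 with ⟨rfl, rfl⟩ | ⟨rfl, rfl⟩
          · exact cab
          · exact cab.symm
        · by_cases n2 : s(u, v) = s(c i0, d i0)
          · rw [Sym2.eq_iff] at n2
            rcases n2 with ⟨rfl, rfl⟩ | ⟨rfl, rfl⟩
            · exact ccd
            · exact ccd.symm
          · exact Conn.single (surv u v hstep n1 n2)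
    refine ⟨twoReg_switch k1 eab ecd eac ebd nac nad nbc nbd, fun x y h => lift x y (k2 x y h),
      fun i hi => ?_⟩
    by_cases h : i = i0
    · subst h; exact cac
    · exact lift _ _ (k3 i (Finset.mem_erase.2 ⟨h, hi⟩))

end H93HD
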