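import Pool.Agent.H93HD.BBlock
import Pool.Agent.H93HD.BConn
import Pool.Agent.H93HD.Forest

/-!
# Class `B`: merging the orbits by the crosses of type `B`

Apply `forest` to `Bfun` with `comp (v, w) = rep v`, `J` = the representatives `≠ root`,
`a = (u c, h t)`, `b = (u c, h (t+1))`, `c = (u' c, h t)`, `d = (u' c, h (t+1))`, `t = t c`.
-/

namespace H93HD

open Finset
open scoped Classical

variable {V W : Type*} [Fintype V] [Fintype W]

private theorem h_inj {n : ℕ} {h : ℕ → W} (henum : Enum n h) {i j : ℕ} (hi : i < n) (hj : j < n)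
    (e : h i = h j) : i = j := by
  have := (henum.1 i j).1 e
  unfold Nat.ModEq at this
  rwa [Nat.mod_eq_of_lt hi, Nat.mod_eq_of_lt hj] at this

private theorem vpair_eq {n : ℕ} {h : ℕ → W} (henum : Enum n h) {i j : ℕ}
    (hi : i < n - 1) (hj : j < n - 1) {v v' : V}
    (e : s((v, h i), (v, h (i + 1))) = s((v', h j), (v', h (j + 1)))) : i = j ∧ v = v' := by
  rw [Sym2.eq_iff] at e
  rcases e with ⟨e1, e2⟩ | ⟨e1, e2⟩
  · rw [Prod.mk.injEq] at e1 e2
    exact ⟨h_inj henum (by omega) (by omega) e1.2, e1.1⟩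
  · rw [Prod.mk.injEq] at e1 e2
    have h1 := h_inj henum (by omega) (by omega) e1.2
    have h2 := h_inj henum (by omega) (by omega) e2.2
    omega

/-- every orbit is connected in class `B` -/
private theorem borbit (σ : Equiv.Perm V) (hσ : ∀ v, σ (σ v) ≠ v) (rep : V → V) (hrep : IsRep σ rep)
    (n : ℕ) (hn : 3 ≤ n) (h : ℕ → W) (henum : Enum n h)
    (p : V → ℕ) (hp : ∀ c, rep c = c → 3 ≤ p c ∧ (σ ^ (p c)) c = c)
    (Γ : V → Finset ℕ) (hΓ0 : ∀ c, rep c = c → 0 ∉ Γ c)
    (lam : V → ℕ → ℤ)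
    (h1 : ∀ c, rep c = c → lam c 1 = 0)
    (hstep : ∀ c, rep c = c → ∀ i, 1 ≤ i → i < n - 1 → i ∉ Γ c →
      (lam c (i + 1) = lam c i + 1 ∨ lam c (i + 1) = lam c i - 1))
    (hgap : ∀ c, rep c = c → ∀ i, 1 ≤ i → i < n - 1 → i ∈ Γ c → lam c (i + 1) = lam c i)
    (hend : ∀ c, rep c = c →
      lam c (n - 1) = (if Even (p c) then (p c : ℤ) - 2 else (p c : ℤ) - 1))
    (e : V → ℕ → V)
    (he : ∀ c, rep c = c → ∀ i < n - 1, rep (e c i) = c)
    (helam : ∀ c, rep c = c → ∀ i < n - 1, i ∉ Γ c → e c i = (σ ^ (lam c (i + 1))) c)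
    (hdist : ∀ c, rep c = c → ∀ x : ℤ, 0 < x → x < p c → (σ ^ x) c ≠ c)
    (hne : ∀ c, rep c = c → ∀ i, i + 1 < n - 1 → i ∉ Γ c → i + 1 ∉ Γ c → e c i ≠ e c (i + 1))
    (x y : V × W) (hxy : rep x.1 = rep y.1) :
    Conn (Bfun (W := W) σ rep n h Γ e) x y := by
  obtain ⟨v, w⟩ := x
  obtain ⟨v', w'⟩ := y
  simp only at hxy
  set c := rep v with hcdef
  have hc : rep c = c := hrep.2 v
  have hz : ∀ z : ℤ, rep ((σ ^ z) c) = c := by
    intro z
    have : rep ((σ ^ z) c) = rep c := (hrep.1 _ _).2 ⟨-z, by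
      rw [← Equiv.Perm.mul_apply, ← zpow_add]; simp⟩
    rw [this, hc]
  have hmul : ∀ z z' : ℤ, (σ ^ (z + z')) c = (σ ^ z) ((σ ^ z') c) := by
    intro z z'
    rw [zpow_add, Equiv.Perm.mul_apply]
  have hinj : ∀ z z' : ℤ, 0 < z' → z' < p c → (σ ^ (z + z')) c ≠ (σ ^ z) c := by
    intro z z' h0 h1 he
    rw [hmul] at he
    exact hdist c hc z' h0 h1 ((σ ^ z).injective he)
  have hsucc : ∀ z : ℤ, (σ ^ (z + 1)) c = σ ((σ ^ z) c) := by
    intro z
    rw [add_comm, hmul, zpow_one]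
  have hcon := bconn (Bfun (W := W) σ rep n h Γ e) n (p c) hn (hp c hc).1 (fun z => (σ ^ z) c)
    (by
      intro z
      show (σ ^ (z + (p c : ℤ))) c = (σ ^ z) c
      rw [hmul, zpow_natCast, (hp c hc).2])
    h ((henum.1 n 0).2 (by unfold Nat.ModEq; simp)) (Γ c) (hΓ0 c hc) (lam c) (h1 c hc)
    (hstep c hc) (hgap c hc) (hend c hc)
    (by
      intro z
      have := bblock_vertical σ hσ rep hrep n hn h henum Γ e he ((σ ^ z) c) (n - 1) (by omega)
        (fun hlt => absurd hlt (lt_irrefl _))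
      rwa [show n - 1 + 1 = n by omega] at this)
    (by
      intro i hi hiΓ z
      exact bblock_vertical σ hσ rep hrep n hn h henum Γ e he ((σ ^ z) c) i (by omega)
        (fun _ hnot => by rw [hz z] at hnot; exact absurd hiΓ hnot))
    (by
      intro i hi hiΓ x hx0 hx1
      refine bblock_vertical σ hσ rep hrep n hn h henum Γ e he _ i (by omega) (fun _ _ => ?_)
      show (σ ^ (lam c (i + 1) + 2 + x)) c ≠ e (rep ((σ ^ (lam c (i + 1) + 2 + x)) c)) i ∧
        (σ ^ (lam c (i + 1) + 2 + x)) c ≠ σ (e (rep ((σ ^ (lam c (i + 1) + 2 + x)) c)) i)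
      rw [hz, helam c hc i hi hiΓ, ← hsucc]
      constructor
      · have := hinj (lam c (i + 1)) (2 + x) (by omega) (by omega)
        rwa [← add_assoc] at this
      · have := hinj (lam c (i + 1) + 1) (1 + x) (by omega) (by omega)
        rwa [show lam c (i + 1) + 1 + (1 + x) = lam c (i + 1) + 2 + x by ring] at this)
    (by
      intro i hi hiΓ
      have := bblock_horizontal σ hσ rep hrep n hn h henum Γ e he hne c hc i hi hiΓ
      rw [helam c hc i hi hiΓ, ← hsucc] at this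
      exact this)
  obtain ⟨i, hi, hiw⟩ := henum.2 w
  obtain ⟨j, hj, hjw⟩ := henum.2 w'
  have e1 : ∃ z : ℤ, (σ ^ z) c = v := by
    have : rep c = rep v := by rw [hc]
    exact (hrep.1 _ _).1 this
  have e2 : ∃ z : ℤ, (σ ^ z) c = v' := by
    have : rep c = rep v' := by rw [hc, hxy]
    exact (hrep.1 _ _).1 this
  obtain ⟨z, hzv⟩ := e1
  obtain ⟨z', hzv'⟩ := e2
  have := hcon z z' i hi j hj
  simp only [hzv, hzv', hiw, hjw] at this
  exact this

theorem bclass (σ : Equiv.Perm V) (hσ : ∀ v, σ (σ v) ≠ v) (rep : V → V) (hrep : IsRep σ rep)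
    (n : ℕ) (hn : 3 ≤ n) (h : ℕ → W) (henum : Enum n h)
    (p : V → ℕ) (hp : ∀ c, rep c = c → 3 ≤ p c ∧ (σ ^ (p c)) c = c)
    (Γ : V → Finset ℕ) (hΓ0 : ∀ c, rep c = c → 0 ∉ Γ c)
    (lam : V → ℕ → ℤ)
    (h1 : ∀ c, rep c = c → lam c 1 = 0)
    (hstep : ∀ c, rep c = c → ∀ i, 1 ≤ i → i < n - 1 → i ∉ Γ c →
      (lam c (i + 1) = lam c i + 1 ∨ lam c (i + 1) = lam c i - 1))
    (hgap : ∀ c, rep c = c → ∀ i, 1 ≤ i → i < n - 1 → i ∈ Γ c → lam c (i + 1) = lam c i)
    (hend : ∀ c, rep c = c →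
      lam c (n - 1) = (if Even (p c) then (p c : ℤ) - 2 else (p c : ℤ) - 1))
    (e : V → ℕ → V)
    (he : ∀ c, rep c = c → ∀ i < n - 1, rep (e c i) = c)
    (helam : ∀ c, rep c = c → ∀ i < n - 1, i ∉ Γ c → e c i = (σ ^ (lam c (i + 1))) c)
    (hdist : ∀ c, rep c = c → ∀ x : ℤ, 0 < x → x < p c → (σ ^ x) c ≠ c)
    (root : V) (rank : V → ℕ) (u u' : V → V) (t : V → ℕ) (hroot : rep root = root)
    (htree : ∀ c, rep c = c → c ≠ root → rep (u c) = c ∧ rank (rep (u' c)) < rank c)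
    (ht : ∀ c, rep c = c → c ≠ root → t c < n - 1)
    (htinj : ∀ c c', rep c = c → c ≠ root → rep c' = c' → c' ≠ root → t c = t c' → c = c')
    (hu : ∀ c, rep c = c → c ≠ root → u c ≠ e c (t c) ∧ u c ≠ σ (e c (t c)))
    (hu' : ∀ c, rep c = c → c ≠ root →
      u' c ≠ e (rep (u' c)) (t c) ∧ u' c ≠ σ (e (rep (u' c)) (t c))) :
    TwoReg (fun ed => Bfun (W := W) σ rep n h Γ e ed +
        ∑ c ∈ (reps rep).erase root, psq (u c) (u' c) (h (t c)) (h (t c + 1)) ed) ∧
      ∀ x y : V × W, Conn (fun ed => Bfun (W := W) σ rep n h Γ e ed +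
        ∑ c ∈ (reps rep).erase root, psq (u c) (u' c) (h (t c)) (h (t c + 1)) ed) x y := by
  have hne : ∀ c, rep c = c → ∀ i, i + 1 < n - 1 → i ∉ Γ c → i + 1 ∉ Γ c → e c i ≠ e c (i + 1) := by
    intro c hc i hi hi1 hi2 heq
    rw [helam c hc i (by omega) hi1, helam c hc (i + 1) hi hi2] at heq
    have hσ1 : ∀ v, σ v ≠ v := fun v hv => hσ v (by rw [hv, hv])
    rcases hstep c hc (i + 1) (by omega) hi hi2 with h3 | h3
    · rw [h3, add_comm (lam c (i + 1)) 1, zpow_add, Equiv.Perm.mul_apply, zpow_one] at heq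
      exact hσ1 _ heq.symm
    · have : lam c (i + 1) = 1 + lam c (i + 1 + 1) := by rw [h3]; ring
      rw [this, zpow_add, Equiv.Perm.mul_apply, zpow_one] at heq
      exact hσ1 _ heq
  have hmem : ∀ c, c ∈ (reps rep).erase root ↔ c ≠ root ∧ rep c = c := by
    intro c
    rw [Finset.mem_erase]
    unfold reps
    rw [Finset.mem_filter]
    simp
  have key := forest (Bfun (W := W) σ rep n h Γ e)
    (bblock_twoReg σ hσ rep hrep n hn h henum Γ e he hne) (fun x : V × W => rep x.1)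
    (fun x y hxy => bblock_closed σ rep hrep n h Γ e x y hxy)
    (fun x y hxy => borbit σ hσ rep hrep n hn h henum p hp Γ hΓ0 lam h1 hstep hgap hend e he helam
      hdist hne x y hxy)
    rank (fun c => rep (u' c)) ((reps rep).erase root)
    (fun c hc => (htree c ((hmem c).1 hc).2 ((hmem c).1 hc).1).2)
    (fun c => (u c, h (t c))) (fun c => (u c, h (t c + 1)))
    (fun c => (u' c, h (t c))) (fun c => (u' c, h (t c + 1)))
    (fun c hc => (htree c ((hmem c).1 hc).2 ((hmem c).1 hc).1).1)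
    (fun c _ => rfl)
    (fun c hc => by
      obtain ⟨hcr, hcc⟩ := (hmem c).1 hc
      have ht' := ht c hcc hcr
      refine bblock_vertical σ hσ rep hrep n hn h henum Γ e he (u c) (t c) (by omega)
        (fun _ _ => ?_)
      rw [(htree c hcc hcr).1]
      exact hu c hcc hcr)
    (fun c hc => by
      obtain ⟨hcr, hcc⟩ := (hmem c).1 hc
      have ht' := ht c hcc hcr
      exact bblock_vertical σ hσ rep hrep n hn h henum Γ e he (u' c) (t c) (by omega)
        (fun _ _ => hu' c hcc hcr))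
    (fun i hi j hj heq => by
      obtain ⟨hir, hic⟩ := (hmem i).1 hi
      obtain ⟨hjr, hjc⟩ := (hmem j).1 hj
      obtain ⟨e1, e2⟩ := vpair_eq henum (ht i hic hir) (ht j hjc hjr) heq
      have hij := htinj i j hic hir hjc hjr e1
      subst hij
      have h3 := htree i hic hir
      rw [e2, h3.1] at h3
      exact lt_irrefl _ h3.2)
    (fun i hi j hj hij heq => by
      obtain ⟨hir, hic⟩ := (hmem i).1 hi
      obtain ⟨hjr, hjc⟩ := (hmem j).1 hj
      obtain ⟨e1, _⟩ := vpair_eq henum (ht i hic hir) (ht j hjc hjr) heq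
      exact hij (htinj i j hic hir hjc hjr e1))
  have hfun : (fun ed => Bfun (W := W) σ rep n h Γ e ed +
        ∑ c ∈ (reps rep).erase root, psq (u c) (u' c) (h (t c)) (h (t c + 1)) ed) =
      (fun ed => Bfun (W := W) σ rep n h Γ e ed + ∑ c ∈ (reps rep).erase root,
        sq (u c, h (t c)) (u c, h (t c + 1)) (u' c, h (t c)) (u' c, h (t c + 1)) ed) := by
    funext ed
    congr 1
    refine Finset.sum_congr rfl fun c _ => ?_
    unfold psq
    rw [sq_comm]
  rw [hfun]
  refine ⟨key.1, ?_⟩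
  have hroot' : ∀ N : ℕ, ∀ x : V × W, rank (rep x.1) ≤ N →
      Conn (fun ed => Bfun (W := W) σ rep n h Γ e ed + ∑ c ∈ (reps rep).erase root,
        sq (u c, h (t c)) (u c, h (t c + 1)) (u' c, h (t c)) (u' c, h (t c + 1)) ed) x
        (root, h 0) := by
    intro N
    induction N with
    | zero =>
      intro x hx
      by_cases hr : rep x.1 = root
      · exact key.2.1 x (root, h 0) (by show rep x.1 = rep root; rw [hr, hroot])
      · have := (htree (rep x.1) (hrep.2 _) hr).2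
        omega
    | succ N ih =>
      intro x hx
      by_cases hr : rep x.1 = root
      · exact key.2.1 x (root, h 0) (by show rep x.1 = rep root; rw [hr, hroot])
      · have hc : rep (rep x.1) = rep x.1 := hrep.2 _
        have h3 := htree (rep x.1) hc hr
        have s1 := key.2.1 x (u (rep x.1), h (t (rep x.1)))
          (by show rep x.1 = rep (u (rep x.1)); rw [h3.1])
        have s2 := key.2.2 (rep x.1) ((hmem _).2 ⟨hr, hc⟩)
        have s3 := ih (u' (rep x.1), h (t (rep x.1))) (by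
          show rank (rep (u' (rep x.1))) ≤ N
          omega)
        exact (s1.trans s2).trans s3
  intro x y
  exact (hroot' _ x le_rfl).trans (hroot' _ y le_rfl).symm

end H93HD
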