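import Pool.Agent.H93HD.Defs

/-!
# The sum of all initial classes is the indicator of the edge set of `G □ H`
-/

namespace H93HD

open Finset
open scoped Classical

variable {V W : Type*} [Fintype V] [Fintype W]

omit [Fintype W] in
/-- in an enumeration, an edge determines its index -/
theorem enum_index {n : ℕ} (hn : 3 ≤ n) {h : ℕ → W} (henum : Enum n h) {i j : ℕ}
    (hi : i < n) (hj : j < n) (he : s(h i, h (i + 1)) = s(h j, h (j + 1))) : i = j := by
  rcases Sym2.eq_iff.1 he with ⟨h1, -⟩ | ⟨h1, h2⟩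
  · have := (henum.1 i j).1 h1
    exact Nat.ModEq.eq_of_lt_of_lt this hi hj
  · have h3 := (henum.1 _ _).1 h1
    have h4 := (henum.1 _ _).1 h2
    -- `i ≡ j + 1`, `i + 1 ≡ j`
    have h5 : i + 1 + 1 ≡ i [MOD n] := (h4.add_right 1).trans h3.symm
    have h6 : 2 ≡ 0 [MOD n] := by
      have h7 : i + 2 ≡ i + 0 [MOD n] := h5
      exact Nat.ModEq.add_left_cancel' i h7
    have h7 : n ∣ 2 := (Nat.modEq_zero_iff_dvd).1 h6
    exact absurd (Nat.le_of_dvd (by norm_num) h7) (by omega)

theorem sum_rows_cols (G : SimpleGraph V) (H : SimpleGraph W) (k n : ℕ) (hn : 3 ≤ n)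
    (σ : Fin k → Equiv.Perm V) (h : Fin k → ℕ → W) (henum : ∀ m, Enum n (h m))
    (hG : ∀ u v, G.Adj u v → ∃! p : Fin k × V, s(p.2, σ p.1 p.2) = s(u, v))
    (hH : ∀ x y, H.Adj x y → ∃! m : Fin k, ∃ i < n, s(x, y) = s(h m i, h m (i + 1)))
    (hσ : ∀ m v, σ m (σ m v) ≠ v) (e : Sym2 (V × W)) (he : e ∈ (G □ H).edgeSet) :
    ∑ m, (rows (σ m) e + cols n (h m) e) = 1 := by
  induction e using Sym2.ind with
  | _ a b =>
  obtain ⟨u, w⟩ := a
  obtain ⟨u', w'⟩ := b
  rw [SimpleGraph.mem_edgeSet, SimpleGraph.boxProd_adj] at he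
  rcases he with ⟨hu, hw⟩ | ⟨hw, hu⟩
  · -- horizontal edge
    change G.Adj u u' at hu
    change w = w' at hw
    subst hw
    have h1 : ∀ m, cols n (h m) s((u, w), (u', w)) = 0 := by
      intro m
      unfold cols
      refine Finset.sum_eq_zero fun v _ => Finset.sum_eq_zero fun i _ => ?_
      rw [ind_eq_zero]
      intro h2
      rcases Sym2.eq_iff.1 h2 with ⟨h3, h4⟩ | ⟨h3, h4⟩
      · have e1 := congrArg Prod.fst h3
        have e2 := congrArg Prod.fst h4
        exact hu.ne (e1.trans e2.symm)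
      · have e1 := congrArg Prod.fst h3
        have e2 := congrArg Prod.fst h4
        exact hu.ne (e1.trans e2.symm)
    have h2 : ∀ m, rows (σ m) s((u, w), (u', w)) =
        ∑ v, if s(v, σ m v) = s(u, u') then (1 : ZMod 2) else 0 := by
      intro m
      unfold rows
      refine Finset.sum_congr rfl fun v _ => ?_
      rw [Finset.sum_eq_single w]
      · unfold ind
        congr 1
        rw [eq_iff_iff]
        constructor
        · intro h3
          rcases Sym2.eq_iff.1 h3 with ⟨h3, h4⟩ | ⟨h3, h4⟩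
          · have e1 := congrArg Prod.fst h3
            have e2 := congrArg Prod.fst h4
            exact Sym2.eq_iff.2 (Or.inl ⟨e1.symm, e2.symm⟩)
          · have e1 := congrArg Prod.fst h3
            have e2 := congrArg Prod.fst h4
            exact Sym2.eq_iff.2 (Or.inr ⟨e2.symm, e1.symm⟩)
        · intro h3
          rcases Sym2.eq_iff.1 h3 with ⟨h3, h4⟩ | ⟨h3, h4⟩
          · rw [h4, h3]
          · rw [h4, h3, Sym2.eq_swap]
      · intro w' _ hw'
        rw [ind_eq_zero]
        intro h3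
        rcases Sym2.eq_iff.1 h3 with ⟨h3, h4⟩ | ⟨h3, h4⟩
        · exact hw' (congrArg Prod.snd h3).symm
        · exact hw' (congrArg Prod.snd h3).symm
      · intro h3
        exact absurd (Finset.mem_univ _) h3
    simp only [h1, h2, add_zero]
    obtain ⟨p, hp, hp2⟩ := hG u u' hu
    have h3 : (∑ m, ∑ v, if s(v, σ m v) = s(u, u') then (1 : ZMod 2) else 0) =
        ∑ q : Fin k × V, if s(q.2, σ q.1 q.2) = s(u, u') then (1 : ZMod 2) else 0 := by
      rw [Fintype.sum_prod_type]
    rw [h3, Finset.sum_eq_single p, if_pos hp]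
    · intro q _ hq
      rw [if_neg]
      intro h4
      exact hq (hp2 q h4)
    · intro h4
      exact absurd (Finset.mem_univ _) h4
  · -- vertical edge
    change H.Adj w w' at hw
    change u = u' at hu
    subst hu
    have h1 : ∀ m, rows (σ m) s((u, w), (u, w')) = 0 := by
      intro m
      unfold rows
      refine Finset.sum_eq_zero fun v _ => Finset.sum_eq_zero fun x _ => ?_
      rw [ind_eq_zero]
      intro h2
      rcases Sym2.eq_iff.1 h2 with ⟨h3, h4⟩ | ⟨h3, h4⟩
      · have e1 := congrArg Prod.snd h3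
        have e2 := congrArg Prod.snd h4
        exact hw.ne (e1.trans e2.symm)
      · have e1 := congrArg Prod.snd h3
        have e2 := congrArg Prod.snd h4
        exact hw.ne (e1.trans e2.symm)
    have h2 : ∀ m, cols n (h m) s((u, w), (u, w')) =
        ∑ i ∈ range n, if s(w, w') = s(h m i, h m (i + 1)) then (1 : ZMod 2) else 0 := by
      intro m
      unfold cols
      rw [Finset.sum_eq_single u]
      · refine Finset.sum_congr rfl fun i _ => ?_
        unfold ind
        congr 1
        rw [eq_iff_iff]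
        constructor
        · intro h3
          rcases Sym2.eq_iff.1 h3 with ⟨h3, h4⟩ | ⟨h3, h4⟩
          · have e1 := congrArg Prod.snd h3
            have e2 := congrArg Prod.snd h4
            exact Sym2.eq_iff.2 (Or.inl ⟨e1, e2⟩)
          · have e1 := congrArg Prod.snd h3
            have e2 := congrArg Prod.snd h4
            exact Sym2.eq_iff.2 (Or.inr ⟨e1, e2⟩)
        · intro h3
          rcases Sym2.eq_iff.1 h3 with ⟨h3, h4⟩ | ⟨h3, h4⟩
          · rw [h3, h4]
          · rw [h3, h4, Sym2.eq_swap]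
      · intro v _ hv
        refine Finset.sum_eq_zero fun i _ => ?_
        rw [ind_eq_zero]
        intro h3
        rcases Sym2.eq_iff.1 h3 with ⟨h3, h4⟩ | ⟨h3, h4⟩
        · exact hv (congrArg Prod.fst h3).symm
        · exact hv (congrArg Prod.fst h3).symm
      · intro h3
        exact absurd (Finset.mem_univ _) h3
    simp only [h1, h2, zero_add]
    obtain ⟨m, ⟨i, hi, him⟩, hm2⟩ := hH w w' hw
    rw [Finset.sum_eq_single m, Finset.sum_eq_single i, if_pos him]
    · intro j hj hji
      rw [if_neg]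
      intro h4
      exact hji (enum_index hn (henum m) (Finset.mem_range.1 hj) hi (h4.symm.trans him))
    · intro h4
      exact absurd (Finset.mem_range.2 hi) h4
    · intro m' _ hm'
      refine Finset.sum_eq_zero fun j hj => ?_
      rw [if_neg]
      intro h4
      exact hm' (hm2 m' ⟨j, Finset.mem_range.1 hj, h4⟩)
    · intro h4
      exact absurd (Finset.mem_univ _) h4

/-- all toggled edges are edges of `G □ H` -/
theorem psq_support (G : SimpleGraph V) (H : SimpleGraph W) {u u' : V} {x y : W}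
    (hu : G.Adj u u') (hx : H.Adj x y) (e : Sym2 (V × W)) (he : psq u u' x y e ≠ 0) :
    e ∈ (G □ H).edgeSet := by
  by_contra h
  apply he
  unfold psq sq
  have h1 : ind (u, x) (u', x) e = 0 := by
    rw [ind_eq_zero]
    rintro rfl
    exact h (by rw [SimpleGraph.mem_edgeSet, SimpleGraph.boxProd_adj]; exact Or.inl ⟨hu, rfl⟩)
  have h2 : ind (u, y) (u', y) e = 0 := by
    rw [ind_eq_zero]
    rintro rfl
    exact h (by rw [SimpleGraph.mem_edgeSet, SimpleGraph.boxProd_adj]; exact Or.inl ⟨hu, rfl⟩)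
  have h3 : ind (u, x) (u, y) e = 0 := by
    rw [ind_eq_zero]
    rintro rfl
    exact h (by rw [SimpleGraph.mem_edgeSet, SimpleGraph.boxProd_adj]; exact Or.inr ⟨hx, rfl⟩)
  have h4 : ind (u', x) (u', y) e = 0 := by
    rw [ind_eq_zero]
    rintro rfl
    exact h (by rw [SimpleGraph.mem_edgeSet, SimpleGraph.boxProd_adj]; exact Or.inr ⟨hx, rfl⟩)
  rw [h1, h2, h3, h4]
  rfl

theorem rows_support (G : SimpleGraph V) (H : SimpleGraph W) (σ : Equiv.Perm V)
    (hσ : ∀ v, G.Adj v (σ v)) (e : Sym2 (V × W)) (he : rows (W := W) σ e ≠ 0) :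
    e ∈ (G □ H).edgeSet := by
  by_contra h
  apply he
  unfold rows
  refine Finset.sum_eq_zero fun v _ => Finset.sum_eq_zero fun w _ => ?_
  rw [ind_eq_zero]
  rintro rfl
  exact h (by rw [SimpleGraph.mem_edgeSet, SimpleGraph.boxProd_adj]; exact Or.inl ⟨hσ v, rfl⟩)

theorem cols_support (G : SimpleGraph V) (H : SimpleGraph W) (n : ℕ) (h : ℕ → W)
    (hh : ∀ i, H.Adj (h i) (h (i + 1))) (e : Sym2 (V × W)) (he : cols (V := V) n h e ≠ 0) :
    e ∈ (G □ H).edgeSet := by
  by_contra h'
  apply he
  unfold cols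
  refine Finset.sum_eq_zero fun v _ => Finset.sum_eq_zero fun i _ => ?_
  rw [ind_eq_zero]
  rintro rfl
  exact h' (by rw [SimpleGraph.mem_edgeSet, SimpleGraph.boxProd_adj]; exact Or.inr ⟨hh i, rfl⟩)

/-- the degree of `G □ H` -/
theorem boxProd_degree (G : SimpleGraph V) (H : SimpleGraph W) (k : ℕ)
    (hG : ∀ v, (G.neighborSet v).ncard = 2 * k) (hH : ∀ w, (H.neighborSet w).ncard = 2 * k)
    (x : V × W) : ((G □ H).neighborSet x).ncard = 2 * (2 * k) := by
  rw [SimpleGraph.neighborSet_boxProd, Set.ncard_union_eq _ (Set.toFinite _) (Set.toFinite _),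
    Set.ncard_prod, Set.ncard_prod, hG, hH, Set.ncard_singleton, Set.ncard_singleton]
  · ring
  · rw [Set.disjoint_left]
    rintro ⟨a, b⟩ ⟨h1, h2⟩ ⟨h3, h4⟩
    have h5 : a = x.1 := h3
    subst h5
    exact G.loopless.irrefl _ h1

/-- the union of `k` edge-disjoint enumerated Hamiltonian cycles is `2k`-regular -/
theorem enum_degree (H : SimpleGraph W) (k n : ℕ) (hn : 3 ≤ n) (h : Fin k → ℕ → W)
    (henum : ∀ m, Enum n (h m)) (hadj : ∀ m i, H.Adj (h m i) (h m (i + 1)))
    (hH : ∀ x y, H.Adj x y → ∃! m : Fin k, ∃ i < n, s(x, y) = s(h m i, h m (i + 1)))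
    (w : W) : (H.neighborSet w).ncard = 2 * k := by
  choose ix hix1 hix2 using fun m => (henum m).2 w
  let f : Fin k × Bool → W := fun p => h p.1 (if p.2 then ix p.1 + 1 else ix p.1 + (n - 1))
  have hper : ∀ m i, h m (i + n) = h m i := fun m i =>
    ((henum m).1 _ _).2 (by simp [Nat.ModEq])
  have hmod : ∀ m i, h m (i % n) = h m i := fun m i =>
    ((henum m).1 _ _).2 (Nat.mod_modEq _ _)
  have hmod1 : ∀ m i, h m (i % n + 1) = h m (i + 1) := fun m i =>
    ((henum m).1 _ _).2 ((Nat.mod_modEq _ _).add_right 1)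
  have hn0 : 0 < n := by omega
  -- every edge of cycle `m` has an index
  have hidx : ∀ m i, ∃ j < n, s(h m i, h m (i + 1)) = s(h m j, h m (j + 1)) := fun m i =>
    ⟨i % n, Nat.mod_lt _ hn0, by rw [hmod, hmod1]⟩
  have hf : ∀ p : Fin k × Bool, ∃ i, s(w, f p) = s(h p.1 i, h p.1 (i + 1)) := by
    rintro ⟨m, b⟩
    cases b with
    | true => exact ⟨ix m, by change s(w, h m (ix m + 1)) = _; rw [hix2]⟩
    | false =>
      refine ⟨ix m + (n - 1), ?_⟩
      change s(w, h m (ix m + (n - 1))) = _
      have h1 : ix m + (n - 1) + 1 = ix m + n := by omega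
      rw [h1, hper, hix2, Sym2.eq_swap]
  have hfadj : ∀ p, H.Adj w (f p) := by
    intro p
    obtain ⟨i, hi⟩ := hf p
    have h1 : s(w, f p) ∈ H.edgeSet := by
      rw [hi]
      exact hadj p.1 i
    exact h1
  have hinj : Function.Injective f := by
    intro p q hpq
    obtain ⟨i, hi⟩ := hf p
    obtain ⟨j, hj⟩ := hf q
    obtain ⟨m, -, hm⟩ := hH w (f p) (hfadj p)
    have h1 : p.1 = m := by
      obtain ⟨i', hi', e⟩ := hidx p.1 i
      exact hm p.1 ⟨i', hi', hi.trans e⟩
    have h2 : q.1 = m := by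
      obtain ⟨j', hj', e⟩ := hidx q.1 j
      exact hm q.1 ⟨j', hj', by rw [hpq]; exact hj.trans e⟩
    obtain ⟨p1, p2⟩ := p
    obtain ⟨q1, q2⟩ := q
    change p1 = m at h1
    change q1 = m at h2
    subst h1
    subst h2
    congr 1
    have key : h q1 (ix q1 + 1) ≠ h q1 (ix q1 + (n - 1)) := by
      intro h3
      have h4 := ((henum q1).1 _ _).1 h3
      have h5 := Nat.ModEq.add_left_cancel' _ h4
      have h6 := Nat.ModEq.eq_of_lt_of_lt h5 (by omega) (by omega)
      omega
    cases p2 <;> cases q2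
    · rfl
    · exact absurd hpq.symm key
    · exact absurd hpq key
    · rfl
  have hrange : H.neighborSet w = Set.range f := by
    ext y
    constructor
    · intro hy
      change H.Adj w y at hy
      obtain ⟨m, ⟨i, hi, e⟩, -⟩ := hH w y hy
      rcases Sym2.eq_iff.1 e with ⟨h1, h2⟩ | ⟨h1, h2⟩
      · refine ⟨(m, true), ?_⟩
        change h m (ix m + 1) = y
        rw [h2]
        refine ((henum m).1 _ _).2 (Nat.ModEq.add_right 1 ?_)
        exact ((henum m).1 _ _).1 ((hix2 m).trans h1)
      · refine ⟨(m, false), ?_⟩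
        change h m (ix m + (n - 1)) = y
        rw [h2, ← hper m i]
        have h3 : ix m ≡ i + 1 [MOD n] := ((henum m).1 _ _).1 ((hix2 m).trans h1)
        have h4 : i + n = i + 1 + (n - 1) := by omega
        rw [h4]
        exact ((henum m).1 _ _).2 (h3.add_right _)
    · rintro ⟨p, rfl⟩
      exact hfadj p
  rw [hrange, Set.ncard_eq_toFinset_card', Set.toFinset_range, Finset.card_image_of_injective _ hinj,
    Finset.card_univ, Fintype.card_prod, Fintype.card_fin, Fintype.card_bool, mul_comm]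

end H93HD
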