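import Pool.Agent.H93HD.Schedule

/-!
# Letters and chords of one orbit

The orbit of `c` under `σ`, `S` = crosses incident with the orbit (at the vertex `vS q`, time `α q`),
`T` = crosses hosted by the arc with tail `vT q` of the orbit (chord between rows `α q < β q`).
Choose `p` = size of the orbit, `vS q = σ^(s q) c` with `2 ≤ s q ≤ p + 1`, `vT q = σ^(s q) c` with
`0 ≤ s q ≤ p - 1`, apply `schedule`, and put `e i = σ^(lam (i+1)) c` for `i ∉ Γ = T.image α`,
`e (α q) = vT q`, `b (α q) = β q` for `q ∈ T`, `b i = i + 1` for `i ∉ Γ`.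
-/

namespace H93HD

open Finset

private theorem exists_period {V : Type*} [Fintype V] (σ : Equiv.Perm V)
    (hσ : ∀ v, σ (σ v) ≠ v) (c : V) :
    ∃ p : ℕ, 3 ≤ p ∧ p ≤ Fintype.card V ∧ (σ ^ p) c = c ∧
      (∀ x : ℤ, 0 < x → x < p → (σ ^ x) c ≠ c) := by
  classical
  have hex : ∃ n : ℕ, 0 < n ∧ (σ ^ n) c = c :=
    ⟨orderOf σ, orderOf_pos σ, by rw [pow_orderOf_eq_one]; rfl⟩
  obtain ⟨hp0, hpc⟩ := Nat.find_spec hex
  set p := Nat.find hex with hp
  have hmin : ∀ n : ℕ, 0 < n → n < p → (σ ^ n) c ≠ c := fun n h0 hn h =>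
    Nat.find_min hex hn ⟨h0, h⟩
  have hminZ : ∀ x : ℤ, 0 < x → x < p → (σ ^ x) c ≠ c := by
    intro x h0 hx
    obtain ⟨n, rfl⟩ := Int.eq_ofNat_of_zero_le h0.le
    rw [zpow_natCast]
    exact hmin n (by exact_mod_cast h0) (by exact_mod_cast hx)
  refine ⟨p, ?_, ?_, hpc, hminZ⟩
  · by_contra hlt
    have h1 : p ≠ 1 := by
      intro h
      rw [h, pow_one] at hpc
      apply hσ c
      rw [hpc, hpc]
    have h2 : p ≠ 2 := by
      intro h
      rw [h, pow_two] at hpc
      exact hσ c hpc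
    omega
  · have hinj : Function.Injective (fun i : Fin p => (σ ^ (i : ℕ)) c) := by
      have key : ∀ i j : ℕ, i < j → j < p → (σ ^ i) c ≠ (σ ^ j) c := by
        intro i j hij hj h
        apply hmin (j - i) (by omega) (by omega)
        apply (σ ^ i).injective
        rw [← Equiv.Perm.mul_apply, ← pow_add, show i + (j - i) = j by omega]
        exact h.symm
      intro i j h
      rcases lt_trichotomy i.1 j.1 with h1 | h1 | h1
      · exact absurd h (key _ _ h1 j.2)
      · exact Fin.ext h1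
      · exact absurd h.symm (key _ _ h1 i.2)
    have := Fintype.card_le_of_injective _ hinj
    simpa using this

theorem orbit_letters {V ι : Type*} [Fintype V] [DecidableEq ι] (σ : Equiv.Perm V)
    (hσ : ∀ v, σ (σ v) ≠ v) (c : V) (n R : ℕ) (hR : Fintype.card V + 4 ≤ R) (hn : Even n)
    (hnR : 2 * R + 2 ≤ n)
    (S T : Finset ι) (hST : Disjoint S T) (hT : Even T.card)
    (α β : ι → ℕ) (ty : ι → Bool) (vS vT : ι → V)
    (hvS : ∀ q ∈ S, σ.SameCycle c (vS q)) (hvT : ∀ q ∈ T, σ.SameCycle c (vT q))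
    (hrange : ∀ q ∈ S ∪ T, R ≤ α q ∧ α q + R + 1 ≤ n ∧ R ≤ β q ∧ β q + R + 1 ≤ n)
    (hsep : ∀ q ∈ S ∪ T, ∀ q' ∈ S ∪ T, q ≠ q' →
      ∀ x ∈ ({α q, β q} : Finset ℕ), ∀ y ∈ ({α q', β q'} : Finset ℕ), x + R ≤ y ∨ y + R ≤ x)
    (hTlt : ∀ q ∈ T, α q + 2 ≤ β q) :
    ∃ (p : ℕ) (lam : ℕ → ℤ) (e : ℕ → V) (b : ℕ → ℕ),
      3 ≤ p ∧ (σ ^ p) c = c ∧ (∀ x : ℤ, 0 < x → x < p → (σ ^ x) c ≠ c) ∧
      lam 1 = 0 ∧
      (∀ i, 1 ≤ i → i < n - 1 → i ∉ T.image α → (lam (i + 1) = lam i + 1 ∨ lam (i + 1) = lam i - 1)) ∧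
      (∀ i, 1 ≤ i → i < n - 1 → i ∈ T.image α → lam (i + 1) = lam i) ∧
      lam (n - 1) = (if Even p then (p : ℤ) - 2 else (p : ℤ) - 1) ∧
      (∀ i, σ.SameCycle c (e i)) ∧
      (∀ i < n - 1, i ∉ T.image α → e i = (σ ^ (lam (i + 1))) c) ∧
      (∀ q ∈ T, e (α q) = vT q ∧ b (α q) = β q) ∧
      (∀ i, i ∉ T.image α → b i = i + 1) ∧
      (∀ i < n - 1, i < b i ∧ b i < n) ∧
      (∀ i < n - 1, b i < n - 1 → e i ≠ e (b i)) ∧
      (∀ i < n - 1, ∀ j < n - 1, i ≠ j → b i = b j → e i ≠ e j) ∧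
      (∀ q ∈ S, α q ∉ T.image α) ∧
      (∀ q ∈ S, ty q = true → (vS q = e (α q) ∨ vS q = σ (e (α q)))) ∧
      (∀ q ∈ S, ty q = false → (vS q ≠ e (α q) ∧ vS q ≠ σ (e (α q)))) := by
  classical
  obtain ⟨p, hp3, hpV, hpc, hmin⟩ := exists_period σ hσ c
  have hppos : (0 : ℤ) < p := by exact_mod_cast (by omega : 0 < p)
  -- periodicity
  have hper : ∀ x : ℤ, ∀ k : ℤ, (σ ^ (x + p * k)) c = (σ ^ x) c := by
    intro x k
    have h1 : (σ ^ ((p : ℤ) * k)) c = c := by
      have h2 : (σ ^ (p : ℤ)) c = c := by rw [zpow_natCast]; exact hpc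
      rw [zpow_mul]
      exact Equiv.Perm.zpow_apply_eq_self_of_apply_eq_self h2 k
    rw [zpow_add, Equiv.Perm.mul_apply, h1]
  -- different exponents
  have hne : ∀ x y : ℤ, 0 < y - x → y - x < p → (σ ^ x) c ≠ (σ ^ y) c := by
    intro x y h0 h1 h
    apply hmin (y - x) h0 h1
    apply (σ ^ x).injective
    rw [← Equiv.Perm.mul_apply, ← zpow_add, show x + (y - x) = y by ring]
    exact h.symm
  have hp3' : (3 : ℤ) ≤ p := by exact_mod_cast hp3
  -- exponents
  have hexS : ∀ q, ∃ s : ℤ, q ∈ S → (2 ≤ s ∧ s ≤ p + 1 ∧ (σ ^ s) c = vS q) := by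
    intro q
    by_cases hq : q ∈ S
    · obtain ⟨i, hi⟩ := hvS q hq
      refine ⟨2 + (i - 2) % p, fun _ => ⟨?_, ?_, ?_⟩⟩
      · have := Int.emod_nonneg (i - 2) hppos.ne'
        linarith
      · have := Int.emod_lt_of_pos (i - 2) hppos
        linarith
      · rw [← hi]
        have h1 := Int.emod_add_mul_ediv (i - 2) p
        have h2 : i = (2 + (i - 2) % p) + p * ((i - 2) / p) := by linarith
        conv_rhs => rw [h2]
        rw [hper]
    · exact ⟨0, fun h => absurd h hq⟩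
  have hexT : ∀ q, ∃ s : ℤ, q ∈ T → (0 ≤ s ∧ s ≤ p - 1 ∧ (σ ^ s) c = vT q) := by
    intro q
    by_cases hq : q ∈ T
    · obtain ⟨i, hi⟩ := hvT q hq
      refine ⟨i % p, fun _ => ⟨?_, ?_, ?_⟩⟩
      · exact Int.emod_nonneg i hppos.ne'
      · have := Int.emod_lt_of_pos i hppos
        linarith
      · rw [← hi]
        have h1 := Int.emod_add_mul_ediv i p
        have h2 : i = (i % p) + p * (i / p) := by linarith
        conv_rhs => rw [h2]
        rw [hper]
    · exact ⟨0, fun h => absurd h hq⟩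
  choose sS hsS using hexS
  choose sT hsT using hexT
  set s : ι → ℤ := fun q => if q ∈ S then sS q else sT q with hs
  have hsS' : ∀ q ∈ S, 2 ≤ s q ∧ s q ≤ p + 1 ∧ (σ ^ (s q)) c = vS q := by
    intro q hq
    have h1 : s q = sS q := by rw [hs]; simp [hq]
    rw [h1]
    exact hsS q hq
  have hsT' : ∀ q ∈ T, 0 ≤ s q ∧ s q ≤ p - 1 ∧ (σ ^ (s q)) c = vT q := by
    intro q hq
    have hqS : q ∉ S := fun h => (Finset.disjoint_left.1 hST h) hq
    have h1 : s q = sT q := by rw [hs]; simp [hqS]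
    rw [h1]
    exact hsT q hq
  obtain ⟨lam, hl1, hstep, hgap, hlast, hSt, hSf, hTl⟩ := schedule n p R hp3 (by omega) hn hnR S T hST
    hT α β s ty hrange hsep hTlt (fun q hq => ⟨(hsS' q hq).1, (hsS' q hq).2.1⟩)
    (fun q hq => ⟨(hsT' q hq).1, (hsT' q hq).2.1⟩)
  have hRpos : 0 < R := by omega
  -- injectivity of `α` on `T`
  have hαinj : ∀ q ∈ T, ∀ q' ∈ T, α q = α q' → q = q' := by
    intro q hq q' hq' h
    by_contra hne'
    rcases hsep q (Finset.mem_union_right _ hq) q' (Finset.mem_union_right _ hq') hne' (α q)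
      (by simp) (α q') (by simp) with h1 | h1 <;> omega
  have hβnot : ∀ q ∈ T, β q ∉ T.image α := by
    intro q hq hmem
    obtain ⟨q', hq', h⟩ := Finset.mem_image.1 hmem
    by_cases hqq : q = q'
    · subst hqq
      have := hTlt q hq
      omega
    · rcases hsep q (Finset.mem_union_right _ hq) q' (Finset.mem_union_right _ hq') hqq (β q)
        (by simp) (α q') (by simp) with h1 | h1 <;> omega
  have hSnot : ∀ q ∈ S, α q ∉ T.image α := by
    intro q hq hmem
    obtain ⟨q', hq', h⟩ := Finset.mem_image.1 hmem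
    have hqq : q ≠ q' := by
      rintro rfl
      exact (Finset.disjoint_left.1 hST hq) hq'
    rcases hsep q (Finset.mem_union_left _ hq) q' (Finset.mem_union_right _ hq') hqq (α q)
      (by simp) (α q') (by simp) with h1 | h1 <;> omega
  -- choice of the request of a gap
  have hgq : ∀ i, ∃ q : Option ι, (i ∈ T.image α → ∃ q' ∈ T, q = some q' ∧ α q' = i) := by
    intro i
    by_cases hi : i ∈ T.image α
    · obtain ⟨q', hq', h⟩ := Finset.mem_image.1 hi
      exact ⟨some q', fun _ => ⟨q', hq', rfl, h⟩⟩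
    · exact ⟨none, fun h => absurd h hi⟩
  choose g hg using hgq
  have hgα : ∀ q ∈ T, g (α q) = some q := by
    intro q hq
    obtain ⟨q', hq', h1, h2⟩ := hg (α q) (Finset.mem_image_of_mem _ hq)
    rw [h1, hαinj q' hq' q hq h2]
  set e : ℕ → V := fun i => if i ∈ T.image α then (g i).elim c vT else (σ ^ (lam (i + 1))) c with he
  set b : ℕ → ℕ := fun i => if i ∈ T.image α then (g i).elim (i + 1) β else i + 1 with hb
  have heT : ∀ q ∈ T, e (α q) = vT q := by
    intro q hq
    simp only [he]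
    rw [if_pos (Finset.mem_image_of_mem _ hq), hgα q hq]
    rfl
  have hbT : ∀ q ∈ T, b (α q) = β q := by
    intro q hq
    simp only [hb]
    rw [if_pos (Finset.mem_image_of_mem _ hq), hgα q hq]
    rfl
  have heN : ∀ i, i ∉ T.image α → e i = (σ ^ (lam (i + 1))) c := by
    intro i hi
    simp only [he]
    rw [if_neg hi]
  have hbN : ∀ i, i ∉ T.image α → b i = i + 1 := by
    intro i hi
    simp only [hb]
    rw [if_neg hi]
  -- the letters near a gap
  have hneT : ∀ q ∈ T, ∀ t ∈ ({α q, β q, β q + 1} : Finset ℕ), (σ ^ (lam t)) c ≠ vT q := by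
    intro q hq t ht h
    rw [← (hsT' q hq).2.2] at h
    rcases hTl q hq t ht with h1 | h1
    · exact hne (s q) (lam t) (by rw [h1]; linarith) (by rw [h1]; linarith) h.symm
    · exact hne (s q) (lam t) (by rw [h1]; linarith) (by rw [h1]; linarith) h.symm
  refine ⟨p, lam, e, b, hp3, hpc, hmin, hl1, hstep, hgap, hlast, ?_, fun i _ hi => heN i hi,
    fun q hq => ⟨heT q hq, hbT q hq⟩, hbN, ?_, ?_, ?_, hSnot, ?_, ?_⟩
  · intro i
    by_cases hi : i ∈ T.image α
    · obtain ⟨q, hq, rfl⟩ := Finset.mem_image.1 hi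
      rw [heT q hq]
      exact hvT q hq
    · rw [heN i hi]
      exact ⟨lam (i + 1), rfl⟩
  · intro i hi
    by_cases hi' : i ∈ T.image α
    · obtain ⟨q, hq, rfl⟩ := Finset.mem_image.1 hi'
      rw [hbT q hq]
      have h1 := hTlt q hq
      have h2 := hrange q (Finset.mem_union_right _ hq)
      omega
    · rw [hbN i hi']
      omega
  · intro i hi hbi
    by_cases hi' : i ∈ T.image α
    · obtain ⟨q, hq, rfl⟩ := Finset.mem_image.1 hi'
      rw [heT q hq, hbT q hq, heN _ (hβnot q hq)]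
      exact (hneT q hq (β q + 1) (by simp)).symm
    · rw [hbN i hi'] at hbi ⊢
      rw [heN i hi']
      by_cases hi1 : i + 1 ∈ T.image α
      · obtain ⟨q, hq, hqi⟩ := Finset.mem_image.1 hi1
        rw [← hqi, heT q hq]
        exact hneT q hq (α q) (by simp)
      · rw [heN _ hi1]
        rcases hstep (i + 1) (by omega) hbi hi1 with h1 | h1
        · exact hne _ _ (by rw [h1]; linarith) (by rw [h1]; linarith)
        · exact (hne _ _ (by rw [h1]; linarith) (by rw [h1]; linarith)).symm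
  · intro i hi j hj hij hbij
    by_cases hi' : i ∈ T.image α
    · obtain ⟨q, hq, rfl⟩ := Finset.mem_image.1 hi'
      by_cases hj' : j ∈ T.image α
      · obtain ⟨q', hq', rfl⟩ := Finset.mem_image.1 hj'
        rw [hbT q hq, hbT q' hq'] at hbij
        exfalso
        have hqq : q ≠ q' := by rintro rfl; exact hij rfl
        rcases hsep q (Finset.mem_union_right _ hq) q' (Finset.mem_union_right _ hq') hqq (β q)
          (by simp) (β q') (by simp) with h1 | h1 <;> omega
      · rw [hbT q hq, hbN j hj'] at hbij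
        rw [heT q hq, heN j hj', ← hbij]
        exact (hneT q hq (β q) (by simp)).symm
    · by_cases hj' : j ∈ T.image α
      · obtain ⟨q', hq', rfl⟩ := Finset.mem_image.1 hj'
        rw [hbT q' hq', hbN i hi'] at hbij
        rw [heT q' hq', heN i hi', hbij]
        exact hneT q' hq' (β q') (by simp)
      · rw [hbN i hi', hbN j hj'] at hbij
        omega
  · intro q hq hty
    have h1 := (hsS' q hq).2.2
    rw [heN _ (hSnot q hq), ← h1]
    rcases hSt q hq hty with h2 | h2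
    · right
      rw [h2, ← Equiv.Perm.mul_apply, ← zpow_one_add, show 1 + (s q - 1) = s q by ring]
    · left
      rw [h2]
  · intro q hq hty
    have h1 := (hsS' q hq).2.2
    rw [heN _ (hSnot q hq), ← h1, ← Equiv.Perm.mul_apply, ← zpow_one_add]
    rcases hSf q hq hty with h2 | h2
    · rw [h2]
      exact ⟨(hne _ _ (by linarith) (by linarith)).symm, (hne _ _ (by linarith) (by linarith)).symm⟩
    · rw [h2]
      exact ⟨hne _ _ (by linarith) (by linarith), hne _ _ (by linarith) (by linarith)⟩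

end H93HD
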