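import Pool.Agent.H93HD.Defs

/-!
# Greedy placement of the crosses
-/

namespace H93HD

open Finset

private lemma card_filter_le {W : Type*} [Fintype W] (f : W → ℕ) (hf : Function.Injective f)
    (S : Finset ℕ) (P : W → Prop) [DecidablePred P] (h : ∀ x, P x → f x ∈ S) :
    (univ.filter P).card ≤ S.card := by
  apply Finset.card_le_card_of_injOn f
  · intro x hx
    have hx' : P x := by simpa using hx
    exact h x hx'
  · exact hf.injOn

/-- positions `pos m : W → {0..n-1}` (injective), successor maps `τ m` (injective).  One can choose `w q`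
for `q ∈ Q` (`|Q| ≤ 2 k N`) such that in every class `m` the positions of `w q` and `τ (cls q) (w q)` are
at distance `≥ R` from both ends and from the positions belonging to other `q'`. -/
theorem placement {W ι : Type*} [Fintype W] [DecidableEq W] [DecidableEq ι] (k n N R : ℕ)
    (hR : 1 ≤ R)
    (hcard : Fintype.card W = n) (pos : Fin k → W → ℕ) (hpos : ∀ m, Function.Injective (pos m))
    (hlt : ∀ m x, pos m x < n)
    (τ : Fin k → W → W) (hτ : ∀ m, Function.Injective (τ m)) (cls : ι → Fin k)
    (Q : Finset ι) (hQ : Q.card ≤ 2 * k * N)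
    (hbig : 2 * (k * (2 * R + 4 * k * N * (2 * R))) < n) :
    ∃ w : ι → W, 
      (∀ q ∈ Q, ∀ m, ∀ x ∈ ({w q, τ (cls q) (w q)} : Finset W),
        R ≤ pos m x ∧ pos m x + R + 1 ≤ n) ∧
      (∀ q ∈ Q, ∀ q' ∈ Q, q ≠ q' → ∀ m, ∀ x ∈ ({w q, τ (cls q) (w q)} : Finset W),
        ∀ y ∈ ({w q', τ (cls q') (w q')} : Finset W),
        pos m x + R ≤ pos m y ∨ pos m y + R ≤ pos m x) := by
  classical
  have hne : Nonempty W := by
    rw [← Fintype.card_pos_iff, hcard]
    omega
  induction Q using Finset.induction_on with
  | empty => exact ⟨fun _ => Classical.choice hne, by simp, by simp⟩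
  | insert q Q hq ih =>
    rw [Finset.card_insert_of_notMem hq] at hQ
    obtain ⟨w, h1, h2⟩ := ih (by omega)
    -- the bad sets
    set B1 : Fin k → (W → W) → Finset W := fun m g => univ.filter
      (fun x => ¬ (R ≤ pos m (g x) ∧ pos m (g x) + R + 1 ≤ n)) with hB1
    set B2 : Fin k → (W → W) → W → Finset W := fun m g y => univ.filter
      (fun x => ¬ (pos m (g x) + R ≤ pos m y ∨ pos m y + R ≤ pos m (g x))) with hB2
    have hB1c : ∀ m (g : W → W), Function.Injective g → (B1 m g).card ≤ 2 * R := by
      intro m g hg
      have := card_filter_le (fun x => pos m (g x)) ((hpos m).comp hg)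
        (Finset.range R ∪ Finset.Ico (n - R) n)
        (fun x => ¬ (R ≤ pos m (g x) ∧ pos m (g x) + R + 1 ≤ n)) (by
          intro x hx
          have := hlt m (g x)
          rw [Finset.mem_union, Finset.mem_range, Finset.mem_Ico]
          by_contra hcon
          push Not at hcon
          apply hx
          constructor
          · exact hcon.1
          · by_contra h3
            have := hcon.2 (by omega)
            omega)
      refine le_trans this (le_trans (Finset.card_union_le _ _) ?_)
      rw [Finset.card_range, Nat.card_Ico]
      omega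
    have hB2c : ∀ m (g : W → W) (y : W), Function.Injective g → (B2 m g y).card ≤ 2 * R := by
      intro m g y hg
      have := card_filter_le (fun x => pos m (g x)) ((hpos m).comp hg)
        (Finset.Ico (pos m y + 1 - R) (pos m y + R))
        (fun x => ¬ (pos m (g x) + R ≤ pos m y ∨ pos m y + R ≤ pos m (g x))) (by
          intro x hx
          push Not at hx
          rw [Finset.mem_Ico]
          omega)
      refine le_trans this ?_
      rw [Nat.card_Ico]
      omega
    set Bad : Finset W := univ.biUnion (fun m : Fin k => (B1 m id ∪ B1 m (τ (cls q))) ∪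
      Q.biUnion (fun q' => (B2 m id (w q') ∪ B2 m id (τ (cls q') (w q'))) ∪
        (B2 m (τ (cls q)) (w q') ∪ B2 m (τ (cls q)) (τ (cls q') (w q'))))) with hBad
    have hBadc : Bad.card ≤ k * (4 * R + (2 * k * N) * (8 * R)) := by
      have hone : ∀ m ∈ (univ : Finset (Fin k)), ((B1 m id ∪ B1 m (τ (cls q))) ∪
          Q.biUnion (fun q' => (B2 m id (w q') ∪ B2 m id (τ (cls q') (w q'))) ∪
          (B2 m (τ (cls q)) (w q') ∪ B2 m (τ (cls q)) (τ (cls q') (w q'))))).card ≤
          4 * R + (2 * k * N) * (8 * R) := by
        intro m _
        have e1 := hB1c m id Function.injective_id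
        have e2 := hB1c m (τ (cls q)) (hτ _)
        have e3 : (Q.biUnion (fun q' => (B2 m id (w q') ∪ B2 m id (τ (cls q') (w q'))) ∪
          (B2 m (τ (cls q)) (w q') ∪ B2 m (τ (cls q)) (τ (cls q') (w q'))))).card ≤
            Q.card * (8 * R) := by
          apply Finset.card_biUnion_le_card_mul
          intro q' _
          have f1 := hB2c m id (w q') Function.injective_id
          have f2 := hB2c m id (τ (cls q') (w q')) Function.injective_id
          have f3 := hB2c m (τ (cls q)) (w q') (hτ _)
          have f4 := hB2c m (τ (cls q)) (τ (cls q') (w q')) (hτ _)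
          have g1 := Finset.card_union_le (B2 m id (w q')) (B2 m id (τ (cls q') (w q')))
          have g2 := Finset.card_union_le (B2 m (τ (cls q)) (w q'))
            (B2 m (τ (cls q)) (τ (cls q') (w q')))
          have g3 := Finset.card_union_le (B2 m id (w q') ∪ B2 m id (τ (cls q') (w q')))
            (B2 m (τ (cls q)) (w q') ∪ B2 m (τ (cls q)) (τ (cls q') (w q')))
          omega
        have e4 : Q.card * (8 * R) ≤ (2 * k * N) * (8 * R) :=
          Nat.mul_le_mul_right _ (by omega)
        have g1 := Finset.card_union_le (B1 m id) (B1 m (τ (cls q)))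
        have g2 := Finset.card_union_le (B1 m id ∪ B1 m (τ (cls q)))
          (Q.biUnion (fun q' => (B2 m id (w q') ∪ B2 m id (τ (cls q') (w q'))) ∪
          (B2 m (τ (cls q)) (w q') ∪ B2 m (τ (cls q)) (τ (cls q') (w q')))))
        omega
      have := Finset.card_biUnion_le_card_mul (univ : Finset (Fin k)) _ _ hone
      rw [Finset.card_univ, Fintype.card_fin] at this
      exact this
    have hlt' : Bad.card < (univ : Finset W).card := by
      rw [Finset.card_univ, hcard]
      refine lt_of_le_of_lt hBadc ?_
      have e : k * (4 * R + (2 * k * N) * (8 * R)) = 2 * (k * (2 * R + 4 * k * N * (2 * R))) := by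
        ring
      rw [e]
      exact hbig
    obtain ⟨x0, -, hx0⟩ := Finset.exists_mem_notMem_of_card_lt_card hlt'
    have hx1 : ∀ m, ∀ g : W → W, (g = id ∨ g = τ (cls q)) →
        (R ≤ pos m (g x0) ∧ pos m (g x0) + R + 1 ≤ n) := by
      intro m g hg
      by_contra hcon
      apply hx0
      rw [hBad, Finset.mem_biUnion]
      refine ⟨m, Finset.mem_univ _, Finset.mem_union_left _ ?_⟩
      rcases hg with rfl | rfl
      · exact Finset.mem_union_left _ (by rw [hB1]; simpa using hcon)
      · exact Finset.mem_union_right _ (by rw [hB1]; simpa using hcon)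
    have hx2 : ∀ m, ∀ g : W → W, (g = id ∨ g = τ (cls q)) → ∀ q' ∈ Q, ∀ y : W,
        (y = w q' ∨ y = τ (cls q') (w q')) →
        (pos m (g x0) + R ≤ pos m y ∨ pos m y + R ≤ pos m (g x0)) := by
      intro m g hg q' hq' y hy
      by_contra hcon
      have hmem : x0 ∈ B2 m g y := by
        rw [hB2]
        simpa using hcon
      apply hx0
      rw [hBad, Finset.mem_biUnion]
      refine ⟨m, Finset.mem_univ _, Finset.mem_union_right _ ?_⟩
      rw [Finset.mem_biUnion]
      refine ⟨q', hq', ?_⟩
      rcases hg with rfl | rfl
      · rcases hy with rfl | rfl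
        · exact Finset.mem_union_left _ (Finset.mem_union_left _ hmem)
        · exact Finset.mem_union_left _ (Finset.mem_union_right _ hmem)
      · rcases hy with rfl | rfl
        · exact Finset.mem_union_right _ (Finset.mem_union_left _ hmem)
        · exact Finset.mem_union_right _ (Finset.mem_union_right _ hmem)
    have hup : ∀ q' ∈ Q, Function.update w q x0 q' = w q' := by
      intro q' hq'
      apply Function.update_of_ne
      rintro rfl
      exact hq hq'
    have hup0 : Function.update w q x0 q = x0 := Function.update_self _ _ _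
    refine ⟨Function.update w q x0, ?_, ?_⟩
    · intro q' hq' m x hx
      rcases Finset.mem_insert.1 hq' with rfl | hq'
      · rw [hup0, Finset.mem_insert, Finset.mem_singleton] at hx
        rcases hx with rfl | rfl
        · exact hx1 m id (Or.inl rfl)
        · exact hx1 m _ (Or.inr rfl)
      · rw [hup q' hq'] at hx
        exact h1 q' hq' m x hx
    · intro a ha b hb hab m x hx y hy
      rcases Finset.mem_insert.1 ha with ha' | ha'
      · rcases Finset.mem_insert.1 hb with hb' | hb'
        · exact absurd (ha'.trans hb'.symm) hab
        · subst ha'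
          rw [hup0, Finset.mem_insert, Finset.mem_singleton] at hx
          rw [hup b hb', Finset.mem_insert, Finset.mem_singleton] at hy
          rcases hx with rfl | rfl
          · exact hx2 m id (Or.inl rfl) b hb' y hy
          · exact hx2 m _ (Or.inr rfl) b hb' y hy
      · rcases Finset.mem_insert.1 hb with hb' | hb'
        · subst hb'
          rw [hup0, Finset.mem_insert, Finset.mem_singleton] at hy
          rw [hup a ha', Finset.mem_insert, Finset.mem_singleton] at hx
          rcases hy with rfl | rfl
          · exact (hx2 m id (Or.inl rfl) a ha' x hx).symm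
          · exact (hx2 m _ (Or.inr rfl) a ha' x hx).symm
        · rw [hup a ha'] at hx
          rw [hup b hb'] at hy
          exact h2 a ha' b hb' hab m x hx y hy

end H93HD
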