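import Pool.Agent.H93HD.TreeOrder
import Pool.Agent.H93HD.OrbitLetters
import Pool.Agent.H93HD.Placement
import Pool.Agent.H93HD.AClass
import Pool.Agent.H93HD.BClass
import Pool.Agent.H93HD.EdgeSum

/-!
# Assembly: the final classes
-/

namespace H93HD

open Finset
open scoped Classical

variable {V W : Type*} [Fintype V] [Fintype W]

theorem exists_rep (σ : Equiv.Perm V) : ∃ rep : V → V, IsRep σ rep := by
  refine ⟨fun v => Quotient.out (Quotient.mk (Equiv.Perm.SameCycle.setoid σ) v), ?_, ?_⟩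
  · intro v v'
    constructor
    · intro h
      have h1 := Quotient.mk_out (s := Equiv.Perm.SameCycle.setoid σ) v
      have h2 := Quotient.mk_out (s := Equiv.Perm.SameCycle.setoid σ) v'
      have h1' : σ.SameCycle (Quotient.out (Quotient.mk (Equiv.Perm.SameCycle.setoid σ) v)) v := h1
      have h2' : σ.SameCycle (Quotient.out (Quotient.mk (Equiv.Perm.SameCycle.setoid σ) v')) v' := h2
      rw [← show Quotient.out (Quotient.mk (Equiv.Perm.SameCycle.setoid σ) v)
        = Quotient.out (Quotient.mk (Equiv.Perm.SameCycle.setoid σ) v') from h] at h2'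
      exact h1'.symm.trans h2'
    · intro h
      have : (Quotient.mk (Equiv.Perm.SameCycle.setoid σ) v) =
          (Quotient.mk (Equiv.Perm.SameCycle.setoid σ) v') := Quotient.sound h
      simp only [this]
  · intro v
    simp only [Quotient.out_eq]

/-- splitting of the links into letters and chords -/
theorem afun_split (σ : Equiv.Perm V) (rep : V → V) (n : ℕ) (h : ℕ → W) (e : V → ℕ → V)
    (b : V → ℕ → ℕ) (Γ : V → Finset ℕ)
    (hb : ∀ c ∈ reps rep, ∀ i, i ∉ Γ c → b c i = i + 1) (ed : Sym2 (V × W)) :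
    Afun σ rep n h e b ed = rows σ ed +
      (∑ c ∈ reps rep, ∑ i ∈ (range (n - 1)).filter (fun i => i ∉ Γ c),
        psq (e c i) (σ (e c i)) (h i) (h (i + 1)) ed) +
      ∑ c ∈ reps rep, ∑ i ∈ (range (n - 1)).filter (fun i => i ∈ Γ c),
        psq (e c i) (σ (e c i)) (h i) (h (b c i)) ed := by
  unfold Afun
  rw [add_assoc, ← Finset.sum_add_distrib]
  congr 1
  refine Finset.sum_congr rfl fun c hc => ?_
  rw [← Finset.sum_filter_add_sum_filter_not (range (n - 1)) (fun i => i ∉ Γ c)]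
  congr 1
  · refine Finset.sum_congr rfl fun i hi => ?_
    rw [hb c hc i (Finset.mem_filter.1 hi).2]
  · refine Finset.sum_congr ?_ fun i _ => rfl
    ext i
    simp

/-- the non-root representatives of all classes -/
noncomputable def Q0 {k : ℕ} (rep : Fin k → V → V) (root : Fin k → V) : Finset (Fin k × V) :=
  univ.filter (fun q => q.2 ∈ (reps (rep q.1)).erase (root q.1))

theorem mem_Q0 {k : ℕ} {rep : Fin k → V → V} {root : Fin k → V} {q : Fin k × V} :
    q ∈ Q0 rep root ↔ rep q.1 q.2 = q.2 ∧ q.2 ≠ root q.1 := by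
  simp [Q0, reps, and_comm]

/-- the crosses hosted by the orbit of `c` in the class `m` -/
noncomputable def TT {k : ℕ} (rep : Fin k → V → V) (root : Fin k → V) (host : Fin k × V → Fin k)
    (tl : Fin k × V → V) (m : Fin k) (c : V) : Finset ((Fin k × V) × Bool) :=
  ((Q0 rep root) ×ˢ (univ : Finset Bool)).filter (fun q => host q.1 = m ∧ rep m (tl q.1) = c)

theorem sum_Q0 {k : ℕ} (rep : Fin k → V → V) (root : Fin k → V)
    (F : (Fin k × V) × Bool → ZMod 2) :
    ∑ q ∈ (Q0 rep root) ×ˢ (univ : Finset Bool), F q =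
      ∑ m : Fin k, (∑ c ∈ (reps (rep m)).erase (root m), F ((m, c), true) +
        ∑ c ∈ (reps (rep m)).erase (root m), F ((m, c), false)) := by
  rw [Finset.sum_product]
  unfold Q0
  rw [Finset.sum_filter, Fintype.sum_prod_type]
  refine Finset.sum_congr rfl fun m _ => ?_
  rw [← Finset.sum_add_distrib, ← Finset.sum_filter]
  simp only [Fintype.sum_bool]
  refine Finset.sum_congr ?_ fun _ _ => rfl
  ext c
  simp

theorem sum_TT {k : ℕ} (rep : Fin k → V → V) (root : Fin k → V) (host : Fin k × V → Fin k)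
    (tl : Fin k × V → V) (hidem : ∀ m v, rep m (rep m v) = rep m v)
    (F : (Fin k × V) × Bool → ZMod 2) :
    ∑ m : Fin k, ∑ c ∈ reps (rep m), ∑ q ∈ TT rep root host tl m c, F q =
      ∑ q ∈ (Q0 rep root) ×ˢ (univ : Finset Bool), F q := by
  rw [← Finset.sum_fiberwise_of_maps_to (s := (Q0 rep root) ×ˢ (univ : Finset Bool))
    (t := (univ : Finset (Fin k))) (g := fun q => host q.1) (fun _ _ => Finset.mem_univ _)]
  refine Finset.sum_congr rfl fun m _ => ?_
  rw [← Finset.sum_fiberwise_of_maps_to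
    (s := ((Q0 rep root) ×ˢ (univ : Finset Bool)).filter (fun q => host q.1 = m))
    (t := reps (rep m)) (g := fun q => rep m (tl q.1))]
  · refine Finset.sum_congr rfl fun c _ => ?_
    refine Finset.sum_congr ?_ fun _ _ => rfl
    unfold TT
    rw [Finset.filter_filter]
  · intro q _
    simp [reps, hidem]

/-- the two final classes with index `m` -/
noncomputable def XA {k : ℕ} (σ : Fin k → Equiv.Perm V) (rep : Fin k → V → V) (n : ℕ)
    (h : Fin k → ℕ → W) (e : Fin k → V → ℕ → V) (b : Fin k → V → ℕ → ℕ) (root : Fin k → V)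
    (u u' : Fin k × V → V) (tm : (Fin k × V) × Bool → ℕ) (m : Fin k) (ed : Sym2 (V × W)) : ZMod 2 :=
  Afun (σ m) (rep m) n (h m) (e m) (b m) ed + ∑ c ∈ (reps (rep m)).erase (root m),
    psq (u (m, c)) (u' (m, c)) (h m (tm ((m, c), true))) (h m (tm ((m, c), true) + 1)) ed

noncomputable def XB {k : ℕ} (σ : Fin k → Equiv.Perm V) (rep : Fin k → V → V) (n : ℕ)
    (h : Fin k → ℕ → W) (Γ : Fin k → V → Finset ℕ) (e : Fin k → V → ℕ → V) (root : Fin k → V)
    (u u' : Fin k × V → V) (tm : (Fin k × V) × Bool → ℕ) (m : Fin k) (ed : Sym2 (V × W)) : ZMod 2 :=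
  Bfun (σ m) (rep m) n (h m) (Γ m) (e m) ed + ∑ c ∈ (reps (rep m)).erase (root m),
    psq (u (m, c)) (u' (m, c)) (h m (tm ((m, c), false))) (h m (tm ((m, c), false) + 1)) ed

theorem sum_identity {k : ℕ} (n : ℕ) (σ : Fin k → Equiv.Perm V) (h : Fin k → ℕ → W)
    (rep : Fin k → V → V) (hidem : ∀ m v, rep m (rep m v) = rep m v)
    (root : Fin k → V) (u u' : Fin k × V → V) (tm : (Fin k × V) × Bool → ℕ)
    (host : Fin k × V → Fin k) (tl : Fin k × V → V)
    (e : Fin k → V → ℕ → V) (b : Fin k → V → ℕ → ℕ) (α β : Fin k → (Fin k × V) × Bool → ℕ)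
    (hαinj : ∀ m c, Set.InjOn (α m) (TT rep root host tl m c))
    (hαlt : ∀ m c, ∀ q ∈ TT rep root host tl m c, α m q < n - 1)
    (hsq : ∀ m, ∀ c ∈ reps (rep m), ∀ q ∈ TT rep root host tl m c,
      e m c (α m q) = tl q.1 ∧ b m c (α m q) = β m q)
    (hcross : ∀ m c, ∀ q ∈ TT rep root host tl m c, ∀ ed,
      psq (tl q.1) (σ m (tl q.1)) (h m (α m q)) (h m (β m q)) ed =
      psq (u q.1) (u' q.1) (h q.1.1 (tm q)) (h q.1.1 (tm q + 1)) ed)
    (hb : ∀ m, ∀ c ∈ reps (rep m), ∀ i, i ∉ (TT rep root host tl m c).image (α m) →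
      b m c i = i + 1) (ed : Sym2 (V × W)) :
    ∑ m, (XA σ rep n h e b root u u' tm m ed +
      XB σ rep n h (fun m c => (TT rep root host tl m c).image (α m)) e root u u' tm m ed) =
      ∑ m, (rows (σ m) ed + cols n (h m) ed) := by
  have hchord : ∀ m, ∑ c ∈ reps (rep m), ∑ i ∈ (range (n - 1)).filter
        (fun i => i ∈ (TT rep root host tl m c).image (α m)),
        psq (e m c i) (σ m (e m c i)) (h m i) (h m (b m c i)) ed =
      ∑ c ∈ reps (rep m), ∑ q ∈ TT rep root host tl m c,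
        psq (u q.1) (u' q.1) (h q.1.1 (tm q)) (h q.1.1 (tm q + 1)) ed := by
    intro m
    refine Finset.sum_congr rfl fun c hc => ?_
    have : (range (n - 1)).filter (fun i => i ∈ (TT rep root host tl m c).image (α m)) =
        (TT rep root host tl m c).image (α m) := by
      ext i
      simp only [Finset.mem_filter, Finset.mem_range, and_iff_right_iff_imp]
      intro hi
      obtain ⟨q, hq, rfl⟩ := Finset.mem_image.1 hi
      exact hαlt m c q hq
    rw [this, Finset.sum_image (hαinj m c)]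
    refine Finset.sum_congr rfl fun q hq => ?_
    rw [(hsq m c hc q hq).1, (hsq m c hc q hq).2, hcross m c q hq]
  have h1 : ∀ m, XA σ rep n h e b root u u' tm m ed +
      XB σ rep n h (fun m c => (TT rep root host tl m c).image (α m)) e root u u' tm m ed =
      (rows (σ m) ed + cols n (h m) ed) +
      (∑ c ∈ reps (rep m), ∑ q ∈ TT rep root host tl m c,
        psq (u q.1) (u' q.1) (h q.1.1 (tm q)) (h q.1.1 (tm q + 1)) ed) +
      (∑ c ∈ (reps (rep m)).erase (root m),
        psq (u (m, c)) (u' (m, c)) (h m (tm ((m, c), true))) (h m (tm ((m, c), true) + 1)) ed +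
      ∑ c ∈ (reps (rep m)).erase (root m),
        psq (u (m, c)) (u' (m, c)) (h m (tm ((m, c), false))) (h m (tm ((m, c), false) + 1)) ed) := by
    intro m
    unfold XA XB
    rw [afun_split (σ m) (rep m) n (h m) (e m) (b m)
      (fun c => (TT rep root host tl m c).image (α m)) (hb m) ed, ← hchord m]
    unfold Bfun
    have h2 := CharTwo.add_self_eq_zero (∑ c ∈ reps (rep m), ∑ i ∈ (range (n - 1)).filter
      (fun i => i ∉ (TT rep root host tl m c).image (α m)),
        psq (e m c i) (σ m (e m c i)) (h m i) (h m (i + 1)) ed)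
    linear_combination h2
  rw [Finset.sum_congr rfl (fun m _ => h1 m), Finset.sum_add_distrib, Finset.sum_add_distrib,
    sum_TT rep root host tl hidem
      (fun q => psq (u q.1) (u' q.1) (h q.1.1 (tm q)) (h q.1.1 (tm q + 1)) ed),
    sum_Q0 rep root (fun q => psq (u q.1) (u' q.1) (h q.1.1 (tm q)) (h q.1.1 (tm q + 1)) ed),
    add_assoc, CharTwo.add_self_eq_zero, add_zero]

theorem sum_eq_zero_of_support {ι : Type*} (s : Finset ι) (F : ι → ZMod 2)
    (h : ∀ i ∈ s, F i = 0) : ∑ i ∈ s, F i = 0 := Finset.sum_eq_zero h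

theorem afun_support (G : SimpleGraph V) (H : SimpleGraph W) (σ : Equiv.Perm V)
    (hσ : ∀ v, G.Adj v (σ v)) (rep : V → V) (n : ℕ) (h : ℕ → W) (e : V → ℕ → V) (b : V → ℕ → ℕ)
    (hb : ∀ c ∈ reps rep, ∀ i < n - 1, H.Adj (h i) (h (b c i))) (ed : Sym2 (V × W))
    (hed : ed ∉ (G □ H).edgeSet) : Afun σ rep n h e b ed = 0 := by
  unfold Afun
  rw [sum_eq_zero_of_support, add_zero]
  · by_contra hne
    exact hed (rows_support G H σ hσ ed hne)
  · intro c hc
    refine sum_eq_zero_of_support _ _ fun i hi => ?_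
    by_contra hne
    exact hed (psq_support G H (hσ _) (hb c hc i (Finset.mem_range.1 hi)) ed hne)

theorem bfun_support (G : SimpleGraph V) (H : SimpleGraph W) (σ : Equiv.Perm V)
    (hσ : ∀ v, G.Adj v (σ v)) (rep : V → V) (n : ℕ) (h : ℕ → W)
    (hh : ∀ i, H.Adj (h i) (h (i + 1))) (Γ : V → Finset ℕ) (e : V → ℕ → V) (ed : Sym2 (V × W))
    (hed : ed ∉ (G □ H).edgeSet) : Bfun σ rep n h Γ e ed = 0 := by
  unfold Bfun
  rw [sum_eq_zero_of_support, add_zero]
  · by_contra hne
    exact hed (cols_support G H n h hh ed hne)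
  · intro c hc
    refine sum_eq_zero_of_support _ _ fun i hi => ?_
    by_contra hne
    exact hed (psq_support G H (hσ _) (hh _) ed hne)

/-- positions in a cyclic enumeration -/
theorem exists_pos {n : ℕ} {h : ℕ → W} (henum : Enum n h) :
    ∃ pos : W → ℕ, (∀ w, pos w < n) ∧ (∀ w, h (pos w) = w) ∧ (∀ i < n, pos (h i) = i) := by
  choose pos hpos using henum.2
  refine ⟨pos, fun w => (hpos w).1, fun w => (hpos w).2, fun i hi => ?_⟩
  have h1 := (hpos (h i)).2
  have h2 := (henum.1 _ _).1 h1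
  exact Nat.ModEq.eq_of_lt_of_lt h2 (hpos (h i)).1 hi

theorem core (G : SimpleGraph V) (H : SimpleGraph W) (k n : ℕ) (hk : 1 ≤ k)
    (hcard : Fintype.card W = n) (hn : 3 ≤ n) (heven : Even n) (hG : G.Connected)
    (σ : Fin k → Equiv.Perm V) (hσ : ∀ m v, G.Adj v (σ m v))
    (hσu : ∀ u v, G.Adj u v → ∃! p : Fin k × V, s(p.2, σ p.1 p.2) = s(u, v))
    (h : Fin k → ℕ → W) (henum : ∀ m, Enum n (h m)) (hadj : ∀ m i, H.Adj (h m i) (h m (i + 1)))
    (hH : ∀ x y, H.Adj x y → ∃! m : Fin k, ∃ i < n, s(x, y) = s(h m i, h m (i + 1)))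
    (hbig : 16 * k ^ 2 * (Fintype.card V + 4) ^ 2 ≤ n) :
    ∃ X : Fin k × Bool → Sym2 (V × W) → ZMod 2, (∀ i, TwoReg (X i)) ∧
      (∀ i x y, Conn (X i) x y) ∧ (∀ i e, X i e = 1 → e ∈ (G □ H).edgeSet) ∧
      ∀ e ∈ (G □ H).edgeSet, ∑ i, X i e = 1 := by
  -- σ ∘ σ has no fixed point
  have hσ2 : ∀ m v, σ m (σ m v) ≠ v := by
    intro m v hv
    obtain ⟨p, -, hp⟩ := hσu v (σ m v) (hσ m v)
    have h1 := hp (m, v) rfl
    have h2 := hp (m, σ m v) (by simp only [hv]; rw [Sym2.eq_swap])
    have h3 : v = σ m v := congrArg Prod.snd (h1.trans h2.symm)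
    exact (hσ m v).ne h3
  choose rep hrep using fun m => exists_rep (σ m)
  have hidem : ∀ m v, rep m (rep m v) = rep m v := fun m => (hrep m).2
  choose root rank u0 u0' hroot htree using fun m => treeOrder G hG (rep m) (hidem m)
  -- hosts
  have hhost : ∀ q : Fin k × V, ∃ p : Fin k × V, q ∈ Q0 rep root →
      s(p.2, σ p.1 p.2) = s(u0 q.1 q.2, u0' q.1 q.2) := by
    intro q
    by_cases hq : q ∈ Q0 rep root
    · obtain ⟨h1, h2⟩ := mem_Q0.1 hq
      obtain ⟨p, hp, -⟩ := hσu _ _ (htree q.1 q.2 h1 h2).2.1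
      exact ⟨p, fun _ => hp⟩
    · exact ⟨q, fun h => absurd h hq⟩
  choose ht hht using hhost
  set host : Fin k × V → Fin k := fun q => (ht q).1 with hhostdef
  set tl : Fin k × V → V := fun q => (ht q).2 with htldef
  have hht' : ∀ q ∈ Q0 rep root, s(tl q, σ (host q) (tl q)) = s(u0 q.1 q.2, u0' q.1 q.2) := hht
  have hhostne : ∀ q ∈ Q0 rep root, host q ≠ q.1 := by
    intro q hq hne
    obtain ⟨h1, h2⟩ := mem_Q0.1 hq
    obtain ⟨h3, h4, h5⟩ := htree q.1 q.2 h1 h2
    have h6 := hht' q hq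
    rw [hne] at h6
    have h7 : rep q.1 (u0 q.1 q.2) = rep q.1 (u0' q.1 q.2) := by
      have h8 : rep q.1 (tl q) = rep q.1 (σ q.1 (tl q)) :=
        ((hrep q.1).1 _ _).2 (Equiv.Perm.sameCycle_apply_right.2 (Equiv.Perm.SameCycle.refl _ _))
      rcases Sym2.eq_iff.1 h6 with ⟨h9, h10⟩ | ⟨h9, h10⟩
      · rw [← h9, ← h10]; exact h8
      · rw [← h9, ← h10]; exact h8.symm
    rw [← h7, h3] at h5
    exact lt_irrefl _ h5
  -- positions
  choose pos hposlt hpos hpos' using fun m => exists_pos (henum m)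
  have hposinj : ∀ m, Function.Injective (pos m) := fun m x y hxy => by
    rw [← hpos m x, ← hpos m y, hxy]
  set τ : Fin k → W → W := fun m w => h m (pos m w + 1) with hτdef
  have hτ : ∀ m, Function.Injective (τ m) := by
    intro m x y hxy
    have h1 := ((henum m).1 _ _).1 hxy
    have h2 := Nat.ModEq.add_right_cancel' 1 h1
    exact hposinj m (Nat.ModEq.eq_of_lt_of_lt h2 (hposlt m x) (hposlt m y))
  set N := Fintype.card V with hN
  set R := N + 4 with hRdef
  obtain ⟨w, hw1, hw2⟩ := placement k n N R (by omega) hcard pos hposinj hposlt τ hτ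
    (fun q : (Fin k × V) × Bool => q.1.1) ((Q0 rep root) ×ˢ (univ : Finset Bool))
    (by
      refine (Finset.card_le_univ _).trans ?_
      rw [Fintype.card_prod, Fintype.card_prod, Fintype.card_fin, Fintype.card_bool]
      rw [← hN]; apply le_of_eq; ring)
    (by
      have h1 : 2 * (k * (2 * R + 4 * k * N * (2 * R))) = 4 * k * R + 16 * k ^ 2 * N * R := by ring
      rw [h1]
      refine lt_of_lt_of_le ?_ hbig
      have h2 : 16 * k ^ 2 * (N + 4) ^ 2 = 16 * k ^ 2 * N * R + 64 * k ^ 2 * R := by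
        rw [hRdef]; ring
      rw [h2]
      have h3 : 4 * k * R < 64 * k ^ 2 * R := by
        have : 0 < R := by omega
        have h4 : 4 * k < 64 * k ^ 2 := by nlinarith
        exact Nat.mul_lt_mul_of_pos_right h4 this
      omega)
  set QS : Finset ((Fin k × V) × Bool) := (Q0 rep root) ×ˢ (univ : Finset Bool) with hQS
  have hk0 : 0 < k := by omega
  set tm : (Fin k × V) × Bool → ℕ := fun q => pos q.1.1 (w q) with htm
  set yy : (Fin k × V) × Bool → W := fun q => τ q.1.1 (w q) with hyy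
  set α : Fin k → (Fin k × V) × Bool → ℕ := fun m q => min (pos m (w q)) (pos m (yy q)) with hα
  set β : Fin k → (Fin k × V) × Bool → ℕ := fun m q => max (pos m (w q)) (pos m (yy q)) with hβ
  have hx : ∀ q, h q.1.1 (tm q) = w q := fun q => hpos _ _
  have hy : ∀ q, h q.1.1 (tm q + 1) = yy q := fun q => rfl
  have hadjxy : ∀ q, H.Adj (w q) (yy q) := fun q => by
    have := hadj q.1.1 (tm q)
    rwa [hx, hy] at this
  have hmemw : ∀ q, w q ∈ ({w q, τ q.1.1 (w q)} : Finset W) := fun q => by simp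
  have hmemy : ∀ q, yy q ∈ ({w q, τ q.1.1 (w q)} : Finset W) := fun q => by simp [hyy]
  -- α, β are positions of members
  have hαβ : ∀ m q, ∀ x ∈ ({α m q, β m q} : Finset ℕ), ∃ z ∈ ({w q, τ q.1.1 (w q)} : Finset W),
      x = pos m z := by
    intro m q x hx
    have : x = pos m (w q) ∨ x = pos m (yy q) := by
      simp only [Finset.mem_insert, Finset.mem_singleton, hα, hβ] at hx
      rcases hx with rfl | rfl
      · exact min_choice _ _
      · exact max_choice _ _
    rcases this with h1 | h1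
    · exact ⟨_, hmemw q, h1⟩
    · exact ⟨_, hmemy q, h1⟩
  have hrange : ∀ q ∈ QS, ∀ m, R ≤ α m q ∧ α m q + R + 1 ≤ n ∧ R ≤ β m q ∧ β m q + R + 1 ≤ n := by
    intro q hq m
    obtain ⟨z, hz, h1⟩ := hαβ m q (α m q) (by simp)
    obtain ⟨z', hz', h2⟩ := hαβ m q (β m q) (by simp)
    have h3 := hw1 q hq m z hz
    have h4 := hw1 q hq m z' hz'
    rw [h1, h2]
    exact ⟨h3.1, h3.2, h4.1, h4.2⟩
  have hsep : ∀ q ∈ QS, ∀ q' ∈ QS, q ≠ q' → ∀ m, ∀ x ∈ ({α m q, β m q} : Finset ℕ),
      ∀ y ∈ ({α m q', β m q'} : Finset ℕ), x + R ≤ y ∨ y + R ≤ x := by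
    intro q hq q' hq' hne m x hx y hy
    obtain ⟨z, hz, rfl⟩ := hαβ m q x hx
    obtain ⟨z', hz', rfl⟩ := hαβ m q' y hy
    exact hw2 q hq q' hq' hne m z hz z' hz'
  have htmlt : ∀ q ∈ QS, tm q + R + 1 ≤ n := fun q hq => (hw1 q hq q.1.1 _ (hmemw q)).2
  have hposy : ∀ q ∈ QS, pos q.1.1 (yy q) = tm q + 1 := by
    intro q hq
    have := htmlt q hq
    exact hpos' q.1.1 (tm q + 1) (by omega)
  have hαtm : ∀ q ∈ QS, α q.1.1 q = tm q := by
    intro q hq
    show min (pos q.1.1 (w q)) (pos q.1.1 (yy q)) = tm q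
    rw [hposy q hq]
    show min (tm q) (tm q + 1) = tm q
    omega
  set S : Fin k → V → Finset ((Fin k × V) × Bool) := fun m c =>
    QS.filter (fun q => q.1.1 = m ∧ (q.1.2 = c ∨ rep m (u0' m q.1.2) = c)) with hS
  have hTQ : ∀ m c, ∀ q ∈ TT rep root host tl m c, q ∈ QS := fun m c q hq =>
    (Finset.mem_filter.1 hq).1
  have hSQ : ∀ m c, ∀ q ∈ S m c, q ∈ QS := fun m c q hq => (Finset.mem_filter.1 hq).1
  have hQ0 : ∀ q ∈ QS, q.1 ∈ Q0 rep root := fun q hq => (Finset.mem_product.1 hq).1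
  have hSTQ : ∀ m c, ∀ q ∈ S m c ∪ TT rep root host tl m c, q ∈ QS := by
    intro m c q hq
    rcases Finset.mem_union.1 hq with h1 | h1
    · exact hSQ m c q h1
    · exact hTQ m c q h1
  have hSTdisj : ∀ m c, Disjoint (S m c) (TT rep root host tl m c) := by
    intro m c
    rw [Finset.disjoint_left]
    intro q hq1 hq2
    have h1 := (Finset.mem_filter.1 hq1).2.1
    have h2 := (Finset.mem_filter.1 hq2).2.1
    exact hhostne q.1 (hQ0 q (hSQ m c q hq1)) (h2.trans h1.symm)
  have hTeven : ∀ m c, Even (TT rep root host tl m c).card := by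
    intro m c
    have : TT rep root host tl m c = ((Q0 rep root).filter
        (fun q => host q = m ∧ rep m (tl q) = c)) ×ˢ (univ : Finset Bool) := by
      ext q
      simp [TT]
    rw [this, Finset.card_product, Finset.card_univ, Fintype.card_bool]
    exact even_two.mul_left _
  set vS : Fin k → V → (Fin k × V) × Bool → V := fun m c q =>
    if q.1.2 = c then u0 m q.1.2 else u0' m q.1.2 with hvS
  have hvS1 : ∀ m c, ∀ q ∈ S m c, (σ m).SameCycle c (vS m c q) := by
    intro m c q hq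
    obtain ⟨hq1, hq2, hq3⟩ := Finset.mem_filter.1 hq
    obtain ⟨h1, h2⟩ := mem_Q0.1 (hQ0 q hq1)
    rw [hq2] at h1 h2
    rw [← (hrep m).1]
    by_cases hc : q.1.2 = c
    · simp only [hvS, hc, if_true]
      rw [← hc, (htree m q.1.2 h1 h2).1, h1]
    · simp only [hvS, hc, if_false]
      have := hq3.resolve_left hc
      rw [this, ← this, hidem]
  have hvT1 : ∀ m c, ∀ q ∈ TT rep root host tl m c, (σ m).SameCycle c (tl q.1) := by
    intro m c q hq
    obtain ⟨hq1, hq2, hq3⟩ := Finset.mem_filter.1 hq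
    rw [← (hrep m).1, ← hq3, hidem]
  have hTlt : ∀ m c, ∀ q ∈ TT rep root host tl m c, α m q + 2 ≤ β m q := by
    intro m c q hq
    obtain ⟨hq1, hq2, hq3⟩ := Finset.mem_filter.1 hq
    have hmne : m ≠ q.1.1 := by
      rw [← hq2]; exact hhostne q.1 (hQ0 q (hTQ m c q hq))
    have hne : pos m (w q) ≠ pos m (yy q) := fun heq => (hadjxy q).ne (hposinj m heq)
    by_contra hlt
    obtain ⟨m0, -, hm0⟩ := hH _ _ (hadjxy q)
    have h1 := hm0 q.1.1 ⟨tm q, hposlt _ _, by rw [hx, hy]⟩
    have h2 := hm0 m (by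
      rcases lt_or_gt_of_ne hne with h3 | h3
      · refine ⟨pos m (w q), hposlt _ _, ?_⟩
        have h4 : pos m (yy q) = pos m (w q) + 1 := by
          simp only [hα, hβ] at hlt
          omega
        rw [← h4, hpos, hpos]
      · refine ⟨pos m (yy q), hposlt _ _, ?_⟩
        have h4 : pos m (w q) = pos m (yy q) + 1 := by
          simp only [hα, hβ] at hlt
          omega
        rw [← h4, hpos, hpos, Sym2.eq_swap])
    exact hmne (h2.trans h1.symm)
  have hnR : 2 * R + 2 ≤ n := by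
    have h1 : 2 * R + 2 ≤ 16 * k ^ 2 * R ^ 2 := by
      have h2 : 1 ≤ k ^ 2 := Nat.one_le_pow _ _ hk0
      have h3 : 16 * R ^ 2 ≤ 16 * k ^ 2 * R ^ 2 := by nlinarith [sq_nonneg R]
      have h4 : 4 ≤ R := by omega
      nlinarith
    exact h1.trans hbig
  choose p lam e b hp using fun m c => orbit_letters (σ m) (hσ2 m) c n R (le_refl _) heven hnR
    (S m c) (TT rep root host tl m c) (hSTdisj m c) (hTeven m c) (α m) (β m) (fun q => q.2)
    (vS m c) (fun q => tl q.1) (hvS1 m c) (hvT1 m c) (fun q hq => hrange q (hSTQ m c q hq) m)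
    (fun q hq q' hq' hne => hsep q (hSTQ m c q hq) q' (hSTQ m c q' hq') hne m) (hTlt m c)
  have hp3 := fun m c => (hp m c).1
  have hpp := fun m c => (hp m c).2.1
  have hpd := fun m c => (hp m c).2.2.1
  have hlam1 := fun m c => (hp m c).2.2.2.1
  have hstep := fun m c => (hp m c).2.2.2.2.1
  have hgap := fun m c => (hp m c).2.2.2.2.2.1
  have hend := fun m c => (hp m c).2.2.2.2.2.2.1
  have hsame := fun m c => (hp m c).2.2.2.2.2.2.2.1
  have helam := fun m c => (hp m c).2.2.2.2.2.2.2.2.1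
  have hTb := fun m c => (hp m c).2.2.2.2.2.2.2.2.2.1
  have hbs := fun m c => (hp m c).2.2.2.2.2.2.2.2.2.2.1
  have hbr := fun m c => (hp m c).2.2.2.2.2.2.2.2.2.2.2.1
  have hD1 := fun m c => (hp m c).2.2.2.2.2.2.2.2.2.2.2.2.1
  have hD2 := fun m c => (hp m c).2.2.2.2.2.2.2.2.2.2.2.2.2.1
  have hSα := fun m c => (hp m c).2.2.2.2.2.2.2.2.2.2.2.2.2.2.1
  have hSt := fun m c => (hp m c).2.2.2.2.2.2.2.2.2.2.2.2.2.2.2.1
  have hSf := fun m c => (hp m c).2.2.2.2.2.2.2.2.2.2.2.2.2.2.2.2
  clear hp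
  have hrepe : ∀ m c, rep m c = c → ∀ i < n - 1, rep m (e m c i) = c := by
    intro m c hc i _
    rw [← hc]
    refine Eq.trans ?_ (hidem m c)
    rw [hc]
    exact (((hrep m).1 _ _).2 (hsame m c i)).symm
  -- membership of the crosses
  have hmemQ : ∀ m c ty, rep m c = c → c ≠ root m → ((m, c), ty) ∈ QS := fun m c ty h1 h2 =>
    Finset.mem_product.2 ⟨mem_Q0.2 ⟨h1, h2⟩, Finset.mem_univ _⟩
  have hmemS : ∀ m c ty, rep m c = c → c ≠ root m → ((m, c), ty) ∈ S m c := fun m c ty h1 h2 =>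
    Finset.mem_filter.2 ⟨hmemQ m c ty h1 h2, rfl, Or.inl rfl⟩
  have hmemS' : ∀ m c ty, rep m c = c → c ≠ root m → ((m, c), ty) ∈ S m (rep m (u0' m c)) :=
    fun m c ty h1 h2 => Finset.mem_filter.2 ⟨hmemQ m c ty h1 h2, rfl, Or.inr rfl⟩
  have hne' : ∀ m c, rep m c = c → c ≠ root m → c ≠ rep m (u0' m c) := by
    intro m c h1 h2 h3
    have := (htree m c h1 h2).2.2
    rw [← h3] at this
    exact lt_irrefl _ this
  have hvS2 : ∀ m c ty, vS m c ((m, c), ty) = u0 m c := fun m c ty => by simp [hvS]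
  have hvS3 : ∀ m c ty, rep m c = c → c ≠ root m →
      vS m (rep m (u0' m c)) ((m, c), ty) = u0' m c := fun m c ty h1 h2 => by
    simp [hvS, hne' m c h1 h2]
  have hαq : ∀ m c ty, rep m c = c → c ≠ root m → α m ((m, c), ty) = tm ((m, c), ty) :=
    fun m c ty h1 h2 => hαtm _ (hmemQ m c ty h1 h2)
  have htmlt' : ∀ m c ty, rep m c = c → c ≠ root m → tm ((m, c), ty) < n - 1 := by
    intro m c ty h1 h2
    have := htmlt _ (hmemQ m c ty h1 h2)
    omega
  have htminj : ∀ m ty c c', rep m c = c → c ≠ root m → rep m c' = c' → c' ≠ root m →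
      tm ((m, c), ty) = tm ((m, c'), ty) → c = c' := by
    intro m ty c c' h1 h2 h3 h4 h5
    by_contra hne
    have h6 := hsep _ (hmemQ m c ty h1 h2) _ (hmemQ m c' ty h3 h4)
      (fun h => hne (congrArg (fun q => q.1.2) h)) m (α m ((m, c), ty)) (by simp)
      (α m ((m, c'), ty)) (by simp)
    rw [hαq m c ty h1 h2, hαq m c' ty h3 h4] at h6
    omega
  have htree1 : ∀ m c, rep m c = c → c ≠ root m →
      rep m (u0 m c) = c ∧ rank m (rep m (u0' m c)) < rank m c := fun m c h1 h2 =>
    ⟨(htree m c h1 h2).1, (htree m c h1 h2).2.2⟩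
  have hA : ∀ m, TwoReg (XA σ rep n h e b root (fun q => u0 q.1 q.2) (fun q => u0' q.1 q.2) tm m) ∧
      ∀ x y, Conn (XA σ rep n h e b root (fun q => u0 q.1 q.2) (fun q => u0' q.1 q.2) tm m) x y := by
    intro m
    refine aclass (σ m) (hσ2 m) (rep m) (hrep m) n hn (h m) (henum m) (e m) (b m) (hrepe m)
      (fun c _ => hbr m c) (fun c _ => hD1 m c) (fun c _ => hD2 m c) (root m) (rank m)
      (u0 m) (u0' m) (fun c => tm ((m, c), true)) (hroot m) (htree1 m)
      (fun c h1 h2 => htmlt' m c true h1 h2) (htminj m true) ?_ ?_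
    · intro c h1 h2
      have h3 := hSα m c _ (hmemS m c true h1 h2)
      have h4 := hSt m c _ (hmemS m c true h1 h2) rfl
      rw [hαq m c true h1 h2] at h3 h4
      rw [hvS2] at h4
      exact ⟨hbs m c _ h3, h4⟩
    · intro c h1 h2
      have h3 := hSα m _ _ (hmemS' m c true h1 h2)
      have h4 := hSt m _ _ (hmemS' m c true h1 h2) rfl
      rw [hαq m c true h1 h2] at h3 h4
      rw [hvS3 m c true h1 h2] at h4
      exact ⟨hbs m _ _ h3, h4⟩
  have hB : ∀ m, TwoReg (XB σ rep n h (fun m c => (TT rep root host tl m c).image (α m)) e root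
        (fun q => u0 q.1 q.2) (fun q => u0' q.1 q.2) tm m) ∧
      ∀ x y, Conn (XB σ rep n h (fun m c => (TT rep root host tl m c).image (α m)) e root
        (fun q => u0 q.1 q.2) (fun q => u0' q.1 q.2) tm m) x y := by
    intro m
    refine bclass (σ m) (hσ2 m) (rep m) (hrep m) n hn (h m) (henum m) (p m)
      (fun c _ => ⟨hp3 m c, hpp m c⟩) (fun c => (TT rep root host tl m c).image (α m)) ?_ (lam m)
      (fun c _ => hlam1 m c) (fun c _ => hstep m c) (fun c _ => hgap m c) (fun c _ => hend m c)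
      (e m) (hrepe m) (fun c _ => helam m c) (fun c _ => hpd m c) (root m) (rank m)
      (u0 m) (u0' m) (fun c => tm ((m, c), false)) (hroot m) (htree1 m)
      (fun c h1 h2 => htmlt' m c false h1 h2) (htminj m false) ?_ ?_
    · intro c _ h0
      obtain ⟨q, hq, h1⟩ := Finset.mem_image.1 h0
      have := (hrange q (hTQ m c q hq) m).1
      omega
    · intro c h1 h2
      have h4 := hSf m c _ (hmemS m c false h1 h2) rfl
      rw [hαq m c false h1 h2] at h4
      rw [hvS2] at h4
      exact h4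
    · intro c h1 h2
      have h4 := hSf m _ _ (hmemS' m c false h1 h2) rfl
      rw [hαq m c false h1 h2] at h4
      rw [hvS3 m c false h1 h2] at h4
      exact h4
  -- the chords are the crosses
  have hsqsym : ∀ m c, ∀ q ∈ TT rep root host tl m c, ∀ ed,
      psq (tl q.1) (σ m (tl q.1)) (h m (α m q)) (h m (β m q)) ed =
      psq (u0 q.1.1 q.1.2) (u0' q.1.1 q.1.2) (h q.1.1 (tm q)) (h q.1.1 (tm q + 1)) ed := by
    intro m c q hq ed
    obtain ⟨hq1, hq2, hq3⟩ := Finset.mem_filter.1 hq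
    have h1 := hht' q.1 (hQ0 q (hTQ m c q hq))
    rw [hq2] at h1
    rw [hx, hy]
    have h2 : psq (tl q.1) (σ m (tl q.1)) (h m (α m q)) (h m (β m q)) ed =
        psq (tl q.1) (σ m (tl q.1)) (w q) (yy q) ed := by
      rcases le_total (pos m (w q)) (pos m (yy q)) with h3 | h3
      · have h4 : α m q = pos m (w q) := min_eq_left h3
        have h5 : β m q = pos m (yy q) := max_eq_right h3
        rw [h4, h5, hpos, hpos]
      · have h4 : α m q = pos m (yy q) := min_eq_right h3
        have h5 : β m q = pos m (w q) := max_eq_left h3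
        rw [h4, h5, hpos, hpos, psq_swap_right]
    rw [h2]
    rcases Sym2.eq_iff.1 h1 with ⟨h3, h4⟩ | ⟨h3, h4⟩
    · rw [h4, h3]
    · rw [h4, h3, psq_swap_left]
  have hadjαβ : ∀ m c, ∀ q ∈ TT rep root host tl m c, H.Adj (h m (α m q)) (h m (β m q)) := by
    intro m c q hq
    rcases le_total (pos m (w q)) (pos m (yy q)) with h3 | h3
    · have h4 : α m q = pos m (w q) := min_eq_left h3
      have h5 : β m q = pos m (yy q) := max_eq_right h3
      rw [h4, h5, hpos, hpos]; exact hadjxy q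
    · have h4 : α m q = pos m (yy q) := min_eq_right h3
      have h5 : β m q = pos m (w q) := max_eq_left h3
      rw [h4, h5, hpos, hpos]; exact (hadjxy q).symm
  have hsuppA : ∀ m ed, ed ∉ (G □ H).edgeSet →
      XA σ rep n h e b root (fun q => u0 q.1 q.2) (fun q => u0' q.1 q.2) tm m ed = 0 := by
    intro m ed hed
    unfold XA
    rw [afun_support G H (σ m) (hσ m) (rep m) n (h m) (e m) (b m) ?_ ed hed, zero_add]
    · refine sum_eq_zero_of_support _ _ fun c hc => ?_
      by_contra hne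
      have hc' : rep m c = c ∧ c ≠ root m := by
        simpa [reps, and_comm] using hc
      exact hed (psq_support G H (htree m c hc'.1 hc'.2).2.1 (hadj m _) ed hne)
    · intro c _ i hi
      by_cases hΓ : i ∈ (TT rep root host tl m c).image (α m)
      · obtain ⟨q, hq, rfl⟩ := Finset.mem_image.1 hΓ
        rw [(hTb m c q hq).2]
        exact hadjαβ m c q hq
      · rw [hbs m c i hΓ]; exact hadj m i
  have hsuppB : ∀ m ed, ed ∉ (G □ H).edgeSet →
      XB σ rep n h (fun m c => (TT rep root host tl m c).image (α m)) e root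
        (fun q => u0 q.1 q.2) (fun q => u0' q.1 q.2) tm m ed = 0 := by
    intro m ed hed
    unfold XB
    rw [bfun_support G H (σ m) (hσ m) (rep m) n (h m) (hadj m) _ (e m) ed hed, zero_add]
    refine sum_eq_zero_of_support _ _ fun c hc => ?_
    by_contra hne
    have hc' : rep m c = c ∧ c ≠ root m := by
      simpa [reps, and_comm] using hc
    exact hed (psq_support G H (htree m c hc'.1 hc'.2).2.1 (hadj m _) ed hne)
  have hαinj : ∀ m c, Set.InjOn (α m) (TT rep root host tl m c) := by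
    intro m c q hq q' hq' heq
    by_contra hne
    have := hsep q (hTQ m c q hq) q' (hTQ m c q' hq') hne m (α m q) (by simp) (α m q') (by simp)
    omega
  refine ⟨fun i => if i.2 = true then
      XA σ rep n h e b root (fun q => u0 q.1 q.2) (fun q => u0' q.1 q.2) tm i.1 else
      XB σ rep n h (fun m c => (TT rep root host tl m c).image (α m)) e root
        (fun q => u0 q.1 q.2) (fun q => u0' q.1 q.2) tm i.1, ?_, ?_, ?_, ?_⟩
  · rintro ⟨m, ty⟩
    cases ty
    · exact (hB m).1
    · exact (hA m).1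
  · rintro ⟨m, ty⟩
    cases ty
    · exact (hB m).2
    · exact (hA m).2
  · rintro ⟨m, ty⟩ ed h1
    by_contra hed
    cases ty
    · have h2 := hsuppB m ed hed
      simp only [Bool.false_eq_true, if_false] at h1
      rw [h2] at h1
      exact zero_ne_one h1
    · have h2 := hsuppA m ed hed
      simp only [if_true] at h1
      rw [h2] at h1
      exact zero_ne_one h1
  · intro ed hed
    rw [Fintype.sum_prod_type]
    simp only [Fintype.sum_bool, if_true, Bool.false_eq_true, if_false]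
    rw [sum_identity n σ h rep hidem root (fun q => u0 q.1 q.2) (fun q => u0' q.1 q.2) tm host tl e b
      α β hαinj ?_ ?_ hsqsym ?_ ed]
    · exact sum_rows_cols G H k n hn σ h henum hσu hH hσ2 ed hed
    · intro m c q hq
      have := (hrange q (hTQ m c q hq) m).2.1
      omega
    · intro m c _ q hq
      exact hTb m c q hq
    · intro m c _ i hi
      exact hbs m c i hi

end H93HD
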