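import Pool.Agent.H93HD.HamDef

/-!
# MP_8634e8_co : definitions for the Hamiltonian decomposition of `G □ H`

A *class* is a function `X : Sym2 α → ZMod 2` (the mod 2 indicator of a set of edges).
-/

namespace H93HD

open Finset
open scoped Classical

section Defs

variable {α : Type*}

/-- indicator (mod 2) of the single edge `ab` -/
noncomputable def ind (a b : α) (e : Sym2 α) : ZMod 2 := if e = s(a, b) then 1 else 0

/-- indicator (mod 2) of the four-cycle with edges `ab, cd, ac, bd` -/
noncomputable def sq (a b c d : α) (e : Sym2 α) : ZMod 2 :=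
  ind a b e + ind c d e + ind a c e + ind b d e

/-- every vertex has exactly two neighbours (and no loops) -/
def TwoReg (X : Sym2 α → ZMod 2) : Prop :=
  ∀ a, ∃ b c, b ≠ c ∧ b ≠ a ∧ c ≠ a ∧ ∀ d, X s(a, d) = 1 ↔ (d = b ∨ d = c)

/-- connected through edges of the class `X` -/
def Conn (X : Sym2 α → ZMod 2) : α → α → Prop :=
  Relation.ReflTransGen (fun x y => X s(x, y) = 1)

theorem ind_eq_one {a b : α} {e : Sym2 α} : ind a b e = 1 ↔ e = s(a, b) := by
  unfold ind; split_ifs with h <;> simp [h]

theorem ind_eq_zero {a b : α} {e : Sym2 α} : ind a b e = 0 ↔ e ≠ s(a, b) := by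
  unfold ind; split_ifs with h <;> simp [h]

theorem ind_swap (a b : α) : ind a b = ind b a := by
  funext e; unfold ind; rw [Sym2.eq_swap]

theorem sq_comm (a b c d : α) (e : Sym2 α) : sq a b c d e = sq a c b d e := by
  unfold sq; ring

theorem sq_swap_rows (a b c d : α) (e : Sym2 α) : sq a b c d e = sq c d a b e := by
  unfold sq; rw [ind_swap a c, ind_swap b d]; ring

theorem sq_swap_cols (a b c d : α) (e : Sym2 α) : sq a b c d e = sq b a d c e := by
  unfold sq; rw [ind_swap a b, ind_swap c d]; ring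

theorem Conn.symm {X : Sym2 α → ZMod 2} {a b : α} (h : Conn X a b) : Conn X b a := by
  induction h with
  | refl => exact Relation.ReflTransGen.refl
  | tail _ h ih => exact Relation.ReflTransGen.head (by rwa [Sym2.eq_swap]) ih

theorem Conn.trans {X : Sym2 α → ZMod 2} {a b c : α} (h : Conn X a b) (h' : Conn X b c) :
    Conn X a c := Relation.ReflTransGen.trans h h'

theorem Conn.refl {X : Sym2 α → ZMod 2} (a : α) : Conn X a a := Relation.ReflTransGen.refl

theorem Conn.single {X : Sym2 α → ZMod 2} {a b : α} (h : X s(a, b) = 1) : Conn X a b :=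
  Relation.ReflTransGen.single h

end Defs

section Product

variable {V W : Type*}

/-- the square with the four vertices `(u,x), (u',x), (u,y), (u',y)` -/
noncomputable def psq (u u' : V) (x y : W) (e : Sym2 (V × W)) : ZMod 2 :=
  sq (u, x) (u', x) (u, y) (u', y) e

theorem psq_swap_left (u u' : V) (x y : W) (e : Sym2 (V × W)) : psq u u' x y e = psq u' u x y e :=
  sq_swap_cols _ _ _ _ _

theorem psq_swap_right (u u' : V) (x y : W) (e : Sym2 (V × W)) : psq u u' x y e = psq u u' y x e :=
  sq_swap_rows _ _ _ _ _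

/-- all horizontal edges `(v,w) – (σ v,w)` -/
noncomputable def rows [Fintype V] [Fintype W] (σ : Equiv.Perm V) (e : Sym2 (V × W)) : ZMod 2 :=
  ∑ v, ∑ w, ind (v, w) (σ v, w) e

/-- all vertical edges `(v, h i) – (v, h (i+1))`, `i < n` -/
noncomputable def cols [Fintype V] (n : ℕ) (h : ℕ → W) (e : Sym2 (V × W)) : ZMod 2 :=
  ∑ v, ∑ i ∈ range n, ind (v, h i) (v, h (i + 1)) e

/-- the representatives of the orbits -/
noncomputable def reps [Fintype V] (rep : V → V) : Finset V := univ.filter (fun c => rep c = c)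

/-- class `A` after the letters and the chords: in the orbit of `c` the row `i < n - 1` is linked to
the row `b c i` along the edge `e c i – σ (e c i)` -/
noncomputable def Afun [Fintype V] [Fintype W] (σ : Equiv.Perm V) (rep : V → V) (n : ℕ) (h : ℕ → W)
    (e : V → ℕ → V) (b : V → ℕ → ℕ) (ed : Sym2 (V × W)) : ZMod 2 :=
  rows σ ed + ∑ c ∈ reps rep, ∑ i ∈ range (n - 1),
    psq (e c i) (σ (e c i)) (h i) (h (b c i)) ed

/-- class `B` after the letters -/
noncomputable def Bfun [Fintype V] (σ : Equiv.Perm V) (rep : V → V) (n : ℕ) (h : ℕ → W)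
    (Γ : V → Finset ℕ) (e : V → ℕ → V) (ed : Sym2 (V × W)) : ZMod 2 :=
  cols n h ed + ∑ c ∈ reps rep, ∑ i ∈ (range (n - 1)).filter (fun i => i ∉ Γ c),
    psq (e c i) (σ (e c i)) (h i) (h (i + 1)) ed

/-- `h : ℕ → W` enumerates `W` cyclically with period `n` -/
def Enum (n : ℕ) (h : ℕ → W) : Prop :=
  (∀ i j, h i = h j ↔ i ≡ j [MOD n]) ∧ ∀ w, ∃ i < n, h i = w

/-- `rep` chooses a representative in every orbit of `σ` -/
def IsRep (σ : Equiv.Perm V) (rep : V → V) : Prop :=
  (∀ v v', rep v = rep v' ↔ σ.SameCycle v v') ∧ ∀ v, rep (rep v) = rep v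

end Product

end H93HD
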