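import Pool.Agent.H93HD.Defs

/-!
# Cyclic enumeration of the vertices along a Hamiltonian cycle
-/

namespace H93HD

open Finset

private theorem mem_edges_iff_getVert {W : Type*} {H : SimpleGraph W} {a b : W} (c : H.Walk a b)
    (e : Sym2 W) :
    e ∈ c.edges ↔ ∃ i < c.length, e = s(c.getVert i, c.getVert (i + 1)) := by
  induction c with
  | nil => simp
  | @cons u v w h p ih =>
    rw [SimpleGraph.Walk.edges_cons, List.mem_cons, ih, SimpleGraph.Walk.length_cons]
    constructor
    · rintro (h1 | ⟨i, hi, h1⟩)
      · exact ⟨0, by omega, by simpa using h1⟩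
      · exact ⟨i + 1, by omega, by simpa using h1⟩
    · rintro ⟨i, hi, h1⟩
      cases i with
      | zero => left; simpa using h1
      | succ i => right; exact ⟨i, by omega, by simpa using h1⟩

theorem enum_of_hamCycle {W : Type*} [Fintype W] [DecidableEq W] (H : SimpleGraph W) {a : W}
    (c : H.Walk a a) (hc : c.IsHamiltonianCycle) :
    3 ≤ Fintype.card W ∧ ∃ h : ℕ → W, Enum (Fintype.card W) h ∧
      ∀ e, e ∈ c.edges ↔ ∃ i < Fintype.card W, e = s(h i, h (i + 1)) := by
  have hlen := hc.length_eq
  have h3 := hc.isCycle.three_le_length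
  rw [← hlen]
  have hn : 0 < c.length := by omega
  refine ⟨h3, fun i => c.getVert (i % c.length), ⟨?_, ?_⟩, ?_⟩
  · intro i j
    constructor
    · intro h
      have hi := Nat.mod_lt i hn
      have hj := Nat.mod_lt j hn
      exact hc.isCycle.getVert_injOn' (show i % c.length ≤ c.length - 1 by omega)
        (show j % c.length ≤ c.length - 1 by omega) h
    · intro h
      show c.getVert (i % c.length) = c.getVert (j % c.length)
      rw [show i % c.length = j % c.length from h]
  · intro w
    obtain ⟨i, hi, hi'⟩ := SimpleGraph.Walk.mem_support_iff_exists_getVert.1 (hc.mem_support w)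
    rcases Nat.lt_or_ge i c.length with h1 | h1
    · exact ⟨i, h1, by show c.getVert (i % c.length) = w; rw [Nat.mod_eq_of_lt h1, hi]⟩
    · refine ⟨0, hn, ?_⟩
      show c.getVert (0 % c.length) = w
      have h2 : i = c.length := le_antisymm hi' h1
      rw [Nat.zero_mod, SimpleGraph.Walk.getVert_zero, ← hi, h2, SimpleGraph.Walk.getVert_length]
  · intro e
    rw [mem_edges_iff_getVert]
    have key : ∀ i, i < c.length → c.getVert ((i + 1) % c.length) = c.getVert (i + 1) := by
      intro i hi
      rcases Nat.lt_or_ge (i + 1) c.length with h1 | h1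
      · rw [Nat.mod_eq_of_lt h1]
      · have h2 : i + 1 = c.length := by omega
        rw [h2, Nat.mod_self, SimpleGraph.Walk.getVert_zero, SimpleGraph.Walk.getVert_length]
    constructor
    · rintro ⟨i, hi, h1⟩
      refine ⟨i, hi, ?_⟩
      show e = s(c.getVert (i % c.length), c.getVert ((i + 1) % c.length))
      rw [key i hi, Nat.mod_eq_of_lt hi, h1]
    · rintro ⟨i, hi, h1⟩
      refine ⟨i, hi, ?_⟩
      have h1' : e = s(c.getVert (i % c.length), c.getVert ((i + 1) % c.length)) := h1
      rw [key i hi, Nat.mod_eq_of_lt hi] at h1'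
      exact h1'

end H93HD
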