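import Pool.Agent.H93HD.Defs

/-!
# From 2-regular connected classes to Hamiltonian cycles
-/

namespace H93HD

open Finset
open scoped Classical

/-- the graph of a 2-regular class -/
private def gr {α : Type*} (X : Sym2 α → ZMod 2) (hX : TwoReg X) : SimpleGraph α where
  Adj x y := X s(x, y) = 1
  symm := ⟨fun x y h => by rwa [Sym2.eq_swap]⟩
  loopless := ⟨fun x h => by
    obtain ⟨b, c, -, hb, hc, hd⟩ := hX x
    rcases (hd x).1 h with h1 | h1
    · exact hb h1.symm
    · exact hc h1.symm⟩

private theorem gr_adj {α : Type*} {X : Sym2 α → ZMod 2} {hX : TwoReg X} {x y : α} :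
    (gr X hX).Adj x y ↔ X s(x, y) = 1 := Iff.rfl

private theorem gr_ncard {α : Type*} (X : Sym2 α → ZMod 2) (hX : TwoReg X) (v : α) :
    ((gr X hX).neighborSet v).ncard = 2 := by
  obtain ⟨b, c, hbc, -, -, hd⟩ := hX v
  have : (gr X hX).neighborSet v = {b, c} := by
    ext w
    rw [SimpleGraph.mem_neighborSet, gr_adj, hd w]
    rfl
  rw [this, Set.ncard_pair hbc]

private theorem gr_reach {α : Type*} {X : Sym2 α → ZMod 2} {hX : TwoReg X} {x y : α}
    (h : Conn X x y) : (gr X hX).Reachable x y := by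
  induction h with
  | refl => exact SimpleGraph.Reachable.refl _
  | tail _ h ih => exact ih.trans (SimpleGraph.Adj.reachable h)

/-- a connected 2-regular class is the edge set of a Hamiltonian cycle -/
theorem hamCycle_of_class {α : Type*} [Finite α] [Nonempty α] [inst : DecidableEq α]
    (Γ : SimpleGraph α) (X : Sym2 α → ZMod 2) (hX : TwoReg X) (hconn : ∀ x y, Conn X x y)
    (hle : ∀ e, X e = 1 → e ∈ Γ.edgeSet) :
    ∃ (a : α) (c : Γ.Walk a a), c.IsHamiltonianCycle ∧ ∀ e, e ∈ c.edges ↔ X e = 1 := by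
  obtain ⟨a⟩ := (inferInstance : Nonempty α)
  have hcyc : (gr X hX).IsCycles := fun v _ => gr_ncard X hX v
  have hne : ((gr X hX).neighborSet a).Nonempty :=
    Set.nonempty_of_ncard_ne_zero (by rw [gr_ncard]; norm_num)
  obtain ⟨p, hp, hpv⟩ := hcyc.exists_cycle_toSubgraph_verts_eq_connectedComponentSupp
    (c := (gr X hX).connectedComponentMk a) (v := a) rfl hne
  have hmem : ∀ w, w ∈ p.support := by
    intro w
    rw [← SimpleGraph.Walk.mem_verts_toSubgraph, hpv, SimpleGraph.ConnectedComponent.mem_supp_iff,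
      SimpleGraph.ConnectedComponent.eq]
    exact gr_reach (hconn w a)
  have hham : p.IsHamiltonianCycle := by
    refine ⟨hp, hp.isPath_tail.isHamiltonian_of_mem fun w => ?_⟩
    rw [SimpleGraph.Walk.support_tail_of_not_nil _ hp.not_nil]
    by_cases hwa : w = a
    · rw [hwa]
      exact SimpleGraph.Walk.end_mem_tail_support hp.not_nil
    · have h1 := hmem w
      rw [← SimpleGraph.Walk.cons_tail_support] at h1
      rcases List.mem_cons.1 h1 with h2 | h2
      · exact absurd h2 hwa
      · exact h2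
  have hedges : ∀ e, e ∈ p.edges ↔ X e = 1 := by
    intro e
    constructor
    · intro he
      have h1 := p.edges_subset_edgeSet he
      induction e with
      | _ x y => exact h1
    · intro he
      induction e with
      | _ x y =>
        have h2 := hp.ncard_neighborSet_toSubgraph_eq_two (hmem x)
        have h3 : p.toSubgraph.neighborSet x = (gr X hX).neighborSet x :=
          Set.eq_of_subset_of_ncard_le (p.toSubgraph.neighborSet_subset x)
            (by rw [h2, gr_ncard]) (Set.toFinite _)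
        have h4 : y ∈ p.toSubgraph.neighborSet x := by rw [h3]; exact he
        exact SimpleGraph.Walk.adj_toSubgraph_iff_mem_edges.1 h4
  have hle' : gr X hX ≤ Γ := fun x y hxy => hle s(x, y) hxy
  refine ⟨a, p.mapLe hle', ?_, fun e => ?_⟩
  · exact hham.map (f := SimpleGraph.Hom.ofLE hle') Function.bijective_id
  · rw [SimpleGraph.Walk.edges_mapLe_eq_edges]
    exact hedges e

/-- `d` 2-regular classes in a `2d`-regular graph, whose sum mod 2 is the indicator of the edge set,
partition the edge set (count at every vertex). -/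
theorem unique_class {α : Type*} [Finite α] (Γ : SimpleGraph α) (d : ℕ)
    (hreg : ∀ v, (Γ.neighborSet v).ncard = 2 * d)
    (X : Fin d → Sym2 α → ZMod 2) (hX : ∀ i, TwoReg (X i))
    (hle : ∀ i e, X i e = 1 → e ∈ Γ.edgeSet)
    (hsum : ∀ e ∈ Γ.edgeSet, ∑ i, X i e = 1) :
    ∀ e ∈ Γ.edgeSet, ∃! i, X i e = 1 := by
  have := Fintype.ofFinite α
  intro e he
  induction e with
  | _ v u =>
    set N : Finset α := (Γ.neighborSet v).toFinset with hN
    have hNmem : ∀ w, w ∈ N ↔ Γ.Adj v w := by
      intro w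
      rw [hN, Set.mem_toFinset, SimpleGraph.mem_neighborSet]
    have hNcard : #N = 2 * d := by
      rw [← hreg v, Set.ncard_eq_toFinset_card']
    have hpos : ∀ w ∈ N, 1 ≤ #{i | X i s(v, w) = 1} := by
      intro w hw
      by_contra hcon
      have h0 : #{i | X i s(v, w) = 1} = 0 := by omega
      rw [Finset.card_eq_zero, Finset.filter_eq_empty_iff] at h0
      have h1 : ∑ i, X i s(v, w) = 0 := by
        refine Finset.sum_eq_zero fun i _ => ?_
        have h2 := h0 (Finset.mem_univ i)
        have h3 : ∀ x : ZMod 2, x ≠ 1 → x = 0 := by decide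
        exact h3 _ h2
      rw [hsum s(v, w) ((hNmem w).1 hw)] at h1
      exact absurd h1 (by decide)
    have htwo : ∀ i, #{w ∈ N | X i s(v, w) = 1} = 2 := by
      intro i
      obtain ⟨b, c, hbc, -, -, hd⟩ := hX i v
      have h1 : ({w ∈ N | X i s(v, w) = 1} : Finset α) = {b, c} := by
        ext w
        rw [Finset.mem_filter, Finset.mem_insert, Finset.mem_singleton, hd w]
        refine ⟨fun h => h.2, fun h => ⟨?_, h⟩⟩
        rw [hNmem]
        exact hle i s(v, w) ((hd w).2 h)
      rw [h1, Finset.card_pair hbc]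
    have hcount : ∑ w ∈ N, #{i | X i s(v, w) = 1} = ∑ w ∈ N, 1 := by
      have h1 : ∑ w ∈ N, #{i | X i s(v, w) = 1} = ∑ i : Fin d, #{w ∈ N | X i s(v, w) = 1} := by
        simp only [Finset.card_filter]
        rw [Finset.sum_comm]
      rw [h1, Finset.sum_congr rfl (fun i _ => htwo i)]
      simp [hNcard, mul_comm]
    have hall := (Finset.sum_eq_sum_iff_of_le hpos).1 hcount.symm
    have h1 := hall u ((hNmem u).2 he)
    obtain ⟨i, hi⟩ := Finset.card_eq_one.1 h1.symm
    refine ⟨i, ?_, fun j hj => ?_⟩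
    · have : i ∈ ({i | X i s(v, u) = 1} : Finset (Fin d)) := by rw [hi]; exact Finset.mem_singleton_self i
      exact (Finset.mem_filter.1 this).2
    · have : j ∈ ({i | X i s(v, u) = 1} : Finset (Fin d)) := Finset.mem_filter.2 ⟨Finset.mem_univ j, hj⟩
      rw [hi] at this
      exact Finset.mem_singleton.1 this

theorem hamDecomp_of_classes {α : Type*} [Finite α] [Nonempty α] [inst : DecidableEq α]
    (Γ : SimpleGraph α) (d : ℕ)
    (hreg : ∀ v, (Γ.neighborSet v).ncard = 2 * d)
    (X : Fin d → Sym2 α → ZMod 2) (hX : ∀ i, TwoReg (X i)) (hconn : ∀ i x y, Conn (X i) x y)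
    (hle : ∀ i e, X i e = 1 → e ∈ Γ.edgeSet)
    (hsum : ∀ e ∈ Γ.edgeSet, ∑ i, X i e = 1) :
    HamDecomp Γ d := by
  have h1 := fun i => hamCycle_of_class Γ (X i) (hX i) (hconn i) (hle i)
  choose a c hc he using h1
  refine ⟨a, c, hc, fun e hee => ?_⟩
  obtain ⟨i, hi, hu⟩ := unique_class Γ d hreg X hX hle hsum e hee
  exact ⟨i, (he i e).2 hi, fun j hj => hu j ((he j e).1 hj)⟩

end H93HD
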