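import Mathlib

/-!
# Decomposition into Hamiltonian cycles
-/

namespace H93HD

/-- `X` decomposes into exactly `d` Hamiltonian cycles: there are `d` Hamiltonian cycles of `X`
such that every edge of `X` lies on exactly one of them. -/
def HamDecomp {α : Type*} [DecidableEq α] (X : SimpleGraph α) (d : ℕ) : Prop :=
  ∃ (a : Fin d → α) (c : ∀ i, X.Walk (a i) (a i)),
    (∀ i, (c i).IsHamiltonianCycle) ∧ ∀ e ∈ X.edgeSet, ∃! i, e ∈ (c i).edges

end H93HD
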