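import Pool.Agent.H93HD.Defs

/-!
# Petersen's 2-factor theorem (oriented form)

Every finite simple graph in which all degrees are `2k` has permutations `σ_1, …, σ_k` of the vertex
set such that every edge is `{v, σ_m v}` for exactly one pair `(m, v)`.

Proof idea: (a) a graph with all degrees even has an orientation with indegree = outdegree at each vertex:
induction on the number of edges (a graph with an edge and without vertices of degree one
contains a cycle, orient it and delete it), or Euler trails;
(b) the resulting `k`-regular bipartite graph (tails, heads) has a perfect matching by Hall's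
theorem; remove it, induct on `k`.
-/

namespace H93HD

open Finset
open scoped Classical

/-- out-degree of a list of pairs -/
theorem ncard_fst_list {V : Type*} (L : List (V × V)) (hL : L.Nodup) (v : V) :
    {w | (v, w) ∈ L}.ncard = (L.map Prod.fst).count v := by
  have h1 : {w | (v, w) ∈ L} = ((((L.filter (fun p => p.1 = v)).toFinset.image Prod.snd) :
      Finset V) : Set V) := by
    ext w
    simp
  rw [h1, Set.ncard_coe_finset, Finset.card_image_of_injOn, List.toFinset_card_of_nodup
    (hL.filter _)]
  · rw [List.count, List.countP_map, List.countP_eq_length_filter]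
    congr 1
  · intro p hp q hq hpq
    simp only [List.coe_toFinset, List.mem_filter, decide_eq_true_eq, Set.mem_ofPred_eq] at hp hq
    exact Prod.ext (hp.2.trans hq.2.symm) hpq

/-- in-degree of a list of pairs -/
theorem ncard_snd_list {V : Type*} (L : List (V × V)) (hL : L.Nodup) (v : V) :
    {w | (w, v) ∈ L}.ncard = (L.map Prod.snd).count v := by
  have h := ncard_fst_list (L.map Prod.swap) (hL.map Prod.swap_injective) v
  rw [List.map_map] at h
  have e : (Prod.fst ∘ Prod.swap : V × V → V) = Prod.snd := by
    funext p; rfl
  rw [e] at h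
  rw [← h]
  congr 1
  ext w
  simp only [Set.mem_ofPred_eq, List.mem_map, Prod.exists, Prod.swap_prod_mk, Prod.mk.injEq]
  constructor
  · intro h'; exact ⟨w, v, h', rfl, rfl⟩
  · rintro ⟨a, b, h', rfl, rfl⟩; exact h'

/-- a nonempty graph without vertices of degree one contains a cycle -/
theorem exists_cycle_of_even {V : Type*} [Finite V] (G : SimpleGraph V)
    (heven : ∀ v, Even (G.neighborSet v).ncard) (hne : ∃ u v, G.Adj u v) :
    ∃ (a : V) (c : G.Walk a a), c.IsCycle := by
  by_contra hcon
  have hac : G.IsAcyclic := by
    intro a c hc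
    exact hcon ⟨a, c, hc⟩
  have : Fintype V := Fintype.ofFinite V
  obtain ⟨a, b, hab⟩ := hne
  have : Nonempty V := ⟨a⟩
  obtain ⟨u, v, p, hp, hmax⟩ := SimpleGraph.Walk.exists_isPath_forall_isPath_length_le_length G
  have hnil : ¬ p.Nil := by
    intro hn
    have h1 : (SimpleGraph.Walk.cons hab SimpleGraph.Walk.nil).IsPath := by
      simp [SimpleGraph.Walk.cons_isPath_iff, hab.ne]
    have h2 := hmax _ _ _ h1
    rw [SimpleGraph.Walk.length_eq_zero_iff.mpr hn] at h2
    simp at h2
  have h1 : G.neighborSet u = {p.snd} := by
    ext w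
    simp only [SimpleGraph.mem_neighborSet, Set.mem_singleton_iff]
    constructor
    · intro hadj
      apply hac.eq_snd_of_adj_start hp hadj
      by_contra hw
      have h3 : (p.cons hadj.symm).IsPath := hp.cons hw
      have h4 := hmax _ _ _ h3
      simp at h4
    · rintro rfl
      exact p.adj_snd hnil
  have h2 := heven u
  rw [h1, Set.ncard_singleton] at h2
  exact absurd h2 (by decide)

theorem balanced_aux {V : Type*} [Finite V] (n : ℕ) : ∀ (G : SimpleGraph V)
    (_ : G.edgeSet.ncard = n) (_ : ∀ v, Even (G.neighborSet v).ncard),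
    ∃ D : V → V → Prop, (∀ u v, D u v → G.Adj u v) ∧ (∀ u v, G.Adj u v → (D u v ∨ D v u)) ∧
      (∀ u v, D u v → ¬ D v u) ∧ ∀ v, {w | D v w}.ncard = {w | D w v}.ncard := by
  induction n using Nat.strong_induction_on with
  | _ n ih =>
    intro G hn heven
    by_cases hne : ∃ u v, G.Adj u v
    · obtain ⟨a, c, hc⟩ := exists_cycle_of_even G heven hne
      set L : List (V × V) := c.darts.map (fun d => d.toProd) with hLdef
      have hedge : ∀ u v, s(u, v) ∈ c.edges ↔ ((u, v) ∈ L ∨ (v, u) ∈ L) := by
        intro u v
        rw [SimpleGraph.Walk.edges, List.mem_map, hLdef]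
        constructor
        · rintro ⟨d, hd, hde⟩
          have : d.edge = s(d.toProd.1, d.toProd.2) := rfl
          rw [this, Sym2.eq_iff] at hde
          rcases hde with ⟨h1, h2⟩ | ⟨h1, h2⟩
          · left
            exact List.mem_map.mpr ⟨d, hd, Prod.ext h1 h2⟩
          · right
            exact List.mem_map.mpr ⟨d, hd, Prod.ext h1 h2⟩
        · rintro (h | h)
          · obtain ⟨d, hd, h'⟩ := List.mem_map.mp h
            refine ⟨d, hd, ?_⟩
            have : d.edge = s(d.toProd.1, d.toProd.2) := rfl
            rw [this, h']
          · obtain ⟨d, hd, h'⟩ := List.mem_map.mp h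
            refine ⟨d, hd, ?_⟩
            have : d.edge = s(d.toProd.1, d.toProd.2) := rfl
            rw [this, h', Sym2.eq_swap]
      have hLadj : ∀ u v, (u, v) ∈ L → G.Adj u v := by
        intro u v h
        obtain ⟨d, hd, h'⟩ := List.mem_map.mp h
        have := d.adj
        rw [h'] at this
        exact this
      have hnd : c.edges.Nodup := hc.isTrail.edges_nodup
      have hLnd : L.Nodup := by
        rw [hLdef]
        have h1 : (c.darts.map (fun d => d.edge)).Nodup := hnd
        have h2 : (c.darts.map (fun d => d.edge)) = (c.darts.map (fun d => d.toProd)).map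
            (fun p => s(p.1, p.2)) := by
          rw [List.map_map]; rfl
        rw [h2] at h1
        exact List.Nodup.of_map _ h1
      have hLanti : ∀ u v, (u, v) ∈ L → (v, u) ∉ L := by
        intro u v h h'
        have hne : u ≠ v := (hLadj u v h).ne
        have h1 : (c.darts.map (fun d => d.edge)).Nodup := hnd
        obtain ⟨d, hd, e⟩ := List.mem_map.mp h
        obtain ⟨d', hd', e'⟩ := List.mem_map.mp h'
        have h2 : d.edge = d'.edge := by
          have x1 : d.edge = s(d.toProd.1, d.toProd.2) := rfl
          have x2 : d'.edge = s(d'.toProd.1, d'.toProd.2) := rfl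
          rw [x1, x2, e, e', Sym2.eq_swap]
        have h3 := List.inj_on_of_nodup_map h1 hd hd' h2
        rw [h3, e'] at e
        exact hne (Prod.ext_iff.mp e).2
      have hbal : ∀ v, {w | (v, w) ∈ L}.ncard = {w | (w, v) ∈ L}.ncard := by
        intro v
        rw [ncard_fst_list L hLnd, ncard_snd_list L hLnd]
        have h1 : L.map Prod.fst = c.support.dropLast := by
          rw [hLdef, List.map_map]
          exact c.map_fst_darts
        have h2 : L.map Prod.snd = c.support.tail := by
          rw [hLdef, List.map_map]
          exact c.map_snd_darts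
        have h3 := c.map_fst_darts_append
        have h4 := c.cons_map_snd_darts
        have h5 : (c.darts.map (fun d => d.fst)) = L.map Prod.fst := by
          rw [hLdef, List.map_map]; rfl
        have h6 : (c.darts.map (fun d => d.snd)) = L.map Prod.snd := by
          rw [hLdef, List.map_map]; rfl
        rw [h5] at h3
        rw [h6] at h4
        have h7 : L.map Prod.fst ++ [a] = a :: L.map Prod.snd := by rw [h3, h4]
        have h8 := congrArg (List.count v) h7
        simp only [List.count_append, List.count_cons, List.count_nil] at h8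
        omega
      -- the smaller graph
      set G' : SimpleGraph V := G.deleteEdges {e | e ∈ c.edges} with hG'
      have hG'adj : ∀ u v, G'.Adj u v ↔ G.Adj u v ∧ s(u, v) ∉ c.edges := by
        intro u v
        rw [hG', SimpleGraph.deleteEdges_adj]; rfl
      have hfin : ∀ s : Set V, s.Finite := fun s => Set.toFinite s
      have hlt : G'.edgeSet.ncard < n := by
        rw [← hn]
        apply Set.ncard_lt_ncard _ (Set.toFinite _)
        constructor
        · exact SimpleGraph.edgeSet_mono (SimpleGraph.deleteEdges_le _)
        · intro hsub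
          obtain ⟨e, he⟩ : ∃ e, e ∈ c.edges := by
            have : c.edges ≠ [] := by
              intro h0
              have h1 := c.length_edges
              rw [h0] at h1
              have h2 := hc.three_le_length
              simp at h1
              omega
            exact List.exists_mem_of_ne_nil _ this
          have h1 : e ∈ G.edgeSet := c.edges_subset_edgeSet he
          have h2 := hsub h1
          rw [hG', SimpleGraph.edgeSet_deleteEdges] at h2
          exact h2.2 he
      have hsplit : ∀ v, (G.neighborSet v).ncard =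
          (G'.neighborSet v).ncard + ({w | (v, w) ∈ L}.ncard + {w | (w, v) ∈ L}.ncard) := by
        intro v
        have e1 : G.neighborSet v = G'.neighborSet v ∪ ({w | (v, w) ∈ L} ∪ {w | (w, v) ∈ L}) := by
          ext w
          simp only [SimpleGraph.mem_neighborSet, Set.mem_union, Set.mem_ofPred_eq, hG'adj, hedge]
          constructor
          · intro h
            by_cases h' : (v, w) ∈ L ∨ (w, v) ∈ L
            · right; exact h'
            · left; exact ⟨h, h'⟩
          · rintro (h | h | h)
            · exact h.1
            · exact hLadj _ _ h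
            · exact (hLadj _ _ h).symm
        rw [e1, Set.ncard_union_eq _ (hfin _) (hfin _), Set.ncard_union_eq _ (hfin _) (hfin _)]
        · rw [Set.disjoint_left]
          intro w h1 h2
          exact hLanti _ _ h1 h2
        · rw [Set.disjoint_left]
          intro w h1 h2
          simp only [SimpleGraph.mem_neighborSet, hG'adj, hedge] at h1
          exact h1.2 h2
      have heven' : ∀ v, Even (G'.neighborSet v).ncard := by
        intro v
        have h1 := heven v
        rw [hsplit v, hbal v] at h1
        rw [Nat.even_iff] at h1 ⊢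
        omega
      obtain ⟨D', hD1, hD2, hD3, hD4⟩ := ih _ hlt G' rfl heven'
      refine ⟨fun u v => D' u v ∨ (u, v) ∈ L, ?_, ?_, ?_, ?_⟩
      · rintro u v (h | h)
        · exact ((hG'adj u v).mp (hD1 u v h)).1
        · exact hLadj _ _ h
      · intro u v h
        by_cases h' : s(u, v) ∈ c.edges
        · rcases (hedge u v).mp h' with h1 | h1
          · left; right; exact h1
          · right; right; exact h1
        · rcases hD2 u v ((hG'adj u v).mpr ⟨h, h'⟩) with h1 | h1
          · left; left; exact h1
          · right; left; exact h1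
      · rintro u v (h | h) (h' | h')
        · exact hD3 _ _ h h'
        · exact ((hG'adj u v).mp (hD1 u v h)).2 ((hedge u v).mpr (Or.inr h'))
        · exact ((hG'adj v u).mp (hD1 v u h')).2 ((hedge v u).mpr (Or.inr h))
        · exact hLanti _ _ h h'
      · intro v
        have e1 : {w | D' v w ∨ (v, w) ∈ L} = {w | D' v w} ∪ {w | (v, w) ∈ L} := rfl
        have e2 : {w | D' w v ∨ (w, v) ∈ L} = {w | D' w v} ∪ {w | (w, v) ∈ L} := rfl
        rw [e1, e2, Set.ncard_union_eq _ (hfin _) (hfin _), Set.ncard_union_eq _ (hfin _) (hfin _),
          hD4 v, hbal v]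
        · rw [Set.disjoint_left]
          intro w h h'
          exact ((hG'adj w v).mp (hD1 w v h)).2 ((hedge w v).mpr (Or.inl h'))
        · rw [Set.disjoint_left]
          intro w h h'
          exact ((hG'adj v w).mp (hD1 v w h)).2 ((hedge v w).mpr (Or.inl h'))
    · refine ⟨fun _ _ => False, fun _ _ h => h.elim, fun u v h => (hne ⟨u, v, h⟩).elim,
        fun _ _ h => h.elim, fun v => rfl⟩

/-- balanced orientation -/
theorem balanced_orientation {V : Type*} [Finite V] (G : SimpleGraph V)
    (heven : ∀ v, Even (G.neighborSet v).ncard) :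
    ∃ D : V → V → Prop, (∀ u v, D u v → G.Adj u v) ∧ (∀ u v, G.Adj u v → (D u v ∨ D v u)) ∧
      (∀ u v, D u v → ¬ D v u) ∧ ∀ v, {w | D v w}.ncard = {w | D w v}.ncard :=
  balanced_aux _ G rfl heven

/-- a regular relation of positive degree contains a permutation -/
theorem exists_perm_of_regular {V : Type*} [Finite V] (k : ℕ) (D : V → V → Prop)
    (hout : ∀ v, {w | D v w}.ncard = k + 1) (hin : ∀ v, {w | D w v}.ncard = k + 1) :
    ∃ σ : Equiv.Perm V, ∀ v, D v (σ v) := by
  have : Fintype V := Fintype.ofFinite V
  have hall : ∀ A : Finset V, A.card ≤ (univ.filter (fun b => ∃ a ∈ A, D a b)).card := by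
    intro A
    set T := univ.filter (fun b => ∃ a ∈ A, D a b) with hT
    have h1 : A.card * (k + 1) ≤ T.card * (k + 1) := by
      apply Finset.card_mul_le_card_mul D
      · intro a ha
        rw [← hout a, ← Set.ncard_coe_finset]
        apply Set.ncard_le_ncard _ (Set.toFinite _)
        intro w hw
        simp only [Finset.bipartiteAbove, coe_filter, Set.mem_ofPred_eq, hT, mem_filter, mem_univ,
          true_and] at hw ⊢
        exact ⟨⟨a, ha, hw⟩, hw⟩
      · intro b _
        rw [← hin b, ← Set.ncard_coe_finset]
        apply Set.ncard_le_ncard _ (Set.toFinite _)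
        intro w hw
        simp only [Finset.bipartiteBelow, coe_filter, Set.mem_ofPred_eq] at hw ⊢
        exact hw.2
    exact Nat.le_of_mul_le_mul_right h1 (Nat.succ_pos k)
  obtain ⟨f, hf, hfD⟩ := (Fintype.all_card_le_filter_rel_iff_exists_injective D).mp hall
  exact ⟨Equiv.ofBijective f (Finite.injective_iff_bijective.mp hf), hfD⟩

/-- a `k`-regular relation decomposes into `k` permutations -/
theorem perms_of_regular {V : Type*} [Finite V] (k : ℕ) (D : V → V → Prop)
    (hout : ∀ v, {w | D v w}.ncard = k) (hin : ∀ v, {w | D w v}.ncard = k) :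
    ∃ σ : Fin k → Equiv.Perm V, (∀ m v, D v (σ m v)) ∧
      ∀ u v, D u v → ∃! m, σ m u = v := by
  induction k generalizing D with
  | zero =>
    refine ⟨fun m => m.elim0, fun m => m.elim0, ?_⟩
    intro u v h
    have h1 := hout u
    rw [Set.ncard_eq_zero (Set.toFinite _)] at h1
    have h2 : v ∈ {w | D u w} := h
    rw [h1] at h2
    exact h2.elim
  | succ k ih =>
    obtain ⟨σ0, h0⟩ := exists_perm_of_regular k D hout hin
    have hout' : ∀ v, {w | D v w ∧ w ≠ σ0 v}.ncard = k := by
      intro v
      have e : {w | D v w ∧ w ≠ σ0 v} = {w | D v w} \ {σ0 v} := by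
        ext w; simp
      have hm : σ0 v ∈ {w | D v w} := h0 v
      rw [e, Set.ncard_sdiff_singleton_of_mem hm, hout v]
      rfl
    have hin' : ∀ v, {w | D w v ∧ v ≠ σ0 w}.ncard = k := by
      intro v
      have e : {w | D w v ∧ v ≠ σ0 w} = {w | D w v} \ {σ0.symm v} := by
        ext w
        simp only [Set.mem_ofPred_eq, Set.mem_sdiff, Set.mem_singleton_iff]
        constructor
        · rintro ⟨h1, h2⟩
          refine ⟨h1, fun h3 => h2 ?_⟩
          rw [h3, Equiv.apply_symm_apply]
        · rintro ⟨h1, h2⟩
          refine ⟨h1, fun h3 => h2 ?_⟩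
          rw [h3, Equiv.symm_apply_apply]
      have hm : σ0.symm v ∈ {w | D w v} := by
        have := h0 (σ0.symm v)
        rw [Equiv.apply_symm_apply] at this
        exact this
      rw [e, Set.ncard_sdiff_singleton_of_mem hm, hin v]
      rfl
    obtain ⟨σ, h1, h2⟩ := ih (fun u w => D u w ∧ w ≠ σ0 u) hout' hin'
    refine ⟨Fin.cons σ0 σ, ?_, ?_⟩
    · intro m v
      refine Fin.cases ?_ (fun m => ?_) m
      · simpa using h0 v
      · simpa using (h1 m v).1
    · intro u v huv
      by_cases hv : v = σ0 u
      · refine ⟨0, by simp [hv], ?_⟩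
        intro m
        refine Fin.cases (fun _ => rfl) (fun m hm => ?_) m
        have := (h1 m u).2
        simp only [Fin.cons_succ] at hm
        exact absurd (hm.trans hv) this
      · obtain ⟨m, hm, hu⟩ := h2 u v ⟨huv, hv⟩
        refine ⟨m.succ, by simpa using hm, ?_⟩
        intro m'
        refine Fin.cases (fun h => ?_) (fun m' h => ?_) m'
        · simp only [Fin.cons_zero] at h
          exact absurd h.symm hv
        · simp only [Fin.cons_succ] at h
          rw [hu m' h]

theorem petersen {V : Type*} [Finite V] (G : SimpleGraph V) (k : ℕ)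
    (hreg : ∀ v, (G.neighborSet v).ncard = 2 * k) :
    ∃ σ : Fin k → Equiv.Perm V, (∀ m v, G.Adj v (σ m v)) ∧
      ∀ u v, G.Adj u v → ∃! p : Fin k × V, s(p.2, σ p.1 p.2) = s(u, v) := by
  obtain ⟨D, h1, h2, h3, h4⟩ := balanced_orientation G
    (fun v => by rw [hreg v]; exact even_two_mul k)
  have hsum : ∀ v, {w | D v w}.ncard + {w | D w v}.ncard = 2 * k := by
    intro v
    rw [← hreg v, ← Set.ncard_union_eq _ (Set.toFinite _) (Set.toFinite _)]
    · congr 1
      ext w
      simp only [Set.mem_union, Set.mem_ofPred_eq, SimpleGraph.mem_neighborSet]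
      constructor
      · rintro (h | h)
        · exact h1 _ _ h
        · exact (h1 _ _ h).symm
      · exact h2 v w
    · rw [Set.disjoint_left]
      intro w h h'
      exact h3 _ _ h h'
  have hout : ∀ v, {w | D v w}.ncard = k := by
    intro v
    have := hsum v
    have := h4 v
    omega
  have hin : ∀ v, {w | D w v}.ncard = k := by
    intro v
    have := hsum v
    have := h4 v
    omega
  obtain ⟨σ, hσ1, hσ2⟩ := perms_of_regular k D hout hin
  refine ⟨σ, fun m v => h1 _ _ (hσ1 m v), ?_⟩
  have key : ∀ u v, D u v → ∃! p : Fin k × V, s(p.2, σ p.1 p.2) = s(u, v) := by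
    intro u v huv
    obtain ⟨m, hm, hu⟩ := hσ2 u v huv
    refine ⟨(m, u), by simp only [hm], ?_⟩
    rintro ⟨m', x⟩ h
    simp only [Sym2.eq_iff] at h
    rcases h with ⟨rfl, h⟩ | ⟨rfl, h⟩
    · rw [hu m' h]
    · have h5 := hσ1 m' x
      rw [h] at h5
      exact absurd h5 (h3 _ _ huv)
  intro u v huv
  rcases h2 u v huv with h | h
  · exact key u v h
  · rw [Sym2.eq_swap (a := u)]
    exact key v u h

end H93HD
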