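import Pool.Agent.H93HD.HamConv
import Pool.Agent.H93HD.Petersen
import Pool.Agent.H93HD.EnumLem
import Pool.Agent.H93HD.Core

/-!
# Main theorem
-/

namespace H93HD

theorem main {V W : Type*} [Fintype V] [Fintype W] [DecidableEq V] [DecidableEq W]
    (G : SimpleGraph V) (H : SimpleGraph W) (k : ℕ) (hk : 1 ≤ k) (hG : G.Connected)
    (hreg : ∀ v, (G.neighborSet v).ncard = 2 * k) (hH : HamDecomp H k)
    (heven : Even (Fintype.card W))
    (hbig : 16 * k ^ 2 * (Fintype.card V + 4) ^ 2 ≤ Fintype.card W) :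
    HamDecomp (G □ H) (2 * k) := by
  obtain ⟨aH, cH, hcH, huH⟩ := hH
  have hV : Nonempty V := hG.nonempty
  have hk0 : 0 < k := by omega
  have h1 := fun m => enum_of_hamCycle H (cH m) (hcH m)
  have hn : 3 ≤ Fintype.card W := (h1 ⟨0, hk0⟩).1
  choose h henum hedges using fun m => (h1 m).2
  have hW : Nonempty W := ⟨aH ⟨0, hk0⟩⟩
  have hadj : ∀ m i, H.Adj (h m i) (h m (i + 1)) := by
    intro m i
    have h2 : h m i = h m (i % Fintype.card W) :=
      ((henum m).1 _ _).2 (Nat.mod_modEq _ _).symm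
    have h3 : h m (i + 1) = h m (i % Fintype.card W + 1) :=
      ((henum m).1 _ _).2 (Nat.ModEq.add_right 1 (Nat.mod_modEq _ _).symm)
    rw [h2, h3]
    have h4 : s(h m (i % Fintype.card W), h m (i % Fintype.card W + 1)) ∈ (cH m).edges :=
      (hedges m _).2 ⟨_, Nat.mod_lt _ (by omega), rfl⟩
    exact SimpleGraph.Walk.edges_subset_edgeSet _ h4
  have hH' : ∀ x y, H.Adj x y → ∃! m : Fin k, ∃ i < Fintype.card W,
      s(x, y) = s(h m i, h m (i + 1)) := by
    intro x y hxy
    obtain ⟨m, hm, hu⟩ := huH s(x, y) hxy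
    exact ⟨m, (hedges m _).1 hm, fun m' hm' => hu m' ((hedges m' _).2 hm')⟩
  obtain ⟨σ, hσ, hσu⟩ := petersen G k hreg
  obtain ⟨X, hX1, hX2, hX3, hX4⟩ := core G H k (Fintype.card W) hk rfl hn heven hG σ hσ hσu h henum
    hadj hH' hbig
  have hdeg := boxProd_degree G H k hreg (enum_degree H k _ hn h henum hadj hH')
  let eqv : Fin k × Bool ≃ Fin (2 * k) := Fintype.equivFinOfCardEq (by
    rw [Fintype.card_prod, Fintype.card_fin, Fintype.card_bool]; ring)
  refine hamDecomp_of_classes (G □ H) (2 * k) hdeg (fun j => X (eqv.symm j))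
    (fun j => hX1 _) (fun j => hX2 _) (fun j => hX3 _) (fun e he => ?_)
  rw [Equiv.sum_comp eqv.symm (fun i => X i e)]
  exact hX4 e he

end H93HD
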