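import Pool.Agent.H93HD.WalkLem

/-!
# The word of letters of one orbit

Times are `0, 1, …, n - 2`.  `S` = requests of incidence type, `T` = hosting requests.
`lam (i+1)` is the letter at time `i` (if `i ∉ Γ`), `Γ` = the gap times = `α '' T`.
Every request `q` has two anchors `α q, β q`; anchors of different requests are at distance `≥ R`,
and all anchors are in `[R, n - 1 - R]`.
 * `q ∈ S`: at time `α q` the letter is in `{s q - 1, s q}` if `ty q = true` and in
   `{s q - 2, s q + 1}` if `ty q = false`;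
 * `q ∈ T`: no letter at time `α q`, and the letters at times `α q - 1`, `β q - 1`, `β q` are in
   `{s q + 1, s q + 2}`.
The last letter is `p - 2` for even `p` and `p - 1` for odd `p` (both even, `n` even, `|T|` even).

Proof: `K i` = number of times `< i` not in `Γ`.  Use `walk_extend` with the set of pairs
`(K (t+1), z)`, where `z` is the admissible value with `z ≡ K (t+1) - 1 mod 2`, together with
`(1, 0)` and `(K (n-1), D)`, and put `lam i = Y (K i)`.  For different requests the distance of
the `K`-values is at least `R - 2 ≥ p + 2` because the interval `(π, π + R)` after an anchor `π` has no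
gap; for the same request in `T` the values differ by at most one.
-/

namespace H93HD

open Finset

private def pick (a b κ : ℤ) : ℤ := if Even (a - (κ - 1)) then a else b

private theorem pick_mem (a b κ : ℤ) : pick a b κ = a ∨ pick a b κ = b := by
  unfold pick
  split_ifs
  · exact Or.inl rfl
  · exact Or.inr rfl

private theorem pick_even {a b κ : ℤ} (h : Odd (a - b)) : Even (pick a b κ - (κ - 1)) := by
  unfold pick
  split_ifs with h1
  · exact h1
  · rw [Int.not_even_iff_odd] at h1
    have : b - (κ - 1) = (a - (κ - 1)) - (a - b) := by ring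
    rw [this]
    exact h1.sub_odd h

/-- the number of non-gap times below `i` -/
private def KK (Γ : Finset ℕ) (i : ℕ) : ℤ := (((range i).filter (fun j => j ∉ Γ)).card : ℤ)

private theorem KK_succ_not {Γ : Finset ℕ} {i : ℕ} (h : i ∉ Γ) : KK Γ (i + 1) = KK Γ i + 1 := by
  unfold KK
  rw [Finset.range_add_one, Finset.filter_insert, if_pos h, Finset.card_insert_of_notMem (by simp)]
  push_cast
  rfl

private theorem KK_succ_mem {Γ : Finset ℕ} {i : ℕ} (h : i ∈ Γ) : KK Γ (i + 1) = KK Γ i := by
  unfold KK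
  rw [Finset.range_add_one, Finset.filter_insert, if_neg (by simpa using h)]

private theorem KK_mono (Γ : Finset ℕ) {i j : ℕ} (h : i ≤ j) : KK Γ i ≤ KK Γ j := by
  unfold KK
  exact_mod_cast Finset.card_le_card (Finset.filter_subset_filter _ (by
    intro x hx
    rw [Finset.mem_range] at hx ⊢
    omega))

private theorem KK_add {Γ : Finset ℕ} {x : ℕ} : ∀ {m : ℕ}, (∀ g ∈ Γ, ¬ (x ≤ g ∧ g < x + m)) →
    KK Γ (x + m) = KK Γ x + m := by
  intro m
  induction m with
  | zero => intro _; simp
  | succ m ih =>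
    intro h
    rw [← add_assoc, KK_succ_not, ih]
    · push_cast; ring
    · intro g hg hcon
      exact h g hg ⟨hcon.1, by omega⟩
    · intro hg
      exact h _ hg ⟨by omega, by omega⟩

private theorem KK_far {Γ : Finset ℕ} {x m t t' : ℕ} (h : ∀ g ∈ Γ, ¬ (x ≤ g ∧ g < x + m))
    (h1 : t ≤ x) (h2 : x + m ≤ t') : KK Γ t + m ≤ KK Γ t' := by
  have h3 := KK_mono Γ h1
  have h4 := KK_mono Γ h2
  rw [KK_add h] at h4
  linarith

private theorem KK_card {Γ : Finset ℕ} {i : ℕ} (h : Γ ⊆ range i) :
    KK Γ i = i - Γ.card := by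
  unfold KK
  have h1 : (range i).filter (fun j => j ∉ Γ) = range i \ Γ := by
    ext x; simp
  rw [h1, Finset.card_sdiff_of_subset h, Finset.card_range, Nat.cast_sub]
  simpa using Finset.card_le_card h

theorem schedule {ι : Type*} [DecidableEq ι] (n p R : ℕ) (hp : 3 ≤ p) (hR : p + 4 ≤ R) (hn : Even n)
    (hnR : 2 * R + 2 ≤ n)
    (S T : Finset ι) (hST : Disjoint S T) (hT : Even T.card)
    (α β : ι → ℕ) (s : ι → ℤ) (ty : ι → Bool)
    (hrange : ∀ q ∈ S ∪ T, R ≤ α q ∧ α q + R + 1 ≤ n ∧ R ≤ β q ∧ β q + R + 1 ≤ n)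
    (hsep : ∀ q ∈ S ∪ T, ∀ q' ∈ S ∪ T, q ≠ q' →
      ∀ x ∈ ({α q, β q} : Finset ℕ), ∀ y ∈ ({α q', β q'} : Finset ℕ), x + R ≤ y ∨ y + R ≤ x)
    (hTlt : ∀ q ∈ T, α q + 2 ≤ β q)
    (hS : ∀ q ∈ S, 2 ≤ s q ∧ s q ≤ p + 1) (hTs : ∀ q ∈ T, 0 ≤ s q ∧ s q ≤ p - 1) :
    ∃ lam : ℕ → ℤ, lam 1 = 0 ∧
      (∀ i, 1 ≤ i → i < n - 1 → i ∉ T.image α → (lam (i + 1) = lam i + 1 ∨ lam (i + 1) = lam i - 1)) ∧
      (∀ i, 1 ≤ i → i < n - 1 → i ∈ T.image α → lam (i + 1) = lam i) ∧
      lam (n - 1) = (if Even p then (p : ℤ) - 2 else (p : ℤ) - 1) ∧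
      (∀ q ∈ S, ty q = true → (lam (α q + 1) = s q - 1 ∨ lam (α q + 1) = s q)) ∧
      (∀ q ∈ S, ty q = false → (lam (α q + 1) = s q - 2 ∨ lam (α q + 1) = s q + 1)) ∧
      (∀ q ∈ T, ∀ t ∈ ({α q, β q, β q + 1} : Finset ℕ), lam t = s q + 1 ∨ lam t = s q + 2) := by
  classical
  obtain ⟨Γ, hΓ⟩ : ∃ Γ : Finset ℕ, Γ = T.image α := ⟨_, rfl⟩
  obtain ⟨D, hD⟩ : ∃ D : ℤ, D = (if Even p then (p : ℤ) - 2 else (p : ℤ) - 1) := ⟨_, rfl⟩
  have hDev : Even D := by
    rw [hD]
    split_ifs with h
    · have : Even (p : ℤ) := by exact_mod_cast h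
      exact this.sub (by norm_num)
    · rw [Nat.not_even_iff_odd] at h
      have : Odd (p : ℤ) := by exact_mod_cast h
      exact this.sub_odd (by norm_num)
  have hDr : 0 ≤ D ∧ D ≤ p := by
    rw [hD]
    split_ifs <;> constructor <;> omega
  have hmemΓ : ∀ g, g ∈ Γ ↔ ∃ q ∈ T, α q = g := by
    intro g; rw [hΓ, Finset.mem_image]
  have hgap : ∀ g ∈ Γ, R ≤ g ∧ g + R + 1 ≤ n := by
    intro g hg
    obtain ⟨q, hq, rfl⟩ := (hmemΓ g).1 hg
    have := hrange q (Finset.mem_union_right _ hq)
    exact ⟨this.1, this.2.1⟩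
  have hinj : Set.InjOn α T := by
    intro q hq q' hq' h
    by_contra hne
    have := hsep q (Finset.mem_union_right _ hq) q' (Finset.mem_union_right _ hq') hne
      (α q) (by simp) (α q') (by simp)
    omega
  have hΓcard : Γ.card = T.card := by rw [hΓ]; exact Finset.card_image_of_injOn hinj
  have hK1 : KK Γ 1 = 1 := by
    have h := KK_add (Γ := Γ) (x := 0) (m := 1) (fun g hg hcon => by
      have := (hgap g hg).1; omega)
    simpa [KK] using h
  have hKn : Even (D - (KK Γ (n - 1) - 1)) := by
    rw [KK_card (i := n - 1) (by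
      intro g hg
      rw [Finset.mem_range]
      have := (hgap g hg).2
      omega), hΓcard]
    obtain ⟨a, ha⟩ := hn
    obtain ⟨b, hb⟩ := hT
    obtain ⟨d, hd⟩ := hDev
    rw [hb, hd]
    refine ⟨d - a + b + 1, ?_⟩
    have : ((n - 1 : ℕ) : ℤ) = (n : ℤ) - 1 := by
      rw [Nat.cast_sub (by omega)]; norm_num
    rw [this, ha]
    push_cast
    ring
  -- the labels and their times
  let IsT : Option (Option ι) → ℕ → Prop := fun l t => match l with
    | none => t = 1
    | some none => t = n - 1
    | some (some q) => (q ∈ S ∧ t = α q + 1) ∨ (q ∈ T ∧ (t = α q ∨ t = β q ∨ t = β q + 1))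
  let zv : Option (Option ι) → ℕ → ℤ := fun l t => match l with
    | none => 0
    | some none => D
    | some (some q) => if q ∈ S then (if ty q = true then pick (s q - 1) (s q) (KK Γ t)
        else pick (s q - 2) (s q + 1) (KK Γ t)) else pick (s q + 1) (s q + 2) (KK Γ t)
  -- the values
  have hpar1 : ∀ l t, IsT l t → Even (zv l t - (KK Γ t - 1)) := by
    intro l t hlt
    match l, hlt with
    | none, hlt =>
      have : t = 1 := hlt
      subst this
      show Even ((0 : ℤ) - (KK Γ 1 - 1))
      rw [hK1]; simp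
    | some none, hlt =>
      have : t = n - 1 := hlt
      subst this
      exact hKn
    | some (some q), hlt =>
      show Even ((if q ∈ S then (if ty q = true then pick (s q - 1) (s q) (KK Γ t)
        else pick (s q - 2) (s q + 1) (KK Γ t)) else pick (s q + 1) (s q + 2) (KK Γ t)) - _)
      split_ifs
      · exact pick_even ⟨-1, by ring⟩
      · exact pick_even ⟨-2, by ring⟩
      · exact pick_even ⟨-1, by ring⟩
  have hrng : ∀ l t, IsT l t → 0 ≤ zv l t ∧ zv l t ≤ p + 2 := by
    intro l t hlt
    match l, hlt with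
    | none, hlt =>
      show (0 : ℤ) ≤ 0 ∧ (0 : ℤ) ≤ p + 2
      constructor <;> omega
    | some none, hlt =>
      show 0 ≤ D ∧ D ≤ p + 2
      omega
    | some (some q), hlt =>
      show 0 ≤ (if q ∈ S then (if ty q = true then pick (s q - 1) (s q) (KK Γ t)
        else pick (s q - 2) (s q + 1) (KK Γ t)) else pick (s q + 1) (s q + 2) (KK Γ t)) ∧
        (if q ∈ S then (if ty q = true then pick (s q - 1) (s q) (KK Γ t)
        else pick (s q - 2) (s q + 1) (KK Γ t)) else pick (s q + 1) (s q + 2) (KK Γ t)) ≤ p + 2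
      split_ifs with h1 h2
      · have := hS q h1
        rcases pick_mem (s q - 1) (s q) (KK Γ t) with h | h <;> rw [h] <;> omega
      · have := hS q h1
        rcases pick_mem (s q - 2) (s q + 1) (KK Γ t) with h | h <;> rw [h] <;> omega
      · have hqT : q ∈ T := by
          rcases hlt with h | h
          · exact absurd h.1 h1
          · exact h.1
        have := hTs q hqT
        rcases pick_mem (s q + 1) (s q + 2) (KK Γ t) with h | h <;> rw [h] <;> omega
  -- the anchor of a time
  have hanch : ∀ q t, IsT (some (some q)) t → q ∈ S ∪ T ∧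
      ∃ x ∈ ({α q, β q} : Finset ℕ), x ≤ t ∧ t ≤ x + 1 := by
    intro q t hlt
    rcases hlt with ⟨h1, h2⟩ | ⟨h1, h2 | h2 | h2⟩
    · exact ⟨Finset.mem_union_left _ h1, α q, by simp, by omega, by omega⟩
    · exact ⟨Finset.mem_union_right _ h1, α q, by simp, by omega, by omega⟩
    · exact ⟨Finset.mem_union_right _ h1, β q, by simp, by omega, by omega⟩
    · exact ⟨Finset.mem_union_right _ h1, β q, by simp, by omega, by omega⟩
  have hancr : ∀ q, q ∈ S ∪ T → ∀ x ∈ ({α q, β q} : Finset ℕ), R ≤ x ∧ x + R + 1 ≤ n := by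
    intro q hq x hx
    have := hrange q hq
    simp only [Finset.mem_insert, Finset.mem_singleton] at hx
    rcases hx with rfl | rfl
    · exact ⟨this.1, this.2.1⟩
    · exact ⟨this.2.2.1, this.2.2.2⟩
  have hnogap : ∀ q, q ∈ S ∪ T → ∀ x ∈ ({α q, β q} : Finset ℕ),
      ∀ g ∈ Γ, ¬ (x + 1 ≤ g ∧ g < x + 1 + (R - 1)) := by
    rintro q hq x hx g hg ⟨h1, h2⟩
    obtain ⟨q2, hq2, rfl⟩ := (hmemΓ g).1 hg
    by_cases he : q = q2
    · subst he
      have := hTlt q hq2
      simp only [Finset.mem_insert, Finset.mem_singleton] at hx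
      rcases hx with rfl | rfl <;> omega
    · have := hsep q hq q2 (Finset.mem_union_right _ hq2) he x hx (α q2) (by simp)
      omega
  -- separation of the times with different labels
  have hfar : ∀ l t l' t', IsT l t → IsT l' t' → l ≠ l' →
      (p : ℤ) + 2 ≤ |KK Γ t - KK Γ t'| := by
    have hR1 : (p : ℤ) + 2 ≤ ((R - 1 : ℕ) : ℤ) := by omega
    have conc : ∀ t t', KK Γ t + ((R - 1 : ℕ) : ℤ) ≤ KK Γ t' ∨
        KK Γ t' + ((R - 1 : ℕ) : ℤ) ≤ KK Γ t → (p : ℤ) + 2 ≤ |KK Γ t - KK Γ t'| := by
      intro t t' h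
      rcases h with h | h
      · rw [abs_sub_comm]
        exact le_trans (by linarith) (le_abs_self _)
      · exact le_trans (by linarith) (le_abs_self _)
    have f1 : ∀ t', R ≤ t' → KK Γ 1 + ((R - 1 : ℕ) : ℤ) ≤ KK Γ t' := fun t' h =>
      KK_far (x := 1) (fun g hg hcon => by have := (hgap g hg).1; omega) le_rfl (by omega)
    have f2 : ∀ t, t + R ≤ n → KK Γ t + ((R - 1 : ℕ) : ℤ) ≤ KK Γ (n - 1) := fun t h =>
      KK_far (x := n - R) (fun g hg hcon => by have := (hgap g hg).2; omega) (by omega) (by omega)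
    have g1 : ∀ q t, IsT (some (some q)) t → R ≤ t ∧ t + R ≤ n := by
      intro q t h
      obtain ⟨hq, x, hx, h1, h2⟩ := hanch q t h
      have := hancr q hq x hx
      omega
    intro l t l' t' h h' hne
    apply conc
    match l, l', h, h', hne with
    | none, none, h, h', hne => exact absurd rfl hne
    | some none, some none, h, h', hne => exact absurd rfl hne
    | none, some none, h, h', hne =>
      have e1 : t = 1 := h
      have e2 : t' = n - 1 := h'
      subst e1 e2
      exact Or.inl (f1 _ (by omega))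
    | some none, none, h, h', hne =>
      have e1 : t = n - 1 := h
      have e2 : t' = 1 := h'
      subst e1 e2
      exact Or.inr (f1 _ (by omega))
    | none, some (some q), h, h', hne =>
      have e1 : t = 1 := h
      subst e1
      exact Or.inl (f1 _ (g1 q t' h').1)
    | some (some q), none, h, h', hne =>
      have e1 : t' = 1 := h'
      subst e1
      exact Or.inr (f1 _ (g1 q t h).1)
    | some none, some (some q), h, h', hne =>
      have e1 : t = n - 1 := h
      subst e1
      exact Or.inr (f2 _ (g1 q t' h').2)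
    | some (some q), some none, h, h', hne =>
      have e1 : t' = n - 1 := h'
      subst e1
      exact Or.inl (f2 _ (g1 q t h).2)
    | some (some q), some (some q'), h, h', hne =>
      have hne' : q ≠ q' := fun e => hne (by rw [e])
      obtain ⟨hq, x, hx, h1, h2⟩ := hanch q t h
      obtain ⟨hq', y, hy, h3, h4⟩ := hanch q' t' h'
      rcases hsep q hq q' hq' hne' x hx y hy with h5 | h5
      · exact Or.inl (KK_far (x := x + 1) (hnogap q hq x hx) (by omega) (by omega))
      · exact Or.inr (KK_far (x := y + 1) (hnogap q' hq' y hy) (by omega) (by omega))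
  -- the set of prescribed points
  obtain ⟨L, hL⟩ : ∃ L : Finset (Option (Option ι)),
      L = insert none (insert (some none) ((S ∪ T).image (fun q => some (some q)))) := ⟨_, rfl⟩
  obtain ⟨P, hPdef⟩ : ∃ P : Finset (ℤ × ℤ),
      P = ((L ×ˢ range (n + 1)).filter (fun x => IsT x.1 x.2)).image
        (fun x => (KK Γ x.2, zv x.1 x.2)) := ⟨_, rfl⟩
  have memP : ∀ l t, l ∈ L → t ≤ n → IsT l t → (KK Γ t, zv l t) ∈ P := by
    intro l t hl ht h
    rw [hPdef, Finset.mem_image]
    exact ⟨(l, t), by
      rw [Finset.mem_filter, Finset.mem_product, Finset.mem_range]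
      exact ⟨⟨hl, by simpa using Nat.lt_succ_of_le ht⟩, h⟩, rfl⟩
  have ofP : ∀ x ∈ P, ∃ l t, IsT l t ∧ x = (KK Γ t, zv l t) := by
    intro x hx
    rw [hPdef, Finset.mem_image] at hx
    obtain ⟨⟨l, t⟩, h1, h2⟩ := hx
    rw [Finset.mem_filter] at h1
    exact ⟨l, t, h1.2, h2.symm⟩
  have hL0 : none ∈ L := by rw [hL]; simp
  have hL1 : some none ∈ L := by rw [hL]; simp
  have hL2 : ∀ q ∈ S ∪ T, some (some q) ∈ L := by
    intro q hq
    rw [hL, Finset.mem_insert, Finset.mem_insert, Finset.mem_image]
    exact Or.inr (Or.inr ⟨q, hq, rfl⟩)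
  have hPne : P.Nonempty := ⟨_, memP none 1 hL0 (by omega) rfl⟩
  obtain ⟨Y, hY1, hY2⟩ := walk_extend P hPne (by
    intro x hx x' hx'
    obtain ⟨l, t, h, rfl⟩ := ofP x hx
    obtain ⟨l', t', h', rfl⟩ := ofP x' hx'
    have e : (zv l t - zv l' t') - (KK Γ t - KK Γ t') =
        (zv l t - (KK Γ t - 1)) - (zv l' t' - (KK Γ t' - 1)) := by ring
    show Even ((zv l t - zv l' t') - (KK Γ t - KK Γ t'))
    rw [e]
    exact (hpar1 l t h).sub (hpar1 l' t' h')) (by
    intro x hx x' hx'
    obtain ⟨l, t, h, rfl⟩ := ofP x hx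
    obtain ⟨l', t', h', rfl⟩ := ofP x' hx'
    show |zv l t - zv l' t'| ≤ |KK Γ t - KK Γ t'|
    by_cases hl : l = l'
    · subst hl
      by_cases hz : zv l t = zv l t'
      · rw [hz, sub_self, abs_zero]
        exact abs_nonneg _
      -- parity
      have hpz : Even ((zv l t - zv l t') - (KK Γ t - KK Γ t')) := by
        have e : (zv l t - zv l t') - (KK Γ t - KK Γ t') =
          (zv l t - (KK Γ t - 1)) - (zv l t' - (KK Γ t' - 1)) := by ring
        rw [e]
        exact (hpar1 l t h).sub (hpar1 l t' h')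
      have hone : |zv l t - zv l t'| ≤ 1 := by
        match l, h, h', hz with
        | none, h, h', hz => exact absurd rfl hz
        | some none, h, h', hz => exact absurd rfl hz
        | some (some q), h, h', hz =>
          by_cases hqS : q ∈ S
          · have hqT : q ∉ T := fun hqT => (Finset.disjoint_left.1 hST hqS) hqT
            have e1 : t = α q + 1 := by
              rcases h with h | h
              · exact h.2
              · exact absurd h.1 hqT
            have e2 : t' = α q + 1 := by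
              rcases h' with h | h
              · exact h.2
              · exact absurd h.1 hqT
            exact absurd (by rw [e1, e2]) hz
          · have z1 : zv (some (some q)) t = pick (s q + 1) (s q + 2) (KK Γ t) := if_neg hqS
            have z2 : zv (some (some q)) t' = pick (s q + 1) (s q + 2) (KK Γ t') := if_neg hqS
            rw [z1, z2, abs_le]
            rcases pick_mem (s q + 1) (s q + 2) (KK Γ t) with h1 | h1 <;>
            rcases pick_mem (s q + 1) (s q + 2) (KK Γ t') with h2 | h2 <;>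
            rw [h1, h2] <;> constructor <;> omega
      refine hone.trans ?_
      by_contra hcon
      push Not at hcon
      have hk : KK Γ t - KK Γ t' = 0 := by
        have := abs_nonneg (KK Γ t - KK Γ t')
        exact abs_eq_zero.1 (by omega)
      rw [hk, sub_zero] at hpz
      obtain ⟨c, hc⟩ := hpz
      rw [abs_le] at hone
      apply hz
      omega
    · have h1 := hfar l t l' t' h h' hl
      refine le_trans ?_ h1
      have h2 := hrng l t h
      have h3 := hrng l' t' h'
      rw [abs_le]
      constructor <;> omega)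
  -- conclusion
  have hval : ∀ l t, l ∈ L → t ≤ n → IsT l t → Y (KK Γ t) = zv l t := fun l t hl ht h =>
    hY2 _ (memP l t hl ht h)
  refine ⟨fun i => Y (KK Γ i), ?_, ?_, ?_, ?_, ?_, ?_, ?_⟩
  · exact hval none 1 hL0 (by omega) rfl
  · intro i _ _ hi
    rw [← hΓ] at hi
    show Y (KK Γ (i + 1)) = Y (KK Γ i) + 1 ∨ Y (KK Γ (i + 1)) = Y (KK Γ i) - 1
    rw [KK_succ_not hi]
    exact hY1 _
  · intro i _ _ hi
    rw [← hΓ] at hi
    show Y (KK Γ (i + 1)) = Y (KK Γ i)
    rw [KK_succ_mem hi]
  · show Y (KK Γ (n - 1)) = _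
    rw [← hD]
    exact hval (some none) (n - 1) hL1 (by omega) rfl
  · intro q hq hty
    have hr := hrange q (Finset.mem_union_left _ hq)
    show Y (KK Γ (α q + 1)) = s q - 1 ∨ Y (KK Γ (α q + 1)) = s q
    rw [hval (some (some q)) (α q + 1) (hL2 q (Finset.mem_union_left _ hq)) (by omega)
      (Or.inl ⟨hq, rfl⟩)]
    have e : zv (some (some q)) (α q + 1) = pick (s q - 1) (s q) (KK Γ (α q + 1)) := by
      show (if q ∈ S then (if ty q = true then _ else _) else _) = _
      rw [if_pos hq, if_pos hty]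
    rw [e]
    exact pick_mem _ _ _
  · intro q hq hty
    have hr := hrange q (Finset.mem_union_left _ hq)
    show Y (KK Γ (α q + 1)) = s q - 2 ∨ Y (KK Γ (α q + 1)) = s q + 1
    rw [hval (some (some q)) (α q + 1) (hL2 q (Finset.mem_union_left _ hq)) (by omega)
      (Or.inl ⟨hq, rfl⟩)]
    have e : zv (some (some q)) (α q + 1) = pick (s q - 2) (s q + 1) (KK Γ (α q + 1)) := by
      show (if q ∈ S then (if ty q = true then _ else _) else _) = _
      rw [if_pos hq, if_neg (by rw [hty]; simp)]
    rw [e]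
    exact pick_mem _ _ _
  · intro q hq t ht
    have hr := hrange q (Finset.mem_union_right _ hq)
    have hqS : q ∉ S := fun hqS => (Finset.disjoint_left.1 hST hqS) hq
    simp only [Finset.mem_insert, Finset.mem_singleton] at ht
    show Y (KK Γ t) = s q + 1 ∨ Y (KK Γ t) = s q + 2
    rw [hval (some (some q)) t (hL2 q (Finset.mem_union_right _ hq)) (by
      rcases ht with rfl | rfl | rfl <;> omega) (Or.inr ⟨hq, ht⟩)]
    have e : zv (some (some q)) t = pick (s q + 1) (s q + 2) (KK Γ t) := if_neg hqS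
    rw [e]
    exact pick_mem _ _ _

end H93HD
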