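import Pool.Agent.H93HD.Defs

/-!
# A rooted tree on the classes of a connected graph
-/

namespace H93HD

open Finset

/-- `rep` picks a representative of each class; every class different from the root class has an edge
`u c – u' c` to a class of smaller rank.  (rank := minimal distance to a fixed vertex) -/
theorem treeOrder {V : Type*} [Finite V] (G : SimpleGraph V) (hG : G.Connected) (rep : V → V)
    (hidem : ∀ v, rep (rep v) = rep v) :
    ∃ (root : V) (rank : V → ℕ) (u u' : V → V), rep root = root ∧
      ∀ c, rep c = c → c ≠ root →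
        rep (u c) = c ∧ G.Adj (u c) (u' c) ∧ rank (rep (u' c)) < rank c := by
  classical
  obtain ⟨v0⟩ := hG.nonempty
  -- the minimum of the distance on a class
  set D : V → Set ℕ := fun c => {d | ∃ v, rep v = c ∧ G.dist v v0 = d} with hD
  set rank : V → ℕ := fun c => sInf (D c) with hrank
  have hne : ∀ c, rep c = c → (D c).Nonempty := fun c hc => ⟨_, c, hc, rfl⟩
  have hmin : ∀ v, rank (rep v) ≤ G.dist v v0 := fun v => Nat.sInf_le ⟨v, rfl, rfl⟩
  have hatt : ∀ c, rep c = c → ∃ v, rep v = c ∧ G.dist v v0 = rank c := fun c hc =>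
    Nat.sInf_mem (hne c hc)
  have key : ∀ c, ∃ uu : V × V, rep c = c → c ≠ rep v0 →
      rep uu.1 = c ∧ G.Adj uu.1 uu.2 ∧ rank (rep uu.2) < rank c := by
    intro c
    by_cases h : rep c = c ∧ c ≠ rep v0
    · obtain ⟨hc, hcr⟩ := h
      obtain ⟨v, hv, hd⟩ := hatt c hc
      have hvv0 : v ≠ v0 := by rintro rfl; exact hcr hv.symm
      obtain ⟨p, hp⟩ := hG.exists_walk_length_eq_dist v v0
      cases p with
      | nil => exact absurd rfl hvv0
      | @cons _ w _ hadj q =>
        refine ⟨(v, w), fun _ _ => ⟨hv, hadj, ?_⟩⟩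
        have h1 := hmin w
        have h2 : G.dist w v0 ≤ q.length := SimpleGraph.dist_le q
        simp only [SimpleGraph.Walk.length_cons] at hp
        show rank (rep w) < rank c
        omega
    · exact ⟨(c, c), fun h1 h2 => absurd ⟨h1, h2⟩ h⟩
  choose uu huu using key
  exact ⟨rep v0, rank, fun c => (uu c).1, fun c => (uu c).2, hidem v0, fun c hc hcr => huu c hc hcr⟩

end H93HD
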