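import Pool.Agent.H93HD.Defs

/-!
# Extension of a partial function to a walk with steps ±1
-/

namespace H93HD

open Finset

theorem walk_extend (P : Finset (ℤ × ℤ)) (hP : P.Nonempty)
    (hpar : ∀ q ∈ P, ∀ q' ∈ P, Even ((q.2 - q'.2) - (q.1 - q'.1)))
    (hlip : ∀ q ∈ P, ∀ q' ∈ P, |q.2 - q'.2| ≤ |q.1 - q'.1|) :
    ∃ Y : ℤ → ℤ, (∀ κ, Y (κ + 1) = Y κ + 1 ∨ Y (κ + 1) = Y κ - 1) ∧ ∀ q ∈ P, Y q.1 = q.2 := by
  classical
  set Y : ℤ → ℤ := fun κ => P.sup' hP (fun q => q.2 - |κ - q.1|) with hY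
  have hle : ∀ κ, ∀ q ∈ P, q.2 - |κ - q.1| ≤ Y κ := fun κ q hq =>
    Finset.le_sup' (fun q : ℤ × ℤ => q.2 - |κ - q.1|) hq
  have hex : ∀ κ, ∃ q ∈ P, Y κ = q.2 - |κ - q.1| := fun κ => by
    obtain ⟨q, hq, h⟩ := Finset.exists_mem_eq_sup' hP (fun q : ℤ × ℤ => q.2 - |κ - q.1|)
    exact ⟨q, hq, h⟩
  refine ⟨Y, fun κ => ?_, fun q hq => ?_⟩
  · obtain ⟨q, hq, h1⟩ := hex κ
    obtain ⟨q', hq', h2⟩ := hex (κ + 1)
    have h3 := hle (κ + 1) q hq
    have h4 := hle κ q' hq'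
    have h5 := hpar q hq q' hq'
    -- Lipschitz
    have h6 : Y κ - 1 ≤ Y (κ + 1) := by
      have : |κ + 1 - q.1| ≤ |κ - q.1| + 1 := by
        have := abs_add_le (κ - q.1) 1
        rw [abs_one] at this
        rwa [show κ + 1 - q.1 = κ - q.1 + 1 by ring]
      omega
    have h7 : Y (κ + 1) ≤ Y κ + 1 := by
      have : |κ - q'.1| ≤ |κ + 1 - q'.1| + 1 := by
        have := abs_add_le (κ + 1 - q'.1) (-1)
        rw [abs_neg, abs_one] at this
        rwa [show κ + 1 - q'.1 + -1 = κ - q'.1 by ring] at this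
      omega
    -- parity
    have h8 : ¬ (Y (κ + 1) = Y κ) := by
      intro h
      rw [h1, h2] at h
      obtain ⟨r, hr⟩ := h5
      rcases abs_cases (κ - q.1) with ⟨ha, _⟩ | ⟨ha, _⟩ <;>
        rcases abs_cases (κ + 1 - q'.1) with ⟨hb, _⟩ | ⟨hb, _⟩ <;>
        rw [ha, hb] at h <;> omega
    omega
  · apply le_antisymm
    · obtain ⟨q', hq', h⟩ := hex q.1
      rw [h]
      have := hlip q' hq' q hq
      have h1 := le_abs_self (q'.2 - q.2)
      rw [abs_sub_comm q'.1 q.1] at this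
      omega
    · have := hle q.1 q hq
      simpa using this

end H93HD
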